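import Mathlib

set_option autoImplicit false
set_option linter.unusedSectionVars false

open Set Filter Topology Metric
open scoped NNReal Manifold ContDiff

namespace Pool.Agent.Helper981

variable {E : Type*} [NormedAddCommGroup E] [NormedSpace ℝ E] [FiniteDimensional ℝ E]

lemma lip_on_ball {F : E → E} (hF : ContDiff ℝ 1 F) (x : E) (R : ℝ) :
    ∃ K : ℝ≥0, LipschitzOnWith K F (closedBall x R) := by
  have : ProperSpace E := FiniteDimensional.proper ℝ E
  have hc : Continuous (fun y => ‖fderiv ℝ F y‖₊) := (hF.continuous_fderiv one_ne_zero).nnnorm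
  obtain ⟨K, hK⟩ := ((isCompact_closedBall x R).image hc).bddAbove
  refine ⟨K, ?_⟩
  apply Convex.lipschitzOnWith_of_nnnorm_fderiv_le (𝕜 := ℝ)
  · intro y _
    exact hF.differentiable one_ne_zero y
  · intro y hy
    exact hK ⟨y, hy, rfl⟩
  · exact convex_closedBall x R

lemma local_sol {F : E → E} (hF : ContDiff ℝ 1 F) {A : ℝ} (hA0 : 0 < A)
    (hA : ∀ x, ‖F x‖ ≤ A * (1 + ‖x‖)) (x : E) :
    ∃ α : ℝ → E, α 0 = x ∧ ∀ t ∈ Ioo (-(1 / (2 * A))) (1 / (2 * A)), HasDerivAt α (F (α t)) t := by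
  set ε : ℝ := 1 / (2 * A) with hε
  have hε0 : 0 < ε := by positivity
  set a : ℝ≥0 := ⟨1 + ‖x‖, by positivity⟩ with ha
  set L : ℝ≥0 := ⟨2 * A * (1 + ‖x‖), by positivity⟩ with hL
  obtain ⟨K, hK⟩ := lip_on_ball hF x a
  have hb : ∀ y ∈ closedBall x a, ‖F y‖ ≤ L := by
    intro y hy
    have h1 : ‖y‖ ≤ ‖x‖ + a := norm_le_of_mem_closedBall hy
    have h2 : (a : ℝ) = 1 + ‖x‖ := rfl
    have h3 : (L : ℝ) = 2 * A * (1 + ‖x‖) := rfl
    rw [h3]
    refine (hA y).trans ?_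
    rw [h2] at h1
    nlinarith
  have hpl : IsPicardLindelof (fun _ => F) (tmin := -ε) (tmax := ε) ⟨0, by constructor <;> linarith⟩
      x a 0 L K := by
    apply IsPicardLindelof.of_time_independent hb hK
    have h3 : (L : ℝ) = 2 * A * (1 + ‖x‖) := rfl
    have h2 : (a : ℝ) = 1 + ‖x‖ := rfl
    simp only [sub_zero, zero_sub, neg_neg, max_self, NNReal.coe_zero]
    rw [h3, h2, hε]
    apply le_of_eq
    field_simp
  obtain ⟨α, h0, h1⟩ := hpl.exists_eq_forall_mem_Icc_hasDerivWithinAt₀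
  refine ⟨α, h0, ?_⟩
  intro t ht
  exact (h1 t ⟨ht.1.le, ht.2.le⟩).hasDerivAt (Icc_mem_nhds ht.1 ht.2)

set_option backward.isDefEq.respectTransparency false in
lemma global_sol {F : E → E} (hF : ContDiff ℝ 1 F) {A : ℝ} (hA0 : 0 < A)
    (hA : ∀ x, ‖F x‖ ≤ A * (1 + ‖x‖)) (x : E) :
    ∃ α : ℝ → E, α 0 = x ∧ ∀ t, HasDerivAt α (F (α t)) t := by
  have hv : ContMDiff 𝓘(ℝ, E) 𝓘(ℝ, E).tangent 1
      (fun x : E => (⟨x, F x⟩ : TangentBundle 𝓘(ℝ, E) E)) :=
    (contMDiff_vectorSpace_iff_contDiff (V := F)).2 hF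
  obtain ⟨γ, h0, h1⟩ := exists_isMIntegralCurve_of_isMIntegralCurveOn (I := 𝓘(ℝ, E)) (v := F) hv
    (ε := 1 / (2 * A)) (by positivity) (fun y => by
      obtain ⟨α, h0, h1⟩ := local_sol hF hA0 hA y
      refine ⟨α, h0, fun t ht => ?_⟩
      have := (h1 t ht).hasFDerivAt.hasMFDerivAt.hasMFDerivWithinAt (s := Ioo (-(1 / (2 * A))) (1 / (2 * A)))
      exact this) x
  refine ⟨γ, h0, fun t => ?_⟩
  exact hasDerivAt_iff_hasFDerivAt.2 (hasMFDerivAt_iff_hasFDerivAt.1 (h1 t))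

lemma sol_uniq {F : E → E} (hF : ContDiff ℝ 1 F) {α β : ℝ → E}
    (hα : ∀ t, HasDerivAt α (F (α t)) t) (hβ : ∀ t, HasDerivAt β (F (β t)) t)
    (h0 : α 0 = β 0) : α = β := by
  funext t
  set T := |t| + 1 with hT
  have cα : Continuous α := continuous_iff_continuousAt.2 (fun t => (hα t).continuousAt)
  have cβ : Continuous β := continuous_iff_continuousAt.2 (fun t => (hβ t).continuousAt)
  obtain ⟨R1, hR1⟩ := ((isCompact_Icc (a := -T) (b := T)).image cα).isBounded.exists_norm_le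
  obtain ⟨R2, hR2⟩ := ((isCompact_Icc (a := -T) (b := T)).image cβ).isBounded.exists_norm_le
  obtain ⟨K, hK⟩ := lip_on_ball hF 0 (max R1 R2)
  have ht : t ∈ Ioo (-T) T := by
    have := neg_abs_le t
    have := le_abs_self t
    constructor <;> linarith
  have h0T : (0:ℝ) ∈ Ioo (-T) T := by
    have := abs_nonneg t
    constructor <;> linarith
  refine ODE_solution_unique_of_mem_Ioo (v := fun _ => F) (s := fun _ => closedBall 0 (max R1 R2))
    (fun _ _ => hK) h0T (fun s hs => ⟨hα s, ?_⟩) (fun s hs => ⟨hβ s, ?_⟩) h0 ht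
  · rw [mem_closedBall_zero_iff]
    exact (hR1 _ ⟨s, ⟨hs.1.le, hs.2.le⟩, rfl⟩).trans (le_max_left _ _)
  · rw [mem_closedBall_zero_iff]
    exact (hR2 _ ⟨s, ⟨hs.1.le, hs.2.le⟩, rfl⟩).trans (le_max_right _ _)

lemma sol_bound {F : E → E} {A : ℝ} (hA0 : 0 < A)
    (hA : ∀ x, ‖F x‖ ≤ A * (1 + ‖x‖)) {α : ℝ → E} (hα : ∀ t, HasDerivAt α (F (α t)) t)
    {δ T : ℝ} (h0 : ‖α 0‖ ≤ δ) {t : ℝ} (ht : t ∈ Icc 0 T) : ‖α t‖ ≤ gronwallBound δ A A T := by
  have cα : Continuous α := continuous_iff_continuousAt.2 (fun t => (hα t).continuousAt)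
  have h1 := norm_le_gronwallBound_of_norm_deriv_right_le (f := α) (f' := fun s => F (α s))
    (δ := δ) (K := A) (ε := A) (a := 0) (b := T) cα.continuousOn
    (fun s _ => (hα s).hasDerivWithinAt) h0 (fun s _ => by
      refine (hA (α s)).trans (le_of_eq ?_)
      ring) t ht
  rw [sub_zero] at h1
  have hδ : 0 ≤ δ := (norm_nonneg _).trans h0
  exact h1.trans (gronwallBound_mono hδ hA0.le hA0.le ht.2)

lemma sol_dist {F : E → E} {A : ℝ} (hA0 : 0 < A)
    (hA : ∀ x, ‖F x‖ ≤ A * (1 + ‖x‖)) {T δ : ℝ} {K : ℝ≥0}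
    (hK : LipschitzOnWith K F (closedBall 0 (gronwallBound δ A A T)))
    {α β : ℝ → E} (hα : ∀ t, HasDerivAt α (F (α t)) t) (hβ : ∀ t, HasDerivAt β (F (β t)) t)
    (h0 : ‖α 0‖ ≤ δ) (h0' : ‖β 0‖ ≤ δ) (hT : 0 ≤ T) :
    dist (α T) (β T) ≤ dist (α 0) (β 0) * Real.exp (K * T) := by
  have cα : Continuous α := continuous_iff_continuousAt.2 (fun t => (hα t).continuousAt)
  have cβ : Continuous β := continuous_iff_continuousAt.2 (fun t => (hβ t).continuousAt)
  have := dist_le_of_trajectories_ODE_of_mem (v := fun _ => F) (K := K)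
    (s := fun _ => closedBall 0 (gronwallBound δ A A T)) (f := α) (g := β) (a := 0) (b := T)
    (δ := dist (α 0) (β 0)) (fun _ _ => hK)
    cα.continuousOn (fun s _ => (hα s).hasDerivWithinAt)
    (fun s hs => by
      rw [mem_closedBall_zero_iff]
      exact sol_bound hA0 hA hα h0 ⟨hs.1, hs.2.le⟩)
    cβ.continuousOn (fun s _ => (hβ s).hasDerivWithinAt)
    (fun s hs => by
      rw [mem_closedBall_zero_iff]
      exact sol_bound hA0 hA hβ h0' ⟨hs.1, hs.2.le⟩) le_rfl T ⟨hT, le_rfl⟩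
  simpa using this

lemma continuousAt_of_bound {f : E → E} {x : E} {C : ℝ} (hC : 0 ≤ C)
    (h : ∀ y, ‖y‖ ≤ ‖x‖ + 1 → dist (f y) (f x) ≤ dist y x * C) : ContinuousAt f x := by
  rw [Metric.continuousAt_iff]
  intro ε hε
  refine ⟨min 1 (ε / (C + 1)), by positivity, ?_⟩
  intro y hy
  have h1 : dist y x < 1 := lt_of_lt_of_le hy (min_le_left _ _)
  have h2 : dist y x < ε / (C + 1) := lt_of_lt_of_le hy (min_le_right _ _)
  have h3 : ‖y‖ ≤ ‖x‖ + 1 := by
    have := norm_le_norm_add_norm_sub' y x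
    rw [dist_eq_norm] at h1
    linarith
  refine lt_of_le_of_lt (h y h3) ?_
  rw [lt_div_iff₀ (by positivity)] at h2
  have := dist_nonneg (x := y) (y := x)
  nlinarith

theorem exists_flow {F : E → E} (hF : ContDiff ℝ 1 F) {A : ℝ} (hA0 : 0 < A)
    (hA : ∀ x, ‖F x‖ ≤ A * (1 + ‖x‖)) :
    ∃ φ : ℝ → E → E, (∀ x, φ 0 x = x) ∧ (∀ x t, HasDerivAt (fun s => φ s x) (F (φ t x)) t) ∧
      (∀ t, Continuous (φ t)) ∧
      (∀ γ : ℝ → E, (∀ t, HasDerivAt γ (F (γ t)) t) → ∀ t s, γ (t + s) = φ s (γ t)) := by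
  choose φ' h0 h1 using fun x => global_sol hF hA0 hA x
  refine ⟨fun t x => φ' x t, h0, h1, ?_, ?_⟩
  · intro t
    rw [continuous_iff_continuousAt]
    intro x
    rcases le_total 0 t with ht | ht
    · obtain ⟨K, hK⟩ := lip_on_ball hF 0 (gronwallBound (‖x‖ + 1) A A t)
      apply continuousAt_of_bound (C := Real.exp (K * t)) (Real.exp_pos _).le
      intro y hy
      have := sol_dist hA0 hA (T := t) hK (h1 y) (h1 x) (by rw [h0]; exact hy)
        (by rw [h0]; linarith) ht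
      rwa [h0, h0] at this
    · have hF' : ContDiff ℝ 1 (fun x => - F x) := hF.neg
      have hA' : ∀ x, ‖- F x‖ ≤ A * (1 + ‖x‖) := fun x => by rw [norm_neg]; exact hA x
      obtain ⟨K, hK⟩ := lip_on_ball hF' 0 (gronwallBound (‖x‖ + 1) A A (-t))
      apply continuousAt_of_bound (C := Real.exp (K * (-t))) (Real.exp_pos _).le
      intro y hy
      have hrev : ∀ z, ∀ s, HasDerivAt (fun s => φ' z (-s)) (- F (φ' z (-s))) s := by
        intro z s
        have := (h1 z (-s)).scomp s (hasDerivAt_neg s)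
        simpa [Function.comp_def] using this
      have := sol_dist (F := fun x => - F x) hA0 hA' (T := -t) hK (hrev y) (hrev x)
        (by simp only [neg_zero]; rw [h0]; exact hy) (by simp only [neg_zero]; rw [h0]; linarith)
        (by linarith)
      simpa [h0] using this
  · intro γ hγ t s
    have h2 : ∀ u, HasDerivAt (fun u => γ (t + u)) (F (γ (t + u))) u := by
      intro u
      have := (hγ (t + u)).comp_const_add t u
      exact this
    have := sol_uniq hF h2 (h1 (γ t)) (by simp [h0])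
    exact congrFun this s

end Pool.Agent.Helper981
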