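import Mathlib

set_option autoImplicit false

open Set Filter Topology

namespace Pool.Agent.Helper981

/-- continued fraction denominators -/
def qq : ℕ → ℕ
  | 0 => 0
  | 1 => 1
  | (k + 2) => 1048576 * qq (k + 1) + qq k

/-- the rotation number -/
noncomputable def om : ℝ := (Real.sqrt (1048576 ^ 2 + 4) - 1048576) / 2

lemma om_eq : om ^ 2 + 1048576 * om = 1 := by
  unfold om
  have h := Real.sq_sqrt (show (0:ℝ) ≤ 1048576 ^ 2 + 4 by norm_num)
  generalize Real.sqrt (1048576 ^ 2 + 4) = s at h ⊢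
  linear_combination h / 4

lemma om_pos : 0 < om := by
  unfold om
  have h : (1048576 : ℝ) < Real.sqrt (1048576 ^ 2 + 4) := by
    apply Real.lt_sqrt_of_sq_lt
    norm_num
  generalize Real.sqrt (1048576 ^ 2 + 4) = s at h ⊢
  linarith

lemma om_lt : 1048576 * om < 1 := by
  have := om_eq
  have := om_pos
  nlinarith

lemma om_lt_one : om < 1 := by
  have := om_lt
  have := om_pos
  linarith

lemma om_irrational : Irrational om := by
  have h1 : Irrational (Real.sqrt (1048576 ^ 2 + 4)) := by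
    have : Irrational (Real.sqrt ((1048576 ^ 2 + 4 : ℕ) : ℝ)) := by
      rw [irrational_sqrt_natCast_iff]
      rintro ⟨r, hr⟩
      have h1 : 1048576 < r := by nlinarith
      have h2 : r < 1048577 := by nlinarith
      omega
    exact_mod_cast this
  unfold om
  have h2 : (Real.sqrt (1048576 ^ 2 + 4) - 1048576) / 2
      = (Real.sqrt (1048576 ^ 2 + 4) - (1048576 : ℕ)) / (2 : ℕ) := by norm_num
  rw [h2]
  exact (h1.sub_natCast _).div_natCast (by norm_num)

lemma qq_om (k : ℕ) : (qq (k + 1) : ℝ) * om - qq k = (-1) ^ k * om ^ (k + 1) := by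
  induction k using Nat.twoStepInduction with
  | zero => simp [qq]
  | one =>
    have := om_eq
    simp [qq]
    linarith
  | more k ih1 ih2 =>
    have h1 : (qq (k + 3) : ℝ) = 1048576 * qq (k + 2) + qq (k + 1) := by
      have : qq (k + 3) = 1048576 * qq (k + 2) + qq (k + 1) := rfl
      exact_mod_cast this
    have h2 : (qq (k + 2) : ℝ) = 1048576 * qq (k + 1) + qq k := by
      have : qq (k + 2) = 1048576 * qq (k + 1) + qq k := rfl
      exact_mod_cast this
    have h3 : (qq (k + 3) : ℝ) * om - qq (k + 2)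
        = 1048576 * ((qq (k + 2) : ℝ) * om - qq (k + 1)) + ((qq (k + 1) : ℝ) * om - qq k) := by
      linear_combination om * h1 - h2
    have h4 := om_eq
    show (qq (k + 3) : ℝ) * om - qq (k + 2) = _
    have ih2' : (qq (k + 2) : ℝ) * om - qq (k + 1) = (-1) ^ (k + 1) * om ^ (k + 2) := ih2
    rw [h3, ih2', ih1]
    have h5 : om ^ 2 = 1 - 1048576 * om := by linarith
    rw [show (-1 : ℝ) ^ (k + 2) * om ^ (k + 2 + 1) = (-1) ^ k * om ^ (k + 1) * om ^ 2 by ring, h5]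
    ring

lemma qq_mul_om_le (k : ℕ) : (qq k : ℝ) * om ^ k ≤ 1 := by
  induction k using Nat.twoStepInduction with
  | zero => simp [qq]
  | one => simp [qq]; exact om_lt_one.le
  | more k ih1 ih2 =>
    have h2 : (qq (k + 2) : ℝ) = 1048576 * qq (k + 1) + qq k := by
      have : qq (k + 2) = 1048576 * qq (k + 1) + qq k := rfl
      exact_mod_cast this
    have h4 := om_eq
    have h5 := om_pos
    rw [h2]
    calc (1048576 * (qq (k + 1) : ℝ) + qq k) * om ^ (k + 2)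
        = 1048576 * om * ((qq (k + 1) : ℝ) * om ^ (k + 1)) + om ^ 2 * ((qq k : ℝ) * om ^ k) := by ring
      _ ≤ 1048576 * om * 1 + om ^ 2 * 1 := by gcongr
      _ = 1 := by linarith

lemma qq_mono (k : ℕ) : qq k ≤ qq (k + 1) := by
  cases k with
  | zero => simp [qq]
  | succ k =>
    have : qq (k + 1 + 1) = 1048576 * qq (k + 1) + qq k := rfl
    omega

lemma qq_succ_le (k : ℕ) : qq (k + 2) ≤ 1048577 * qq (k + 1) := by
  have h : qq (k + 2) = 1048576 * qq (k + 1) + qq k := rfl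
  have := qq_mono k
  omega

lemma qq_le_succ (k : ℕ) : 1048576 * qq (k + 1) ≤ qq (k + 2) := by
  have h : qq (k + 2) = 1048576 * qq (k + 1) + qq k := rfl
  omega

lemma qq_growth (k t : ℕ) : 1048576 ^ t * qq (k + 1) ≤ qq (k + 1 + t) := by
  induction t with
  | zero => simp
  | succ t ih =>
    have := qq_le_succ (k + t)
    rw [show k + 1 + (t + 1) = k + t + 2 by ring]
    rw [show k + t + 1 = k + 1 + t by ring] at this
    calc 1048576 ^ (t + 1) * qq (k + 1) = 1048576 * (1048576 ^ t * qq (k + 1)) := by ring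
      _ ≤ 1048576 * qq (k + 1 + t) := by gcongr
      _ ≤ _ := this

lemma qq_lower (k : ℕ) : 1048576 ^ k ≤ qq (k + 1) := by
  have := qq_growth 0 k
  simpa [qq, add_comm] using this

/-- the standard character -/
noncomputable def ee (x : ℝ) : ℂ := Complex.exp (Complex.I * ((2 * Real.pi * x : ℝ) : ℂ))

lemma ee_add (x y : ℝ) : ee (x + y) = ee x * ee y := by
  unfold ee
  rw [← Complex.exp_add]
  congr 1
  push_cast; ring

lemma ee_int (n : ℤ) : ee n = 1 := by
  unfold ee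
  rw [Complex.exp_eq_one_iff]
  exact ⟨n, by push_cast; ring⟩

lemma ee_norm (x : ℝ) : ‖ee x‖ = 1 := by
  unfold ee
  rw [mul_comm]
  exact Complex.norm_exp_ofReal_mul_I _

lemma ee_sub_one (x : ℝ) : ‖ee x - 1‖ = 2 * |Real.sin (Real.pi * x)| := by
  unfold ee
  rw [Complex.norm_exp_I_mul_ofReal_sub_one]
  rw [show 2 * Real.pi * x / 2 = Real.pi * x by ring, norm_mul]
  simp

lemma ee_sub_one_le (x : ℝ) : ‖ee x - 1‖ ≤ 2 * Real.pi * |x| := by
  rw [ee_sub_one]
  have h := Real.abs_sin_le_abs (x := Real.pi * x)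
  rw [abs_mul, abs_of_pos Real.pi_pos] at h
  nlinarith

lemma ee_sub_one_le_two (x : ℝ) : ‖ee x - 1‖ ≤ 2 := by
  rw [ee_sub_one]
  have h := Real.abs_sin_le_one (Real.pi * x)
  linarith

lemma le_ee_sub_one {x : ℝ} (h : |x| ≤ 1 / 2) : 4 * |x| ≤ ‖ee x - 1‖ := by
  rw [ee_sub_one]
  have h1 : |Real.pi * x| ≤ Real.pi / 2 := by
    rw [abs_mul, abs_of_pos Real.pi_pos]
    nlinarith [Real.pi_pos]
  have h2 := Real.mul_abs_le_abs_sin h1
  rw [abs_mul, abs_of_pos Real.pi_pos] at h2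
  have h3 : 2 / Real.pi * (Real.pi * |x|) = 2 * |x| := by
    field_simp
  linarith

lemma ee_continuous : Continuous ee := by
  unfold ee
  fun_prop

/-- amplitudes -/
noncomputable def am (i : ℕ) : ℝ := (1 / 16) * (1 / 32) ^ i

lemma am_pos (i : ℕ) : 0 < am i := by unfold am; positivity

lemma am_le (r m : ℕ) : am (5 * m + r) ≤ (1 / 16) * (1 / 32) ^ m := by
  unfold am
  have : (1 / 32 : ℝ) ^ (5 * m + r) ≤ (1 / 32) ^ m :=
    pow_le_pow_of_le_one (by norm_num) (by norm_num) (by omega)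
  linarith

/-- terms of the lacunary series -/
noncomputable def tm (r m : ℕ) (x : ℝ) : ℂ :=
  (am (5 * m + r) : ℂ) * ee ((qq (5 * m + r + 1) : ℝ) * x)

/-- lacunary series -/
noncomputable def Yr (r : ℕ) (x : ℝ) : ℂ := ∑' m : ℕ, tm r m x

lemma tm_norm (r m : ℕ) (x : ℝ) : ‖tm r m x‖ = am (5 * m + r) := by
  unfold tm
  rw [norm_mul, ee_norm, mul_one, Complex.norm_real, Real.norm_of_nonneg (am_pos _).le]

lemma geo_sum : HasSum (fun m : ℕ => (1 / 16 : ℝ) * (1 / 32) ^ m) ((1 / 16) * (1 - 1 / 32)⁻¹) :=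
  (hasSum_geometric_of_lt_one (by norm_num) (by norm_num)).mul_left _

lemma tm_summable (r : ℕ) (x : ℝ) : Summable (fun m => tm r m x) := by
  apply Summable.of_norm_bounded geo_sum.summable
  intro m
  rw [tm_norm]; exact am_le r m

lemma Yr_norm (r : ℕ) (x : ℝ) : ‖Yr r x‖ ≤ 1 / 8 := by
  unfold Yr
  refine (tsum_of_norm_bounded geo_sum (fun m => ?_)).trans (by norm_num)
  rw [tm_norm]; exact am_le r m

lemma Yr_continuous (r : ℕ) : Continuous (Yr r) := by
  unfold Yr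
  apply continuous_tsum (u := fun m : ℕ => (1 / 16 : ℝ) * (1 / 32) ^ m)
  · intro m
    unfold tm
    exact continuous_const.mul (ee_continuous.comp (by fun_prop))
  · exact geo_sum.summable
  · intro m x
    rw [tm_norm]; exact am_le r m

lemma Yr_periodic (r : ℕ) (x : ℝ) : Yr r (x + 1) = Yr r x := by
  unfold Yr tm
  apply tsum_congr
  intro m
  rw [mul_add, ee_add, mul_one]
  have := ee_int (qq (5 * m + r + 1) : ℤ)
  rw [Int.cast_natCast] at this
  rw [this, mul_one]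

/-- differences of terms -/
lemma tm_diff (r m : ℕ) (x d : ℝ) :
    tm r m (x + d) - tm r m x
      = (am (5 * m + r) : ℂ) * ee ((qq (5 * m + r + 1) : ℝ) * x)
        * (ee ((qq (5 * m + r + 1) : ℝ) * d) - 1) := by
  unfold tm
  rw [mul_add, ee_add]; ring

lemma tm_diff_norm (r m : ℕ) (x d : ℝ) :
    ‖tm r m (x + d) - tm r m x‖
      = am (5 * m + r) * ‖ee ((qq (5 * m + r + 1) : ℝ) * d) - 1‖ := by
  rw [tm_diff, norm_mul, norm_mul, ee_norm, mul_one, Complex.norm_real,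
    Real.norm_of_nonneg (am_pos _).le]

lemma Yr_diff (r : ℕ) (x d : ℝ) :
    Yr r (x + d) - Yr r x = ∑' m : ℕ, (tm r m (x + d) - tm r m x) := by
  unfold Yr
  rw [(tm_summable r (x + d)).tsum_sub (tm_summable r x)]

lemma half_sum (M : ℕ) :
    ∑ m ∈ Finset.range M, (1 / 2 : ℝ) ^ (M - m + 1) = 1 / 2 - (1 / 2) ^ (M + 1) := by
  induction M with
  | zero => simp
  | succ M ih =>
    rw [Finset.sum_range_succ']
    simp only [Nat.add_sub_add_right, Nat.sub_zero]
    rw [ih]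
    ring

lemma Yr_lower {d : ℝ} (hd : 0 < |d|) (hd2 : |d| ≤ 1 / 2) (x : ℝ) :
    ∃ r < 5, |d| ≤ (16 ^ 4 * 2097154 ^ 3) * ‖Yr r (x + d) - Yr r x‖ ^ 4 := by
  classical
  have hex : ∃ K : ℕ, 1 / 2 < (qq (K + 1) : ℝ) * |d| := by
    obtain ⟨K, hK⟩ := pow_unbounded_of_one_lt (1 / |d|) (show (1:ℝ) < 1048576 by norm_num)
    refine ⟨K, ?_⟩
    have h1 : (1048576 : ℝ) ^ K ≤ (qq (K + 1) : ℝ) := by exact_mod_cast qq_lower K
    have h2 : 1 / |d| * |d| = 1 := by field_simp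
    nlinarith
  have hK := Nat.find_spec hex
  have hmin := fun m => Nat.find_min hex (m := m)
  generalize Nat.find hex = K at hK hmin
  have hK0 : K ≠ 0 := by
    intro h0
    rw [h0] at hK
    simp [qq] at hK
    linarith
  obtain ⟨k, rfl⟩ : ∃ k, K = k + 1 := ⟨K - 1, by omega⟩
  have hk1 : (qq (k + 1) : ℝ) * |d| ≤ 1 / 2 := not_lt.1 (hmin k (by omega))
  have hQ : (qq (k + 2) : ℝ) ≤ 1048577 * qq (k + 1) := by exact_mod_cast qq_succ_le k
  have hk2 : 1 / 2097154 ≤ (qq (k + 1) : ℝ) * |d| := by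
    have : (1:ℝ) / 2 ≤ 1048577 * qq (k + 1) * |d| := by
      refine hK.le.trans ?_
      gcongr
    linarith
  set r := k % 5 with hr
  set M := k / 5 with hM
  have hkM : 5 * M + r = k := Nat.div_add_mod k 5
  refine ⟨r, Nat.mod_lt _ (by norm_num), ?_⟩
  set B := am k * ((qq (k + 1) : ℝ) * |d|) with hB
  have hB0 : 0 < B := by
    have := am_pos k
    have h3 : (0:ℝ) < (qq (k + 1) : ℝ) * |d| := lt_of_lt_of_le (by norm_num) hk2
    positivity
  set t : ℕ → ℂ := fun m => tm r m (x + d) - tm r m x with ht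
  have htn : ∀ m, ‖t m‖ = am (5 * m + r) * ‖ee ((qq (5 * m + r + 1) : ℝ) * d) - 1‖ :=
    fun m => tm_diff_norm r m x d
  have h4 : 4 * B ≤ ‖t M‖ := by
    rw [htn, hkM, hB]
    have h5 : |(qq (k + 1) : ℝ) * d| = (qq (k + 1) : ℝ) * |d| := by
      rw [abs_mul, abs_of_nonneg (by positivity : (0:ℝ) ≤ (qq (k + 1) : ℝ))]
    have h6 := le_ee_sub_one (x := (qq (k + 1) : ℝ) * d) (by rw [h5]; exact hk1)
    rw [h5] at h6
    have := am_pos k
    nlinarith
  have hlow : ∀ m, m < M → ‖t m‖ ≤ B * (1 / 2) ^ (M - m + 1) := by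
    intro m hm
    obtain ⟨e, he⟩ : ∃ e, M = m + (e + 1) := ⟨M - m - 1, by omega⟩
    have hMe : M - m = e + 1 := by omega
    rw [htn, hMe]
    have hidx : 5 * m + r + 1 + 5 * (e + 1) = k + 1 := by omega
    have hg : (1048576:ℝ) ^ (5 * (e + 1)) * qq (5 * m + r + 1) ≤ qq (k + 1) := by
      have := qq_growth (5 * m + r) (5 * (e + 1))
      rw [hidx] at this
      exact_mod_cast this
    have ha : am (5 * m + r) = am k * 32 ^ (5 * (e + 1)) := by
      unfold am
      have : k = 5 * m + r + 5 * (e + 1) := by omega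
      rw [this, pow_add (1 / 32 : ℝ) (5 * m + r)]
      have h7 : (1 / 32 : ℝ) ^ (5 * (e + 1)) * 32 ^ (5 * (e + 1)) = 1 := by
        rw [← mul_pow]; norm_num
      rw [mul_assoc, mul_assoc, h7, mul_one]
    have h8 := ee_sub_one_le ((qq (5 * m + r + 1) : ℝ) * d)
    rw [abs_mul, abs_of_nonneg (by positivity : (0:ℝ) ≤ (qq (5 * m + r + 1) : ℝ))] at h8
    have hap := am_pos k
    have hpi : Real.pi ≤ 4 := Real.pi_le_four
    have hq0 : (0:ℝ) ≤ (qq (5 * m + r + 1) : ℝ) := by positivity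
    have h9 : (32:ℝ) ^ (5 * (e + 1)) * (qq (5 * m + r + 1) : ℝ)
        ≤ (qq (k + 1) : ℝ) * (1 / 32768) ^ (5 * (e + 1)) := by
      have h10 : (32:ℝ) ^ (5 * (e + 1)) = 1048576 ^ (5 * (e + 1)) * (1 / 32768) ^ (5 * (e + 1)) := by
        rw [← mul_pow]; norm_num
      rw [h10]
      calc _ = (1048576 ^ (5 * (e + 1)) * (qq (5 * m + r + 1) : ℝ)) * (1 / 32768) ^ (5 * (e + 1)) := by ring
        _ ≤ _ := by gcongr
    have h11 : (1 / 32768 : ℝ) ^ (5 * (e + 1)) ≤ (1 / 16) * (1 / 2) ^ (e + 1 + 1) := by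
      have h12 : (1 / 32768 : ℝ) ^ (5 * (e + 1)) ≤ (1 / 32768) ^ (e + 1) :=
        pow_le_pow_of_le_one (by norm_num) (by norm_num) (by omega)
      have h13 : (1 / 32768 : ℝ) ^ (e + 1) = (1 / 2) ^ (e + 1) * (1 / 16384) ^ (e + 1) := by
        rw [← mul_pow]; norm_num
      have h14 : (1 / 16384 : ℝ) ^ (e + 1) ≤ 1 / 16384 := by
        calc (1 / 16384 : ℝ) ^ (e + 1) ≤ (1 / 16384) ^ 1 :=
              pow_le_pow_of_le_one (by norm_num) (by norm_num) (by omega)
          _ = _ := by norm_num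
      have h15 : (0:ℝ) < (1 / 2) ^ (e + 1) := by positivity
      rw [pow_succ (1 / 2 : ℝ) (e + 1)]
      nlinarith
    calc am (5 * m + r) * ‖ee ((qq (5 * m + r + 1) : ℝ) * d) - 1‖
        ≤ am (5 * m + r) * (2 * 4 * ((qq (5 * m + r + 1) : ℝ) * |d|)) := by
          have := am_pos (5 * m + r)
          gcongr
          refine h8.trans ?_
          gcongr
      _ = am k * (8 * |d|) * (32 ^ (5 * (e + 1)) * (qq (5 * m + r + 1) : ℝ)) := by rw [ha]; ring
      _ ≤ am k * (8 * |d|) * ((qq (k + 1) : ℝ) * (1 / 32768) ^ (5 * (e + 1))) := by gcongr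
      _ ≤ am k * (8 * |d|) * ((qq (k + 1) : ℝ) * ((1 / 16) * (1 / 2) ^ (e + 1 + 1))) := by gcongr
      _ ≤ B * (1 / 2) ^ (e + 1 + 1) := by
          rw [hB]
          have : (0:ℝ) ≤ am k * ((qq (k + 1) : ℝ) * |d|) * (1 / 2) ^ (e + 1 + 1) := by positivity
          nlinarith
  have hhigh : ∀ j : ℕ, ‖t (j + (M + 1))‖ ≤ B * (1 / 2) ^ (j + 2) := by
    intro j
    rw [htn]
    have h8 := ee_sub_one_le_two ((qq (5 * (j + (M + 1)) + r + 1) : ℝ) * d)
    have hidx : 5 * (j + (M + 1)) + r = k + 5 * (j + 1) := by omega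
    have ha : am (5 * (j + (M + 1)) + r) = am k * (1 / 32) ^ (5 * (j + 1)) := by
      rw [hidx]; unfold am; rw [pow_add]; ring
    have hap := am_pos k
    have h11 : (1 / 32 : ℝ) ^ (5 * (j + 1)) ≤ (1 / 8388608) * (1 / 2) ^ (j + 2) := by
      have h13 : (1 / 32 : ℝ) ^ (5 * (j + 1)) = (1 / 2) ^ (j + 1) * (1 / 16777216) ^ (j + 1) := by
        rw [pow_mul, ← mul_pow]; norm_num
      have h14 : (1 / 16777216 : ℝ) ^ (j + 1) ≤ 1 / 16777216 := by
        calc (1 / 16777216 : ℝ) ^ (j + 1) ≤ (1 / 16777216) ^ 1 :=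
              pow_le_pow_of_le_one (by norm_num) (by norm_num) (by omega)
          _ = _ := by norm_num
      have h15 : (0:ℝ) < (1 / 2) ^ (j + 1) := by positivity
      rw [show j + 2 = j + 1 + 1 by ring, pow_succ (1 / 2 : ℝ) (j + 1)]
      nlinarith
    have h0 := am_pos (5 * (j + (M + 1)) + r)
    have h16 : (0:ℝ) < (1 / 2) ^ (j + 2) := by positivity
    calc am (5 * (j + (M + 1)) + r) * ‖ee ((qq (5 * (j + (M + 1)) + r + 1) : ℝ) * d) - 1‖
        ≤ am (5 * (j + (M + 1)) + r) * 2 := by gcongr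
      _ = am k * 2 * (1 / 32) ^ (5 * (j + 1)) := by rw [ha]; ring
      _ ≤ am k * 2 * ((1 / 8388608) * (1 / 2) ^ (j + 2)) := by gcongr
      _ = am k * (1 / 4194304) * (1 / 2) ^ (j + 2) := by ring
      _ ≤ am k * ((qq (k + 1) : ℝ) * |d|) * (1 / 2) ^ (j + 2) := by
          gcongr
          exact le_trans (by norm_num) hk2
  have hsum : Summable t := (tm_summable r (x + d)).sub (tm_summable r x)
  have hD : ‖Yr r (x + d) - Yr r x‖ ≥ 3 * B := by
    rw [Yr_diff]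
    rw [← hsum.sum_add_tsum_nat_add (M + 1), Finset.sum_range_succ]
    have e1 : ‖∑ m ∈ Finset.range M, t m‖ ≤ B * (1 / 2) := by
      refine (norm_sum_le _ _).trans ?_
      calc ∑ m ∈ Finset.range M, ‖t m‖ ≤ ∑ m ∈ Finset.range M, B * (1 / 2) ^ (M - m + 1) :=
            Finset.sum_le_sum (fun m hm => hlow m (Finset.mem_range.1 hm))
        _ = B * (1 / 2 - (1 / 2) ^ (M + 1)) := by rw [← Finset.mul_sum, half_sum]
        _ ≤ B * (1 / 2) := by
          have : (0:ℝ) < (1 / 2) ^ (M + 1) := by positivity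
          gcongr
          linarith
    have e2 : ‖∑' j : ℕ, t (j + (M + 1))‖ ≤ B * (1 / 2) := by
      have hs : HasSum (fun j : ℕ => B * (1 / 2 : ℝ) ^ (j + 2)) (B * (1 / 2)) := by
        have h17 := (hasSum_geometric_of_lt_one (r := (1/2 : ℝ)) (by norm_num) (by norm_num)).mul_left
          (B * (1 / 4))
        have h18 : B * (1 / 4) * (1 - 1 / 2)⁻¹ = B * (1 / 2) := by norm_num; ring
        rw [h18] at h17
        refine h17.congr_fun ?_ |> fun h => h
        intro j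
        rw [pow_add]; ring
      exact tsum_of_norm_bounded hs hhigh
    have e3 : ‖t M‖ ≤ ‖∑ m ∈ Finset.range M, t m + t M + ∑' j : ℕ, t (j + (M + 1))‖
        + ‖∑ m ∈ Finset.range M, t m‖ + ‖∑' j : ℕ, t (j + (M + 1))‖ := by
      have : t M = (∑ m ∈ Finset.range M, t m + t M + ∑' j : ℕ, t (j + (M + 1)))
        - ∑ m ∈ Finset.range M, t m - ∑' j : ℕ, t (j + (M + 1)) := by ring
      calc ‖t M‖ = ‖(∑ m ∈ Finset.range M, t m + t M + ∑' j : ℕ, t (j + (M + 1)))
        - ∑ m ∈ Finset.range M, t m - ∑' j : ℕ, t (j + (M + 1))‖ := by rw [← this]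
        _ ≤ ‖(∑ m ∈ Finset.range M, t m + t M + ∑' j : ℕ, t (j + (M + 1)))
        - ∑ m ∈ Finset.range M, t m‖ + ‖∑' j : ℕ, t (j + (M + 1))‖ := norm_sub_le _ _
        _ ≤ _ := by gcongr; exact norm_sub_le _ _
    linarith
  have hB4 : B ≤ ‖Yr r (x + d) - Yr r x‖ := by linarith
  have hfin : |d| ≤ (16 ^ 4 * 2097154 ^ 3) * B ^ 4 := by
    have h1 : (1048576 : ℝ) ^ k ≤ (qq (k + 1) : ℝ) := by exact_mod_cast qq_lower k
    have h2 : 1 ≤ (1 / 1048576 : ℝ) ^ k * qq (k + 1) := by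
      calc (1:ℝ) = (1 / 1048576) ^ k * 1048576 ^ k := by rw [← mul_pow]; norm_num
        _ ≤ _ := by gcongr
    have h3 : (1 / 2097154 : ℝ) ^ 3 ≤ ((qq (k + 1) : ℝ) * |d|) ^ 3 := by gcongr
    have h5 : B ^ 4 = (1 / 16) ^ 4 * ((1 / 1048576 : ℝ) ^ k * qq (k + 1))
        * ((qq (k + 1) : ℝ) * |d|) ^ 3 * |d| := by
      rw [hB]; unfold am
      have : ((1 / 32 : ℝ) ^ k) ^ 4 = (1 / 1048576) ^ k := by
        rw [← pow_mul, mul_comm k 4, pow_mul]; norm_num
      rw [← this]; ring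
    rw [h5]
    calc |d| = (16 ^ 4 * 2097154 ^ 3) * ((1 / 16) ^ 4 * 1 * (1 / 2097154 : ℝ) ^ 3 * |d|) := by ring
      _ ≤ _ := by gcongr
  refine hfin.trans ?_
  gcongr

lemma ee_om (i : ℕ) : ‖ee ((qq (i + 1) : ℝ) * om) - 1‖ ≤ 2 * Real.pi * om ^ (i + 1) := by
  have h1 : (qq (i + 1) : ℝ) * om = (qq i : ℝ) + (-1) ^ i * om ^ (i + 1) := by
    have := qq_om i
    linarith
  rw [h1, ee_add]
  have := ee_int (qq i : ℤ)
  rw [Int.cast_natCast] at this
  rw [this, one_mul]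
  refine (ee_sub_one_le _).trans (le_of_eq ?_)
  rw [abs_mul, abs_pow, abs_neg, abs_one, one_pow, one_mul, abs_of_pos (pow_pos om_pos _)]

lemma tm_dd (r m : ℕ) (x d : ℝ) :
    ‖(tm r m (x + d + om) - tm r m (x + d)) - (tm r m (x + om) - tm r m x)‖
      ≤ (1 / 16 * (1 / 32) ^ m) * (64 * |d|) := by
  set i := 5 * m + r with hi
  have h1 : (tm r m (x + d + om) - tm r m (x + d)) - (tm r m (x + om) - tm r m x)
      = (am i : ℂ) * ee ((qq (i + 1) : ℝ) * x) * (ee ((qq (i + 1) : ℝ) * d) - 1)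
        * (ee ((qq (i + 1) : ℝ) * om) - 1) := by
    unfold tm
    rw [← hi]
    simp only [mul_add, ee_add]
    ring
  rw [h1, norm_mul, norm_mul, norm_mul, ee_norm, mul_one, Complex.norm_real,
    Real.norm_of_nonneg (am_pos _).le]
  have h2 := ee_om i
  have h3 := ee_sub_one_le ((qq (i + 1) : ℝ) * d)
  rw [abs_mul, abs_of_nonneg (by positivity : (0:ℝ) ≤ (qq (i + 1) : ℝ))] at h3
  have h4 := am_pos i
  have h5 : am i ≤ 1 / 16 * (1 / 32) ^ m := am_le r m
  have h6 : (qq (i + 1) : ℝ) * om ^ (i + 1) ≤ 1 := qq_mul_om_le (i + 1)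
  have h7 := Real.pi_pos
  have h8 := Real.pi_le_four
  have h9 := pow_pos om_pos (i + 1)
  calc am i * ‖ee ((qq (i + 1) : ℝ) * d) - 1‖ * ‖ee ((qq (i + 1) : ℝ) * om) - 1‖
      ≤ am i * (2 * Real.pi * ((qq (i + 1) : ℝ) * |d|)) * (2 * Real.pi * om ^ (i + 1)) := by gcongr
    _ = am i * (4 * (Real.pi * Real.pi) * |d|) * ((qq (i + 1) : ℝ) * om ^ (i + 1)) := by ring
    _ ≤ am i * (4 * (Real.pi * Real.pi) * |d|) * 1 := by gcongr
    _ ≤ am i * (4 * (4 * 4) * |d|) * 1 := by gcongr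
    _ = am i * (64 * |d|) := by ring
    _ ≤ _ := by gcongr

lemma Yr_dd (r : ℕ) (x d : ℝ) :
    ‖(Yr r (x + d + om) - Yr r (x + d)) - (Yr r (x + om) - Yr r x)‖ ≤ 8 * |d| := by
  rw [Yr_diff, Yr_diff, ← Summable.tsum_sub]
  · have h := geo_sum.mul_right (64 * |d|)
    refine (tsum_of_norm_bounded h (fun m => tm_dd r m x d)).trans ?_
    have : (0:ℝ) ≤ |d| := abs_nonneg d
    norm_num
    nlinarith
  · exact (tm_summable r _).sub (tm_summable r _)
  · exact (tm_summable r _).sub (tm_summable r _)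

/-- real coordinates of the curve -/
noncomputable def Yc (c : Fin 10) (x : ℝ) : ℝ :=
  if c.val % 2 = 0 then (Yr (c.val / 2) x).re else (Yr (c.val / 2) x).im

lemma Yc_abs (c : Fin 10) (x : ℝ) : |Yc c x| ≤ 1 / 8 := by
  unfold Yc
  split_ifs
  · exact (Complex.abs_re_le_norm _).trans (Yr_norm _ _)
  · exact (Complex.abs_im_le_norm _).trans (Yr_norm _ _)

lemma Yc_periodic (c : Fin 10) (x : ℝ) : Yc c (x + 1) = Yc c x := by
  unfold Yc
  rw [Yr_periodic]

lemma Yc_continuous (c : Fin 10) : Continuous (Yc c) := by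
  unfold Yc
  split_ifs
  · exact Complex.continuous_re.comp (Yr_continuous _)
  · exact Complex.continuous_im.comp (Yr_continuous _)

/-- constant of the lower bound -/
noncomputable def CY : ℝ := 4 * (16 ^ 4 * 2097154 ^ 3)

lemma CY_pos : 0 < CY := by unfold CY; positivity

lemma norm_pow4_le (z : ℂ) : ‖z‖ ^ 4 ≤ 4 * |z.re| ^ 4 ∨ ‖z‖ ^ 4 ≤ 4 * |z.im| ^ 4 := by
  have h1 : ‖z‖ ^ 2 = z.re ^ 2 + z.im ^ 2 := by
    rw [← Complex.normSq_eq_norm_sq, Complex.normSq_apply]; ring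
  have h2 : |z.re| ^ 2 = z.re ^ 2 := sq_abs _
  have h3 : |z.im| ^ 2 = z.im ^ 2 := sq_abs _
  have e1 : ‖z‖ ^ 4 = (‖z‖ ^ 2) ^ 2 := by ring
  have e2 : |z.re| ^ 4 = (|z.re| ^ 2) ^ 2 := by ring
  have e3 : |z.im| ^ 4 = (|z.im| ^ 2) ^ 2 := by ring
  rw [e1, e2, e3, h1, h2, h3]
  have a1 := sq_nonneg z.re
  have a2 := sq_nonneg z.im
  rcases le_total (z.re ^ 2) (z.im ^ 2) with h | h
  · right; nlinarith
  · left; nlinarith

lemma Yc_lower {d : ℝ} (hd2 : |d| ≤ 1 / 2) (x : ℝ) :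
    ∃ c : Fin 10, |d| ≤ CY * |Yc c (x + d) - Yc c x| ^ 4 := by
  rcases eq_or_lt_of_le (abs_nonneg d) with h0 | h0
  · refine ⟨0, ?_⟩
    rw [← h0]
    have := CY_pos
    positivity
  obtain ⟨r, hr, h1⟩ := Yr_lower h0 hd2 x
  rcases norm_pow4_le (Yr r (x + d) - Yr r x) with h | h
  · refine ⟨⟨2 * r, by omega⟩, ?_⟩
    have e : Yc ⟨2 * r, by omega⟩ (x + d) - Yc ⟨2 * r, by omega⟩ x
        = (Yr r (x + d) - Yr r x).re := by
      unfold Yc
      simp only [show 2 * r % 2 = 0 by omega, show 2 * r / 2 = r by omega, if_true, Complex.sub_re]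
    rw [e]
    unfold CY
    nlinarith
  · refine ⟨⟨2 * r + 1, by omega⟩, ?_⟩
    have e : Yc ⟨2 * r + 1, by omega⟩ (x + d) - Yc ⟨2 * r + 1, by omega⟩ x
        = (Yr r (x + d) - Yr r x).im := by
      unfold Yc
      simp only [show ¬ ((2 * r + 1) % 2 = 0) by omega, show (2 * r + 1) / 2 = r by omega, if_false,
        Complex.sub_im]
    rw [e]
    unfold CY
    nlinarith

/-- one step increments -/
noncomputable def Dc (c : Fin 10) (x : ℝ) : ℝ := Yc c (x + om) - Yc c x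

lemma Dc_abs (c : Fin 10) (x : ℝ) : |Dc c x| ≤ 1 / 4 := by
  unfold Dc
  have h1 := abs_le.1 (Yc_abs c (x + om))
  have h2 := abs_le.1 (Yc_abs c x)
  rw [abs_le]
  constructor <;> linarith

lemma Dc_periodic (c : Fin 10) (x : ℝ) : Dc c (x + 1) = Dc c x := by
  unfold Dc
  rw [Yc_periodic, show x + 1 + om = x + om + 1 by ring, Yc_periodic]

lemma Dc_lip (c : Fin 10) (x d : ℝ) : |Dc c (x + d) - Dc c x| ≤ 8 * |d| := by
  have h := Yr_dd (c.val / 2) x d
  unfold Dc Yc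
  split_ifs
  · refine (le_of_eq ?_).trans ((Complex.abs_re_le_norm _).trans h)
    simp only [Complex.sub_re]
  · refine (le_of_eq ?_).trans ((Complex.abs_im_le_norm _).trans h)
    simp only [Complex.sub_im]

end Pool.Agent.Helper981
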