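import Pool.Agent.Helper981.Graph

set_option autoImplicit false
set_option linter.unusedSectionVars false

open Set Filter Topology

namespace Pool.Agent.Helper981

/-- the analytic data from which the Lagrangian is built -/
structure MData (n : ℕ) where
  X : (Fin n → ℝ) × ℝ → (Fin n → ℝ)
  V : (Fin n → ℝ) × ℝ → ℝ
  w : Fin n → (Fin n → ℝ) × ℝ → ℝ
  h : Fin n → ℝ
  a : ℝ
  k1 : Fin n → ℤ
  C : ℝ
  γ : ℝ → ℝ → (Fin n → ℝ)
  X_contDiff : ContDiff ℝ 2 X
  V_contDiff : ContDiff ℝ 2 V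
  w_contDiff : ∀ i, ContDiff ℝ 1 (w i)
  X_per : ∀ (k : Fin n → ℤ) (m : ℤ) (z : Fin n → ℝ) (t : ℝ), X (z + zc k, t + m) = X (z, t)
  V_per : ∀ (k : Fin n → ℤ) (m : ℤ) (z : Fin n → ℝ) (t : ℝ), V (z + zc k, t + m) = V (z, t)
  w_per : ∀ (i : Fin n) (k : Fin n → ℤ) (m : ℤ) (z : Fin n → ℝ) (t : ℝ),
    w i (z + zc k, t + m) = w i (z, t) + (k i - m * h i)
  V_nonneg : ∀ p, 0 ≤ V p
  C_nonneg : 0 ≤ C
  w_bound : ∀ i p, ‖fderiv ℝ (w i) p‖ ≤ C * V p
  γ_deriv : ∀ x t, HasDerivAt (γ x) (X (γ x t, t)) t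
  γ_V : ∀ x t, V (γ x t, t) = 0
  γ_cont : Continuous (fun p : ℝ × ℝ => γ p.1 p.2)
  γ_per1 : ∀ x t, γ (x + 1) t = γ x t + zc k1
  γ_per2 : ∀ x t, γ x (t + 1) = γ (x + a) t

lemma GD_est : ∃ C : ℝ, 0 ≤ C ∧ ∀ c : Fin 10, ∀ p ∈ SS1, ∀ q ∈ SS1,
    |GD c p - GD c q| ≤ C * ‖p - q‖ ^ 4 := by
  obtain ⟨C, hC0, hC⟩ := GG_est
  refine ⟨8 * C + 128, by positivity, ?_⟩
  rintro c p ⟨hp, hp1, hp2⟩ q ⟨hq, hq1, hq2⟩
  have hd : 0 ≤ ‖p - q‖ := norm_nonneg _
  have hG := hC p hp q hq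
  rcases lt_or_ge ‖p - q‖ (1 / 4) with h | h
  · have h0 : |p 0 - q 0| < 1 / 4 := by
      have := norm_le_pi_norm (p - q) 0
      simp only [Pi.sub_apply, Real.norm_eq_abs] at this
      linarith
    have hfl : ⌊p 0⌋ = ⌊q 0⌋ := by
      have h1 := abs_lt.1 h0
      rw [Int.fract] at hp1 hp2 hq1 hq2
      have b1 : ((⌊p 0⌋ : ℝ)) - ⌊q 0⌋ < 1 := by linarith
      have b2 : -1 < ((⌊p 0⌋ : ℝ)) - ⌊q 0⌋ := by linarith
      have b3 : ⌊p 0⌋ - ⌊q 0⌋ < 1 := by exact_mod_cast b1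
      have b4 : -1 < ⌊p 0⌋ - ⌊q 0⌋ := by exact_mod_cast b2
      omega
    have h2 := Dc_lip c (GG q + ⌊q 0⌋ * om) (GG p - GG q)
    have h3 : GG q + ⌊q 0⌋ * om + (GG p - GG q) = GG p + ⌊p 0⌋ * om := by rw [hfl]; ring
    rw [h3] at h2
    unfold GD
    refine h2.trans ?_
    have : 0 ≤ ‖p - q‖ ^ 4 := by positivity
    nlinarith
  · have h1 := abs_le.1 (Dc_abs c (GG p + ⌊p 0⌋ * om))
    have h2 := abs_le.1 (Dc_abs c (GG q + ⌊q 0⌋ * om))
    have h3 : |GD c p - GD c q| ≤ 1 / 2 := by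
      unfold GD
      rw [abs_le]
      constructor <;> linarith
    have h4 : (1 / 4 : ℝ) ^ 4 ≤ ‖p - q‖ ^ 4 := by gcongr
    have h5 : 0 ≤ C * ‖p - q‖ ^ 4 := by positivity
    norm_num at h4
    nlinarith

/-- space and time coordinates into the extended space -/
noncomputable def emb : (Fin 11 → ℝ) × ℝ →L[ℝ] (Fin 12 → ℝ) :=
  ContinuousLinearMap.pi (fun i => Fin.cases (ContinuousLinearMap.snd ℝ (Fin 11 → ℝ) ℝ)
    (fun j => (ContinuousLinearMap.proj j).comp (ContinuousLinearMap.fst ℝ (Fin 11 → ℝ) ℝ)) i)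

@[simp] lemma emb_zero (p : (Fin 11 → ℝ) × ℝ) : emb p 0 = p.2 := rfl

@[simp] lemma emb_succ (p : (Fin 11 → ℝ) × ℝ) (j : Fin 11) : emb p j.succ = p.1 j := rfl

@[simp] lemma emb_one (p : (Fin 11 → ℝ) × ℝ) : emb p 1 = p.1 0 := rfl

/-- integer shifts in the extended space -/
def kk (k : Fin 11 → ℤ) (m : ℤ) : Fin 12 → ℤ := Fin.cons m k

lemma emb_shift (k : Fin 11 → ℤ) (m : ℤ) (z : Fin 11 → ℝ) (t : ℝ) :
    emb (z + zc k, t + m) = emb (z, t) + zc (kk k m) := by
  ext i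
  refine Fin.cases ?_ (fun j => ?_) i
  · simp [kk]
  · simp [kk]

/-- extension of the increments -/
noncomputable def DW (c : Fin 10) : (Fin 12 → ℝ) → ℝ := WW SS1 (GD c)

lemma DW_contDiff (c : Fin 10) : ContDiff ℝ 2 (DW c) := by
  obtain ⟨C, hC0, hC⟩ := GD_est
  exact WW_contDiff hC0 (hC c)

lemma DW_shift (c : Fin 10) (k : Fin 12 → ℤ) (p : Fin 12 → ℝ) : DW c (p + zc k) = DW c p := by
  obtain ⟨C, hC0, hC⟩ := GD_est
  have := WW_shift hC0 (hC c) (k := k) (κ := 0) (fun p => SS1_shift k p)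
    (fun p => by rw [GD_shift]; ring) p
  unfold DW
  simpa using this

lemma DW_mem (c : Fin 10) {p : Fin 12 → ℝ} (hp : p ∈ SS1) : DW c p = GD c p := by
  obtain ⟨C, hC0, hC⟩ := GD_est
  exact WW_of_mem hC0 (hC c) hp

/-- the phase extension -/
noncomputable def PW : (Fin 12 → ℝ) → ℝ := WW SS GG

lemma PW_contDiff : ContDiff ℝ 2 PW := by
  obtain ⟨C, hC0, hC⟩ := GG_est
  exact WW_contDiff hC0 hC

lemma PW_shift (k : Fin 12 → ℤ) (p : Fin 12 → ℝ) : PW (p + zc k) = PW p + (k 1 - k 0 * om) := by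
  obtain ⟨C, hC0, hC⟩ := GG_est
  exact WW_shift hC0 hC (k := k) (fun p => SS_shift k p) (fun p => GG_shift k p) p

/-- integer periodic continuous functions are bounded -/
lemma bounded_of_periodic {m : ℕ} {F : Type*} [NormedAddCommGroup F] {f : (Fin m → ℝ) → F}
    (hf : Continuous f) (hp : ∀ (k : Fin m → ℤ) p, f (p + zc k) = f p) :
    ∃ B : ℝ, 0 ≤ B ∧ ∀ p, ‖f p‖ ≤ B := by
  have hK : IsCompact (Metric.closedBall (0 : Fin m → ℝ) 1) := isCompact_closedBall _ _
  obtain ⟨B, hB⟩ := (hK.image hf).isBounded.exists_norm_le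
  refine ⟨|B|, abs_nonneg _, fun p => ?_⟩
  set q : Fin m → ℝ := fun i => Int.fract (p i) with hq
  have h1 : p = q + zc (fun i => ⌊p i⌋) := by
    ext i
    simp [hq]
  have h2 : q ∈ Metric.closedBall (0 : Fin m → ℝ) 1 := by
    rw [mem_closedBall_zero_iff, pi_norm_le_iff_of_nonneg zero_le_one]
    intro i
    rw [Real.norm_eq_abs, abs_of_nonneg (Int.fract_nonneg _)]
    exact (Int.fract_lt_one _).le
  rw [h1, hp]
  exact (hB _ ⟨q, h2, rfl⟩).trans (le_abs_self B)

lemma PW_bound : ∃ K : ℝ, 0 ≤ K ∧ ∀ p, ‖fderiv ℝ PW p‖ ≤ K * VV SS p := by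
  obtain ⟨C, hC0, hC⟩ := GG_est
  obtain ⟨K, hK0, hK⟩ := WW_fderiv_bound hC0 hC
  have hper : ∀ (k : Fin 12 → ℤ) p, fderiv ℝ PW (p + zc k) = fderiv ℝ PW p := by
    intro k p
    rw [← fderiv_comp_add_right]
    have : (fun x => PW (x + zc k)) = fun x => PW x + (k 1 - k 0 * om) := by
      funext x; exact PW_shift k x
    rw [this, fderiv_add_const]
  obtain ⟨B, hB0, hB⟩ := bounded_of_periodic (PW_contDiff.continuous_fderiv (by norm_num)) hper
  refine ⟨512 * K + 64 * B, by positivity, fun p => ?_⟩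
  exact fderiv_le_VV (W' := fun p => fderiv ℝ PW p) hK0 hB0 hK hB p

/-- the regularised cubed distance is bounded below away from the fibre centre -/
lemma VV_far {p : Fin 12 → ℝ} (c : Fin 10) (h : 1 / 3 ≤ Int.fract (p c.succ.succ))
    (h' : Int.fract (p c.succ.succ) ≤ 2 / 3) : (1 / 8) ^ 5 ≤ VV SS p := by
  apply VV_lower
  intro s hs
  obtain ⟨k, hk⟩ := hs c
  have h1 := abs_le.1 (Zc_abs c (GG s) (s 0))
  have h2 := norm_le_pi_norm (p - s) c.succ.succ
  refine lt_of_lt_of_le ?_ h2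
  rw [Pi.sub_apply, Real.norm_eq_abs, hk]
  rw [Int.fract] at h h'
  rw [lt_abs]
  rcases le_or_gt k ⌊p c.succ.succ⌋ with hle | hgt
  · left
    have : (k : ℝ) ≤ ⌊p c.succ.succ⌋ := by exact_mod_cast hle
    norm_num
    linarith
  · right
    have : (⌊p c.succ.succ⌋ : ℝ) + 1 ≤ k := by exact_mod_cast hgt
    norm_num
    linarith

/-- the vector field -/
noncomputable def theX (p : (Fin 11 → ℝ) × ℝ) : Fin 11 → ℝ :=
  fun i => Fin.cases (al' p.2 * om) (fun c => al' p.2 * DW c (emb p)) i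

/-- the potential -/
noncomputable def theV (p : (Fin 11 → ℝ) × ℝ) : ℝ := VV SS (emb p)

/-- test functions -/
noncomputable def thew (i : Fin 11) : (Fin 11 → ℝ) × ℝ → ℝ :=
  Fin.cases (fun p => PW (emb p)) (fun c p => al (p.1 c.succ)) i

/-- orbits -/
noncomputable def theγ (x t : ℝ) : Fin 11 → ℝ := fun i => Fin.cases (x + al t * om) (fun c => Zc c x t) i

/-- rotation vector -/
noncomputable def theh : Fin 11 → ℝ := fun i => Fin.cases om (fun _ => 0) i

lemma theX_contDiff : ContDiff ℝ 2 theX := by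
  rw [contDiff_pi]
  intro i
  refine Fin.cases ?_ (fun c => ?_) i
  · show ContDiff ℝ 2 (fun p : (Fin 11 → ℝ) × ℝ => al' p.2 * om)
    exact ((al'_contDiff (n := 2)).comp contDiff_snd).mul contDiff_const
  · show ContDiff ℝ 2 (fun p : (Fin 11 → ℝ) × ℝ => al' p.2 * DW c (emb p))
    exact ((al'_contDiff (n := 2)).comp contDiff_snd).mul ((DW_contDiff c).comp emb.contDiff)

lemma theV_contDiff : ContDiff ℝ 2 theV := (VV_contDiff SS).comp emb.contDiff

lemma thew_contDiff (i : Fin 11) : ContDiff ℝ 1 (thew i) := by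
  refine Fin.cases ?_ (fun c => ?_) i
  · exact (PW_contDiff.of_le (by norm_num)).comp emb.contDiff
  · show ContDiff ℝ 1 (fun p : (Fin 11 → ℝ) × ℝ => al (p.1 c.succ))
    exact (al_contDiff (n := 1)).comp ((contDiff_apply ℝ ℝ c.succ).comp contDiff_fst)

lemma theX_per (k : Fin 11 → ℤ) (m : ℤ) (z : Fin 11 → ℝ) (t : ℝ) :
    theX (z + zc k, t + m) = theX (z, t) := by
  funext i
  unfold theX
  rw [emb_shift]
  refine Fin.cases ?_ (fun c => ?_) i
  · simp only [Fin.cases_zero, al'_periodic]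
  · simp only [Fin.cases_succ, al'_periodic, DW_shift]

lemma theV_per (k : Fin 11 → ℤ) (m : ℤ) (z : Fin 11 → ℝ) (t : ℝ) :
    theV (z + zc k, t + m) = theV (z, t) := by
  unfold theV
  rw [emb_shift, VV_periodic (fun p => SS_shift _ p)]

lemma thew_per (i : Fin 11) (k : Fin 11 → ℤ) (m : ℤ) (z : Fin 11 → ℝ) (t : ℝ) :
    thew i (z + zc k, t + m) = thew i (z, t) + (k i - m * theh i) := by
  refine Fin.cases ?_ (fun c => ?_) i
  · show PW (emb (z + zc k, t + m)) = PW (emb (z, t)) + (k 0 - m * om)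
    rw [emb_shift, PW_shift]
    rfl
  · show al ((z + zc k) c.succ) = al (z c.succ) + (k c.succ - m * 0)
    simp only [Pi.add_apply, zc_apply]
    rw [al_add_int]; ring

lemma emb_mem (x t : ℝ) : emb (theγ x t, t) ∈ SS := by
  intro c
  refine ⟨0, ?_⟩
  have h1 : GG (emb (theγ x t, t)) = x := by
    unfold GG
    rw [emb_one, emb_zero]
    show x + al t * om - al t * om = x
    ring
  rw [h1]
  show Zc c x t = Zc c x t + ((0 : ℤ) : ℝ)
  simp

lemma GG_emb (x t : ℝ) : GG (emb (theγ x t, t)) = x := by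
  unfold GG
  rw [emb_one, emb_zero]
  show x + al t * om - al t * om = x
  ring

lemma theγ_deriv (x t : ℝ) : HasDerivAt (theγ x) (theX (theγ x t, t)) t := by
  rw [hasDerivAt_pi]
  intro i
  refine Fin.cases ?_ (fun c => ?_) i
  · show HasDerivAt (fun t => x + al t * om) (al' t * om) t
    exact ((al_hasDerivAt t).mul_const om).const_add x
  · show HasDerivAt (fun t => Zc c x t) (al' t * DW c (emb (theγ x t, t))) t
    have h := Zc_hasDerivAt c x t
    by_cases hf : 1 / 4 ≤ Int.fract t ∧ Int.fract t ≤ 3 / 4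
    · have hm : emb (theγ x t, t) ∈ SS1 := ⟨emb_mem x t, hf.1, hf.2⟩
      rw [DW_mem c hm]
      have : GD c (emb (theγ x t, t)) = Dc c (x + ⌊t⌋ * om) := by
        unfold GD
        rw [GG_emb, emb_zero]
      rw [this]
      exact h
    · have h0 : al' t = 0 := by
        apply al'_zero
        rw [not_and_or, not_le, not_le] at hf
        rcases hf with hf | hf
        · left; linarith
        · right; linarith
      rw [h0, zero_mul] at h ⊢
      exact h

lemma Zc_continuous (c : Fin 10) : Continuous (fun p : ℝ × ℝ => Zc c p.1 p.2) := by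
  rw [continuous_iff_continuousAt]
  rintro ⟨x, t⟩
  have h1 : (fun p : ℝ × ℝ => Zc c p.1 p.2) =ᶠ[𝓝 (x, t)]
      fun p => Yc c (p.1 + ⌊t⌋ * om) + st (p.2 - ⌊t⌋) * Dc c (p.1 + ⌊t⌋ * om) := by
    have : (Prod.snd : ℝ × ℝ → ℝ) ⁻¹' (Ioo ((⌊t⌋ : ℝ) - 1 / 3) (⌊t⌋ + 4 / 3)) ∈ 𝓝 (x, t) :=
      continuous_snd.continuousAt.preimage_mem_nhds (window_nhds t)
    filter_upwards [this] with p hp
    exact Zc_window c p.1 hp
  refine ContinuousAt.congr ?_ h1.symm
  apply Continuous.continuousAt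
  have hst : Continuous st := (st_contDiff (n := 0)).continuous
  have hY := Yc_continuous c
  have hD : Continuous (Dc c) := by
    unfold Dc
    exact (hY.comp (continuous_id.add continuous_const)).sub hY
  have e1 : Continuous (fun p : ℝ × ℝ => p.1 + ⌊t⌋ * om) := by fun_prop
  have e2 : Continuous (fun p : ℝ × ℝ => p.2 - (⌊t⌋ : ℝ)) := by fun_prop
  exact (hY.comp e1).add ((hst.comp e2).mul (hD.comp e1))

lemma theγ_cont : Continuous (fun p : ℝ × ℝ => theγ p.1 p.2) := by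
  rw [continuous_pi_iff]
  intro i
  refine Fin.cases ?_ (fun c => ?_) i
  · show Continuous (fun p : ℝ × ℝ => p.1 + al p.2 * om)
    have h := (al_contDiff (n := 0)).continuous
    exact continuous_fst.add ((h.comp continuous_snd).mul continuous_const)
  · exact Zc_continuous c

lemma thew_bound : ∃ C : ℝ, 0 ≤ C ∧ ∀ i p, ‖fderiv ℝ (thew i) p‖ ≤ C * theV p := by
  obtain ⟨K, hK0, hK⟩ := PW_bound
  obtain ⟨CA, hCA0, hCA⟩ := exists_CA
  set L : Fin 10 → ((Fin 11 → ℝ) × ℝ →L[ℝ] ℝ) := fun c =>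
    (ContinuousLinearMap.proj c.succ).comp (ContinuousLinearMap.fst ℝ (Fin 11 → ℝ) ℝ) with hL
  refine ⟨K * ‖emb‖ + CA * 8 ^ 5 * ∑ c, ‖L c‖, by positivity, ?_⟩
  intro i p
  have hV0 : 0 ≤ theV p := VV_nonneg _ _
  have hS0 : 0 ≤ ∑ c, ‖L c‖ := Finset.sum_nonneg (fun _ _ => norm_nonneg _)
  refine Fin.cases ?_ (fun c => ?_) i
  · have h1 : fderiv ℝ (thew 0) p = (fderiv ℝ PW (emb p)).comp emb := by
      show fderiv ℝ (fun p => PW (emb p)) p = _
      exact fderiv_comp p (PW_contDiff.differentiable (by norm_num) _) emb.differentiableAt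
        |>.trans (by rw [emb.fderiv])
    rw [h1]
    refine (ContinuousLinearMap.opNorm_comp_le _ _).trans ?_
    have h2 := hK (emb p)
    calc ‖fderiv ℝ PW (emb p)‖ * ‖emb‖ ≤ (K * theV p) * ‖emb‖ := by gcongr; exact h2
      _ = K * ‖emb‖ * theV p := by ring
      _ ≤ _ := by
        have : 0 ≤ CA * 8 ^ 5 * (∑ c, ‖L c‖) * theV p := by positivity
        nlinarith
  · have h1 : HasFDerivAt (thew c.succ) ((al' (p.1 c.succ)) • L c) p := by
      show HasFDerivAt (fun p : (Fin 11 → ℝ) × ℝ => al (p.1 c.succ)) _ p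
      have h2 : HasFDerivAt (fun p : (Fin 11 → ℝ) × ℝ => p.1 c.succ) (L c) p :=
        (L c).hasFDerivAt
      exact (al_hasDerivAt (p.1 c.succ)).comp_hasFDerivAt p h2
    rw [h1.fderiv, norm_smul, Real.norm_eq_abs]
    by_cases h0 : al' (p.1 c.succ) = 0
    · rw [h0, abs_zero, zero_mul]; positivity
    · have h3 : ¬ (Int.fract (p.1 c.succ) < 1 / 3 ∨ 2 / 3 < Int.fract (p.1 c.succ)) :=
        fun hh => h0 (al'_zero hh)
      push Not at h3
      have h4 : (1 / 8) ^ 5 ≤ theV p := VV_far (p := emb p) c h3.1 h3.2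
      have h5 : ‖L c‖ ≤ ∑ c, ‖L c‖ :=
        Finset.single_le_sum (f := fun c => ‖L c‖) (fun _ _ => norm_nonneg _) (Finset.mem_univ c)
      have h6 : 1 ≤ 8 ^ 5 * theV p := by norm_num at h4 ⊢; linarith
      calc |al' (p.1 c.succ)| * ‖L c‖ ≤ CA * ∑ c, ‖L c‖ := by
            gcongr
            exact hCA _
        _ = CA * (∑ c, ‖L c‖) * 1 := by ring
        _ ≤ CA * (∑ c, ‖L c‖) * (8 ^ 5 * theV p) := by gcongr
        _ = CA * 8 ^ 5 * (∑ c, ‖L c‖) * theV p := by ring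
        _ ≤ _ := by
          have : 0 ≤ K * ‖emb‖ * theV p := by positivity
          nlinarith

theorem exists_MData : ∃ D : MData 11, D.h 0 = om ∧ ∀ i : Fin 10, D.h i.succ = 0 := by
  obtain ⟨C, hC0, hC⟩ := thew_bound
  refine ⟨{ X := theX, V := theV, w := thew, h := theh, a := om
            k1 := fun i => Fin.cases 1 (fun _ => 0) i
            C := C, γ := theγ
            X_contDiff := theX_contDiff
            V_contDiff := theV_contDiff
            w_contDiff := thew_contDiff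
            X_per := theX_per
            V_per := theV_per
            w_per := thew_per
            V_nonneg := fun p => VV_nonneg _ _
            C_nonneg := hC0
            w_bound := hC
            γ_deriv := theγ_deriv
            γ_V := fun x t => VV_zero (emb_mem x t)
            γ_cont := theγ_cont
            γ_per1 := ?_
            γ_per2 := ?_ }, rfl, fun i => rfl⟩
  · intro x t
    funext i
    refine Fin.cases ?_ (fun c => ?_) i
    · show x + 1 + al t * om = x + al t * om + ((1 : ℤ) : ℝ)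
      push_cast; ring
    · show Zc c (x + 1) t = Zc c x t + ((0 : ℤ) : ℝ)
      unfold Zc
      rw [show x + 1 + ⌊t⌋ * om = x + ⌊t⌋ * om + 1 by ring, Yc_periodic, Dc_periodic]
      simp
  · intro x t
    funext i
    refine Fin.cases ?_ (fun c => ?_) i
    · show x + al (t + 1) * om = x + om + al t * om
      have := al_add_int t 1
      push_cast at this
      rw [this]; ring
    · show Zc c x (t + 1) = Zc c (x + om) t
      unfold Zc
      rw [Int.floor_add_one, Int.fract_add_one]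
      rw [show x + ((⌊t⌋ + 1 : ℤ) : ℝ) * om = x + om + ⌊t⌋ * om by push_cast; ring]

end Pool.Agent.Helper981
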