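import Mathlib

set_option autoImplicit false

open MeasureTheory Filter Topology

namespace Pool.Agent.Helper981

/-- The torus `M = T^n = (ℝ/ℤ)^n`. -/
abbrev Torus (n : ℕ) : Type := Fin n → AddCircle (1 : ℝ)

/-- The extended phase space `TM × T`, with `TM = T^n × ℝ^n` and `T = ℝ/ℤ`. -/
abbrev Phase (n : ℕ) : Type := Torus n × (Fin n → ℝ) × AddCircle (1 : ℝ)

/-- The point of `TM × T` with position `x mod ℤ^n`, velocity `v` and time `t mod ℤ`. -/
def cov {n : ℕ} (x v : Fin n → ℝ) (t : ℝ) : Phase n :=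
  (fun i => (x i : AddCircle (1 : ℝ)), v, (t : AddCircle (1 : ℝ)))

/-- `γ : ℝ → ℝ^n` (the lift of a curve in `M`) is a solution on all of `ℝ` of the
Euler-Lagrange equation `d/dt (∂L/∂v) = ∂L/∂x`. -/
structure IsExtremal {n : ℕ} (L : Phase n → ℝ) (γ : ℝ → (Fin n → ℝ)) : Prop where
  contDiff : ContDiff ℝ 1 γ
  euler_lagrange : ∀ t : ℝ,
    HasDerivAt (fun s => fderiv ℝ (fun u => L (cov (γ s) u s)) (deriv γ s))
      (fderiv ℝ (fun y => L (cov y (deriv γ t) t)) (γ t)) t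

/-- Time-periodic Tonelli Lagrangians on `M = T^n`: of class `C^2`, fibre Hessian positive
definite, superlinear in the velocity, complete Euler-Lagrange flow. -/
structure IsTonelli {n : ℕ} (L : Phase n → ℝ) : Prop where
  contDiff : ContDiff ℝ 2
    (fun p : (Fin n → ℝ) × (Fin n → ℝ) × ℝ => L (cov p.1 p.2.1 p.2.2))
  hessian_pos : ∀ (x v : Fin n → ℝ) (t : ℝ) (w : Fin n → ℝ), w ≠ 0 →
    0 < fderiv ℝ (fun u => fderiv ℝ (fun u' => L (cov x u' t)) u) v w w
  superlinear : ∀ (x : Fin n → ℝ) (t : ℝ),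
    Tendsto (fun v : Fin n → ℝ => L (cov x v t) / ‖v‖) (cocompact (Fin n → ℝ)) atTop
  complete : ∀ (x v : Fin n → ℝ) (t : ℝ),
    ∃ γ : ℝ → (Fin n → ℝ), IsExtremal L γ ∧ γ t = x ∧ deriv γ t = v

/-- `Φ` is the Euler-Lagrange flow of `L` on `TM × T`. -/
def IsELFlow {n : ℕ} (L : Phase n → ℝ) (Φ : ℝ → Phase n → Phase n) : Prop :=
  ∀ γ : ℝ → (Fin n → ℝ), IsExtremal L γ → ∀ t s : ℝ,
    Φ s (cov (γ t) (deriv γ t) t) = cov (γ (t + s)) (deriv γ (t + s)) (t + s)

/-- The set `M_inv` of compactly supported Borel probability measures on `TM × T` that are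
invariant under the flow `Φ`. -/
structure IsInv {n : ℕ} (Φ : ℝ → Phase n → Phase n) (μ : Measure (Phase n)) : Prop where
  prob : IsProbabilityMeasure μ
  compact_support : ∃ R : ℝ, ∀ᵐ p ∂μ, ‖p.2.1‖ ≤ R
  invariant : ∀ s : ℝ, MeasurePreserving (Φ s) μ μ

/-- The homology class `[μ]` in `H_1(T^n, ℝ) = ℝ^n`: its `i`-th coordinate is the integral of
the closed 1-form `dx_i`. -/
noncomputable def homClass {n : ℕ} (μ : Measure (Phase n)) : Fin n → ℝ :=
  fun i => ∫ p, p.2.1 i ∂μ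

/-- Mather's function `β(h) = min {∫ L dμ : μ ∈ M_inv, [μ] = h}`, as an infimum in the
extended reals. -/
noncomputable def beta {n : ℕ} (L : Phase n → ℝ) (Φ : ℝ → Phase n → Phase n)
    (h : Fin n → ℝ) : EReal :=
  ⨅ (μ : Measure (Phase n)) (_ : IsInv Φ μ) (_ : homClass μ = h), ((∫ p, L p ∂μ : ℝ) : EReal)

/-- One-sided directional derivative `f'(x; v)` at `t ↓ 0` of the difference quotient. -/
noncomputable def dirDeriv {n : ℕ} (f : (Fin n → ℝ) → EReal) (x v : Fin n → ℝ) : EReal :=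
  liminf (fun t : ℝ => (f (x + t • v) - f x) / (t : EReal)) (𝓝[>] 0)

end Pool.Agent.Helper981
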