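import Pool.Agent.Helper981.Defs

set_option autoImplicit false

open Filter Topology

namespace Pool.Agent.Helper981

/-- The image in `T^n = ℝ^n/ℤ^n` of a vector of `ℝ^n`. -/
def toT {n : ℕ} (x : Fin n → ℝ) : Torus n := fun i => (x i : AddCircle (1 : ℝ))

lemma toT_add {n : ℕ} (x y : Fin n → ℝ) : toT (x + y) = toT x + toT y := rfl

lemma toT_zero {n : ℕ} : toT (0 : Fin n → ℝ) = 0 := rfl

/-- The Lie algebra of a subgroup `H` of `T^n`: the vectors `v` of `ℝ^n` whose one-parameter
subgroup `s ↦ s v mod ℤ^n` stays in `H`. -/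
def lieAlg {n : ℕ} (H : AddSubgroup (Torus n)) : Submodule ℝ (Fin n → ℝ) where
  carrier := {v | ∀ s : ℝ, toT (s • v) ∈ H}
  add_mem' := by
    intro v w hv hw s
    rw [smul_add, toT_add]
    exact H.add_mem (hv s) (hw s)
  zero_mem' := by
    intro s
    rw [smul_zero, toT_zero]
    exact H.zero_mem
  smul_mem' := by
    intro c v hv s
    rw [smul_smul]
    exact hv (s * c)

/-- The dimension of a closed subgroup of `T^n` (a finite union of translates of a subtorus),
that is, the dimension of its Lie algebra. -/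
noncomputable def dimT {n : ℕ} (H : AddSubgroup (Torus n)) : ℕ :=
  Module.finrank ℝ (lieAlg H)

/-- `I_Z(h)`: the dimension of the closure in `T^n` of the image of `ℤ h`. -/
noncomputable def IZ {n : ℕ} (h : Fin n → ℝ) : ℕ :=
  dimT (AddSubgroup.closure (Set.range fun m : ℤ => toT (m • h))).topologicalClosure

/-- `I_R(h)`: the dimension of the closure in `T^n` of the image of `ℝ h`. -/
noncomputable def IR {n : ℕ} (h : Fin n → ℝ) : ℕ :=
  dimT (AddSubgroup.closure (Set.range fun s : ℝ => toT (s • h))).topologicalClosure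

/-- `f` is differentiable in `k` directions at `x`: there is a `k`-dimensional linear subspace
on which `v ↦ f'(x; v)` is linear. -/
def DiffInDirections {n : ℕ} (f : (Fin n → ℝ) → EReal) (x : Fin n → ℝ) (k : ℕ) : Prop :=
  ∃ W : Submodule ℝ (Fin n → ℝ), Module.finrank ℝ W = k ∧
    ∃ ℓ : W →ₗ[ℝ] ℝ, ∀ v : W, dirDeriv f x (v : Fin n → ℝ) = ((ℓ v : ℝ) : EReal)

end Pool.Agent.Helper981
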