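import Pool.Agent.Helper981.Ser

set_option autoImplicit false
set_option linter.unusedSectionVars false

open Set Filter Topology

namespace Pool.Agent.Helper981

variable {ι : Type*} [Fintype ι] [DecidableEq ι]

/-- closed cube of level `j` with index `l`, twice enlarged -/
def Cub (j : ℕ) (l : ι → ℤ) : Set (ι → ℝ) := {s | ∀ i, |(2:ℝ) ^ j * s i - l i| ≤ 2}

/-- the cube meets the set -/
def Good (S : Set (ι → ℝ)) (j : ℕ) (l : ι → ℤ) : Prop := (S ∩ Cub j l).Nonempty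

lemma Cub_shift (j : ℕ) (l k : ι → ℤ) (s : ι → ℝ) :
    s + zc k ∈ Cub j (l + 2 ^ j * k) ↔ s ∈ Cub j l := by
  unfold Cub
  simp only [mem_ofPred_eq]
  apply forall_congr'
  intro i
  have : (2:ℝ) ^ j * (s + zc k) i - (((l + 2 ^ j * k) i : ℤ) : ℝ) = (2:ℝ) ^ j * s i - l i := by
    simp only [Pi.add_apply, zc_apply, Pi.mul_apply, Pi.pow_apply, Pi.ofNat_apply, Int.cast_add,
      Int.cast_mul, Int.cast_pow, Int.cast_ofNat]
    ring
  rw [this]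

lemma Good_shift {S : Set (ι → ℝ)} {k : ι → ℤ} (hS : ∀ p, p ∈ S ↔ p + zc k ∈ S) (j : ℕ)
    (l : ι → ℤ) : Good S j (l + 2 ^ j * k) ↔ Good S j l := by
  constructor
  · rintro ⟨s, hs1, hs2⟩
    refine ⟨s - zc k, ?_, ?_⟩
    · rw [hS]; simpa using hs1
    · rw [← Cub_shift j l k]; simpa using hs2
  · rintro ⟨s, hs1, hs2⟩
    exact ⟨s + zc k, (hS s).1 hs1, (Cub_shift j l k s).2 hs2⟩

lemma norm_le_of_abs {j : ℕ} {a : ℝ} (ha : 0 ≤ a) {x : ι → ℝ} (h : ∀ i, |(2:ℝ) ^ j * x i| ≤ a) :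
    ‖x‖ ≤ a * (1 / 2) ^ j := by
  rw [pi_norm_le_iff_of_nonneg (by positivity)]
  intro i
  have h1 := h i
  rw [abs_mul, abs_of_pos (by positivity : (0:ℝ) < 2 ^ j)] at h1
  rw [Real.norm_eq_abs]
  have h2 : (1/2:ℝ)^j * 2^j = 1 := by rw [← mul_pow]; norm_num
  calc |x i| = (1/2)^j * (2^j * |x i|) := by rw [← mul_assoc, h2, one_mul]
    _ ≤ (1/2)^j * a := by gcongr
    _ = a * (1/2)^j := by ring

/-- bad cube weights -/
noncomputable def vv (S : Set (ι → ℝ)) (j : ℕ) (l : ι → ℤ) : ℝ := by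
  classical exact if Good S j l then 0 else (1 / 8) ^ j

/-- regularised cubed distance -/
noncomputable def VV (S : Set (ι → ℝ)) (p : ι → ℝ) : ℝ := ∑' j : ℕ, Ser Bmp (vv S j) ((2:ℝ) ^ j • p)

lemma vv_nonneg (S : Set (ι → ℝ)) (j : ℕ) (l : ι → ℤ) : 0 ≤ vv S j l := by
  unfold vv; split_ifs <;> positivity

lemma vv_abs (S : Set (ι → ℝ)) (j : ℕ) (l : ι → ℤ) : |vv S j l| ≤ (1 / 8) ^ j := by
  unfold vv
  split_ifs
  · simp
  · rw [abs_of_nonneg (by positivity)]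

lemma pow_summable {k : ℕ} (hk : k ≤ 2) (a : ℝ) (ha : 8 ≤ a) (c : ℝ) :
    Summable (fun j : ℕ => ((2:ℝ) ^ j) ^ k * (c * (1 / a) ^ j)) := by
  have h : (fun j : ℕ => ((2:ℝ) ^ j) ^ k * (c * (1 / a) ^ j))
      = fun j : ℕ => c * ((2:ℝ) ^ k / a) ^ j := by
    funext j
    rw [div_pow, div_pow, one_pow, ← pow_mul, ← pow_mul, mul_comm k j]
    ring
  rw [h]
  apply Summable.mul_left
  apply summable_geometric_of_lt_one (by positivity)
  rw [div_lt_one (by linarith)]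
  have : (2:ℝ) ^ k ≤ 2 ^ 2 := pow_le_pow_right₀ (by norm_num) hk
  linarith

lemma VV_term_nonneg (S : Set (ι → ℝ)) (j : ℕ) (u : ι → ℝ) : 0 ≤ Ser Bmp (vv S j) u := by
  rw [Ser_eq_sum' Bmp_supp]
  exact Finset.sum_nonneg (fun l _ => mul_nonneg (vv_nonneg S j l) (Bmp_nonneg _))

lemma VV_nonneg (S : Set (ι → ℝ)) (p : ι → ℝ) : 0 ≤ VV S p :=
  tsum_nonneg (fun j => VV_term_nonneg S j _)

lemma VV_summable (S : Set (ι → ℝ)) (p : ι → ℝ) :
    Summable (fun j : ℕ => Ser Bmp (vv S j) ((2:ℝ) ^ j • p)) := by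
  obtain ⟨M, hM0, hM⟩ := exists_bound (ι := ι) Bmp_supp Bmp_contDiff
  have h1 := pow_summable (k := 0) (by norm_num) 8 le_rfl (4 ^ Fintype.card ι * M)
  apply Summable.of_norm_bounded h1
  intro j
  have := Ser_bound Bmp_supp Bmp_contDiff hM (vv_abs S j) ((2:ℝ) ^ j • p)
  rw [Real.norm_eq_abs]
  refine this.trans (le_of_eq ?_)
  ring

lemma VV_contDiff (S : Set (ι → ℝ)) : ContDiff ℝ 2 (VV S) := by
  obtain ⟨M, hM0, hM⟩ := exists_bound (ι := ι) Bmp_supp Bmp_contDiff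
  unfold VV
  apply contDiff_tsum (𝕜 := ℝ) (N := 2)
    (v := fun k j => ((2:ℝ) ^ j) ^ k * ((4 ^ Fintype.card ι * M) * (1 / 8) ^ j))
  · intro j
    exact Ser_scale_contDiff Bmp_supp Bmp_contDiff _ j
  · intro k hk
    exact pow_summable (by exact_mod_cast hk) 8 le_rfl _
  · intro k j p hk
    have := Ser_scale_iter_bound Bmp_supp Bmp_contDiff hM (vv_abs S j) (k := k)
      (by exact_mod_cast hk) j p
    refine this.trans (le_of_eq ?_)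
    ring

lemma VV_zero {S : Set (ι → ℝ)} {p : ι → ℝ} (hp : p ∈ S) : VV S p = 0 := by
  unfold VV
  convert tsum_zero with j
  rw [Ser_congr (d := fun _ => 0), Ser_const]
  intro l hl
  have h1 : Good S j l := by
    refine ⟨p, hp, ?_⟩
    intro i
    have := abs_lt_of_Bmp_ne hl i
    simp only [Pi.sub_apply, Pi.smul_apply, smul_eq_mul, zc_apply] at this
    linarith
  simp [vv, h1]

lemma VV_lower {S : Set (ι → ℝ)} {p : ι → ℝ} {J : ℕ} (h : ∀ s ∈ S, 3 * (1 / 2) ^ J < ‖p - s‖) :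
    (1 / 8) ^ J ≤ VV S p := by
  have h1 : Ser Bmp (vv S J) ((2:ℝ) ^ J • p) = (1 / 8) ^ J := by
    rw [Ser_congr (d := fun _ => (1 / 8) ^ J), Ser_const]
    intro l hl
    have h1 : ¬ Good S J l := by
      rintro ⟨s, hs1, hs2⟩
      have h2 : ‖p - s‖ ≤ 3 * (1 / 2) ^ J := by
        apply norm_le_of_abs (by norm_num)
        intro i
        have h3 := abs_lt.1 (abs_lt_of_Bmp_ne hl i)
        have h4 := abs_le.1 (hs2 i)
        simp only [Pi.sub_apply, Pi.smul_apply, smul_eq_mul, zc_apply] at h3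
        rw [abs_le, Pi.sub_apply]
        constructor <;> linarith
      exact absurd (h s hs1) (not_lt.2 h2)
    simp [vv, h1]
  rw [← h1]
  exact (VV_summable S p).le_tsum J (fun j _ => VV_term_nonneg S j _)

lemma smul_add_zc (j : ℕ) (p : ι → ℝ) (k : ι → ℤ) :
    (2:ℝ) ^ j • (p + zc k) = (2:ℝ) ^ j • p + zc (2 ^ j * k) := by
  ext i
  simp only [Pi.smul_apply, Pi.add_apply, zc_apply, smul_eq_mul, Pi.mul_apply, Pi.pow_apply,
    Pi.ofNat_apply, Int.cast_mul, Int.cast_pow, Int.cast_ofNat]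
  ring

lemma VV_periodic {S : Set (ι → ℝ)} {k : ι → ℤ} (hS : ∀ p, p ∈ S ↔ p + zc k ∈ S) (p : ι → ℝ) :
    VV S (p + zc k) = VV S p := by
  unfold VV
  apply tsum_congr
  intro j
  rw [smul_add_zc, Ser_shift]
  congr 1
  funext l
  have h := Good_shift hS j l
  unfold vv
  split_ifs <;> tauto

/-- level values of the function to be extended -/
noncomputable def gg (S : Set (ι → ℝ)) (G : (ι → ℝ) → ℝ) (j : ℕ) (l : ι → ℤ) : ℝ := by
  classical exact if Good S j l then sSup (G '' (S ∩ Cub j l)) else G ((1 / 2 : ℝ) ^ j • zc l)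

/-- increments -/
noncomputable def cc (S : Set (ι → ℝ)) (G : (ι → ℝ) → ℝ) (j : ℕ) (l l' : ι → ℤ) : ℝ := by
  classical exact if Good S j l ∧ Good S (j + 1) l' then gg S G (j + 1) l' - gg S G j l else 0

/-- level averages -/
noncomputable def AA (S : Set (ι → ℝ)) (G : (ι → ℝ) → ℝ) (j : ℕ) (p : ι → ℝ) : ℝ :=
  Ser Bmp (gg S G j) ((2:ℝ) ^ j • p)

/-- increments of level averages -/
noncomputable def DD (S : Set (ι → ℝ)) (G : (ι → ℝ) → ℝ) (j : ℕ) (p : ι → ℝ) : ℝ :=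
  ∑ lam ∈ Lam, Ser (Fl lam) (fun l => cc S G j l (2 * l + lam)) ((2:ℝ) ^ j • p)

/-- the extension -/
noncomputable def WW (S : Set (ι → ℝ)) (G : (ι → ℝ) → ℝ) (p : ι → ℝ) : ℝ :=
  AA S G 0 p + ∑' j : ℕ, DD S G j p

lemma sSup_sub_le {A B : Set ℝ} (hA : A.Nonempty) (hB : B.Nonempty) {e : ℝ}
    (h : ∀ a ∈ A, ∀ b ∈ B, |a - b| ≤ e) : |sSup A - sSup B| ≤ e := by
  obtain ⟨a0, ha0⟩ := hA
  obtain ⟨b0, hb0⟩ := hB
  have bA : BddAbove A := ⟨b0 + e, fun a ha => by linarith [(abs_le.1 (h a ha b0 hb0)).2]⟩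
  have bB : BddAbove B := ⟨a0 + e, fun b hb => by linarith [(abs_le.1 (h a0 ha0 b hb)).1]⟩
  rw [abs_le]
  constructor
  · have : sSup B ≤ sSup A + e := csSup_le ⟨b0, hb0⟩ (fun b hb => by
      linarith [(abs_le.1 (h a0 ha0 b hb)).1, le_csSup bA ha0])
    linarith
  · have : sSup A ≤ sSup B + e := csSup_le ⟨a0, ha0⟩ (fun a ha => by
      linarith [(abs_le.1 (h a ha b0 hb0)).2, le_csSup bB hb0])
    linarith

lemma Cub_close {j : ℕ} {l : ι → ℤ} {s s' : ι → ℝ} (hs : s ∈ Cub j l) (hs' : s' ∈ Cub j l) :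
    ‖s - s'‖ ≤ 4 * (1 / 2) ^ j := by
  apply norm_le_of_abs (by norm_num)
  intro i
  have h1 := abs_le.1 (hs i)
  have h2 := abs_le.1 (hs' i)
  rw [Pi.sub_apply, abs_le]
  constructor <;> linarith

lemma Cub_close_succ {j : ℕ} {l l' : ι → ℤ} {s s' : ι → ℝ} (hs : s ∈ Cub j l)
    (hs' : s' ∈ Cub (j + 1) l') (hl : ∀ i, |((l' i : ℝ)) - 2 * l i| ≤ 2) :
    ‖s' - s‖ ≤ 4 * (1 / 2) ^ j := by
  apply norm_le_of_abs (by norm_num)
  intro i
  have h1 := abs_le.1 (hs i)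
  have h2 := abs_le.1 (hs' i)
  have h3 := abs_le.1 (hl i)
  rw [pow_succ] at h2
  rw [Pi.sub_apply, abs_le]
  constructor <;> linarith

section quant

variable {S : Set (ι → ℝ)} {G : (ι → ℝ) → ℝ} {C : ℝ}

lemma pow4_bound (hC : 0 ≤ C) {x : ℝ} (hx : 0 ≤ x) {j : ℕ} (h : x ≤ 4 * (1 / 2) ^ j) :
    C * x ^ 4 ≤ 256 * C * (1 / 16) ^ j := by
  have h1 : x ^ 4 ≤ (4 * (1 / 2) ^ j) ^ 4 := pow_le_pow_left₀ hx h 4
  have h2 : ((4:ℝ) * (1 / 2) ^ j) ^ 4 = 256 * (1 / 16) ^ j := by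
    rw [mul_pow, ← pow_mul, mul_comm j 4, pow_mul]; norm_num
  calc C * x ^ 4 ≤ C * (256 * (1 / 16) ^ j) := by rw [← h2]; gcongr
    _ = _ := by ring

lemma cc_bound (hC : 0 ≤ C) (hG : ∀ p ∈ S, ∀ q ∈ S, |G p - G q| ≤ C * ‖p - q‖ ^ 4) (j : ℕ)
    (l lam : ι → ℤ) (hlam : lam ∈ (Lam : Finset (ι → ℤ))) :
    |cc S G j l (2 * l + lam)| ≤ 256 * C * (1 / 16) ^ j := by
  unfold cc
  split_ifs with h
  · obtain ⟨h1, h2⟩ := h
    unfold gg
    rw [if_pos h1, if_pos h2]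
    apply sSup_sub_le (h2.image G) (h1.image G)
    rintro _ ⟨s', ⟨hs'1, hs'2⟩, rfl⟩ _ ⟨s, ⟨hs1, hs2⟩, rfl⟩
    refine (hG s' hs'1 s hs1).trans (pow4_bound hC (norm_nonneg _) ?_)
    apply Cub_close_succ hs2 hs'2
    intro i
    simp only [Lam, Fintype.mem_piFinset, Finset.mem_Icc] at hlam
    have := hlam i
    have h3 : (((2 * l + lam) i : ℤ) : ℝ) - 2 * (l i : ℝ) = (lam i : ℝ) := by
      simp
    rw [h3, abs_le]
    constructor
    · exact_mod_cast this.1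
    · exact_mod_cast this.2
  · rw [abs_zero]; positivity

lemma gg_close (hC : 0 ≤ C) (hG : ∀ p ∈ S, ∀ q ∈ S, |G p - G q| ≤ C * ‖p - q‖ ^ 4) {j : ℕ}
    {l : ι → ℤ} {s : ι → ℝ} (hs : s ∈ S) (hs' : s ∈ Cub j l) :
    |gg S G j l - G s| ≤ 256 * C * (1 / 16) ^ j := by
  have hg : Good S j l := ⟨s, hs, hs'⟩
  unfold gg
  rw [if_pos hg]
  have : G s = sSup {G s} := by simp
  rw [this]
  apply sSup_sub_le (hg.image G) (Set.singleton_nonempty _)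
  rintro _ ⟨s', ⟨hs'1, hs'2⟩, rfl⟩ _ rfl
  exact (hG s' hs'1 s hs).trans (pow4_bound hC (norm_nonneg _) (Cub_close hs'2 hs'))

lemma mem_Cub_of_active {j J : ℕ} (hj : j ≤ J) {p s : ι → ℝ} (h : ‖p - s‖ ≤ (1 / 2) ^ J)
    {l : ι → ℤ} (hl : Bmp ((2:ℝ) ^ j • p - zc l) ≠ 0) : s ∈ Cub j l := by
  intro i
  have h1 := abs_lt.1 (abs_lt_of_Bmp_ne hl i)
  simp only [Pi.sub_apply, Pi.smul_apply, smul_eq_mul, zc_apply] at h1
  have h2 : |p i - s i| ≤ (1 / 2) ^ j := by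
    have h3 := norm_le_pi_norm (p - s) i
    rw [Real.norm_eq_abs, Pi.sub_apply] at h3
    exact h3.trans (h.trans (pow_le_pow_of_le_one (by norm_num) (by norm_num) hj))
  have h4 : |(2:ℝ) ^ j * (p i - s i)| ≤ 1 := by
    rw [abs_mul, abs_of_pos (by positivity : (0:ℝ) < 2 ^ j)]
    calc (2:ℝ) ^ j * |p i - s i| ≤ 2 ^ j * (1 / 2) ^ j := by gcongr
      _ = 1 := by rw [← mul_pow]; norm_num
  have h5 := abs_le.1 h4
  rw [abs_le]
  constructor <;> linarith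

lemma DD_eq {j J : ℕ} (hj : j + 1 ≤ J) {p s : ι → ℝ} (hs : s ∈ S) (h : ‖p - s‖ ≤ (1 / 2) ^ J) :
    DD S G j p = AA S G (j + 1) p - AA S G j p := by
  unfold DD AA
  rw [telescope (cc S G j) (gg S G j) (gg S G (j + 1))]
  · rw [smul_smul, ← pow_succ']
  · intro l hl l' hl'
    rw [smul_smul, ← pow_succ'] at hl'
    have h1 : Good S j l := ⟨s, hs, mem_Cub_of_active (by omega) h hl⟩
    have h2 : Good S (j + 1) l' := ⟨s, hs, mem_Cub_of_active hj h hl'⟩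
    unfold cc
    rw [if_pos ⟨h1, h2⟩]

lemma AA_eq {J : ℕ} {p s : ι → ℝ} (hs : s ∈ S) (h : ‖p - s‖ ≤ (1 / 2) ^ J) :
    AA S G 0 p + ∑ j ∈ Finset.range J, DD S G j p = AA S G J p := by
  have : ∀ j ∈ Finset.range J, DD S G j p = AA S G (j + 1) p - AA S G j p := by
    intro j hj
    exact DD_eq (Finset.mem_range.1 hj) hs h
  rw [Finset.sum_congr rfl this, Finset.sum_range_sub (fun j => AA S G j p)]
  ring

lemma exists_DD_bound (hC : 0 ≤ C) (hG : ∀ p ∈ S, ∀ q ∈ S, |G p - G q| ≤ C * ‖p - q‖ ^ 4) :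
    ∃ T : ℝ, 0 ≤ T ∧ ∀ k : ℕ, k ≤ 2 → ∀ (j : ℕ) (p : ι → ℝ),
      ‖iteratedFDeriv ℝ k (DD S G j) p‖ ≤ ((2:ℝ) ^ j) ^ k * (T * (1 / 16) ^ j) := by
  have h1 : ∀ lam : ι → ℤ, ∃ M : ℝ, 0 ≤ M ∧ ∀ k : ℕ, k ≤ 2 → ∀ u, ‖iteratedFDeriv ℝ k (Fl lam) u‖ ≤ M :=
    fun lam => exists_bound (Fl_supp lam) (Fl_contDiff lam)
  choose M hM0 hM using h1
  refine ⟨∑ lam ∈ (Lam : Finset (ι → ℤ)), 4 ^ Fintype.card ι * (256 * C * M lam),
    Finset.sum_nonneg (fun lam _ => by have := hM0 lam; positivity), ?_⟩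
  intro k hk j p
  have hk2 : ((k : ℕ) : WithTop ℕ∞) ≤ 2 := by exact_mod_cast hk
  unfold DD
  rw [iteratedFDeriv_sum (fun lam _ =>
    (Ser_scale_contDiff (Fl_supp lam) (Fl_contDiff lam) _ j).of_le hk2)]
  rw [Finset.sum_apply]
  refine (norm_sum_le _ _).trans ?_
  rw [Finset.sum_mul, Finset.mul_sum]
  apply Finset.sum_le_sum
  intro lam hlam
  refine (Ser_scale_iter_bound (Fl_supp lam) (Fl_contDiff lam) (hM lam)
    (fun l => cc_bound hC hG j l lam hlam) hk j p).trans (le_of_eq ?_)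
  ring

lemma DD_contDiff (j : ℕ) : ContDiff ℝ 2 (DD S G j) := by
  unfold DD
  apply ContDiff.sum
  intro lam _
  exact Ser_scale_contDiff (Fl_supp lam) (Fl_contDiff lam) _ j

lemma DD_abs {T : ℝ} (hT : ∀ k : ℕ, k ≤ 2 → ∀ (j : ℕ) (p : ι → ℝ),
      ‖iteratedFDeriv ℝ k (DD S G j) p‖ ≤ ((2:ℝ) ^ j) ^ k * (T * (1 / 16) ^ j)) (j : ℕ) (p : ι → ℝ) :
    |DD S G j p| ≤ T * (1 / 16) ^ j := by
  have := hT 0 (by norm_num) j p
  rw [norm_iteratedFDeriv_zero, Real.norm_eq_abs] at this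
  simpa using this

lemma DD_fderiv {T : ℝ} (hT : ∀ k : ℕ, k ≤ 2 → ∀ (j : ℕ) (p : ι → ℝ),
      ‖iteratedFDeriv ℝ k (DD S G j) p‖ ≤ ((2:ℝ) ^ j) ^ k * (T * (1 / 16) ^ j)) (j : ℕ) (p : ι → ℝ) :
    ‖fderiv ℝ (DD S G j) p‖ ≤ T * (1 / 8) ^ j := by
  have := hT 1 (by norm_num) j p
  rw [norm_iteratedFDeriv_one] at this
  refine this.trans (le_of_eq ?_)
  rw [pow_one, mul_left_comm, ← mul_pow]
  norm_num

lemma AA_contDiff (j : ℕ) : ContDiff ℝ 2 (AA S G j) := Ser_scale_contDiff Bmp_supp Bmp_contDiff _ j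

lemma DD_summable (hC : 0 ≤ C) (hG : ∀ p ∈ S, ∀ q ∈ S, |G p - G q| ≤ C * ‖p - q‖ ^ 4)
    (p : ι → ℝ) : Summable (fun j => DD S G j p) := by
  obtain ⟨T, hT0, hT⟩ := exists_DD_bound hC hG
  have h1 : Summable (fun j : ℕ => T * (1 / 16 : ℝ) ^ j) :=
    (summable_geometric_of_lt_one (by norm_num) (by norm_num)).mul_left T
  exact Summable.of_norm_bounded h1 (fun j => DD_abs hT j p)

lemma WW_contDiff (hC : 0 ≤ C) (hG : ∀ p ∈ S, ∀ q ∈ S, |G p - G q| ≤ C * ‖p - q‖ ^ 4) :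
    ContDiff ℝ 2 (WW S G) := by
  obtain ⟨T, hT0, hT⟩ := exists_DD_bound hC hG
  unfold WW
  apply (AA_contDiff 0).add
  apply contDiff_tsum (𝕜 := ℝ) (N := 2)
    (v := fun k j => ((2:ℝ) ^ j) ^ k * (T * (1 / 16) ^ j))
  · intro j
    exact DD_contDiff j
  · intro k hk
    exact pow_summable (by exact_mod_cast hk) 16 (by norm_num) _
  · intro k j p hk
    exact hT k (by exact_mod_cast hk) j p

lemma WW_eq (hC : 0 ≤ C) (hG : ∀ p ∈ S, ∀ q ∈ S, |G p - G q| ≤ C * ‖p - q‖ ^ 4) {J : ℕ}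
    {p s : ι → ℝ} (hs : s ∈ S) (h : ‖p - s‖ ≤ (1 / 2) ^ J) :
    WW S G p = AA S G J p + ∑' j : ℕ, DD S G (j + J) p := by
  unfold WW
  rw [← (DD_summable hC hG p).sum_add_tsum_nat_add J, ← add_assoc, AA_eq hs h]

/-- truncated coefficients near a point of the set -/
noncomputable def tc (S : Set (ι → ℝ)) (G : (ι → ℝ) → ℝ) (C : ℝ) (J : ℕ) (s : ι → ℝ)
    (l : ι → ℤ) : ℝ := by
  classical exact if |gg S G J l - G s| ≤ 256 * C * (1 / 16) ^ J then gg S G J l - G s else 0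

lemma tc_bound (hC : 0 ≤ C) (J : ℕ) (s : ι → ℝ) (l : ι → ℤ) :
    |tc S G C J s l| ≤ 256 * C * (1 / 16) ^ J := by
  unfold tc
  split_ifs with h
  · exact h
  · rw [abs_zero]; positivity

lemma AA_local (hC : 0 ≤ C) (hG : ∀ p ∈ S, ∀ q ∈ S, |G p - G q| ≤ C * ‖p - q‖ ^ 4) {J : ℕ}
    {p s : ι → ℝ} (hs : s ∈ S) (h : ‖p - s‖ ≤ (1 / 2) ^ J) :
    AA S G J p = G s + Ser Bmp (tc S G C J s) ((2:ℝ) ^ J • p) := by
  unfold AA
  rw [← Ser_const (G s) ((2:ℝ) ^ J • p), ← Ser_add Bmp_supp]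
  apply Ser_congr
  intro l hl
  have h1 := gg_close hC hG hs (mem_Cub_of_active le_rfl h hl)
  unfold tc
  rw [if_pos h1]
  ring

lemma WW_local (hC : 0 ≤ C) (hG : ∀ p ∈ S, ∀ q ∈ S, |G p - G q| ≤ C * ‖p - q‖ ^ 4) {J : ℕ}
    {p s : ι → ℝ} (hs : s ∈ S) (h : ‖p - s‖ ≤ (1 / 2) ^ J) :
    WW S G p = G s + Ser Bmp (tc S G C J s) ((2:ℝ) ^ J • p) + ∑' j : ℕ, DD S G (j + J) p := by
  rw [WW_eq hC hG hs h, AA_local hC hG hs h]

lemma tail_bound {E : Type*} [NormedAddCommGroup E] {f : ℕ → E} {T a : ℝ} (hT : 0 ≤ T)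
    (ha0 : 0 ≤ a) (ha : a ≤ 1 / 2) {J : ℕ} (hf : ∀ j, ‖f j‖ ≤ T * a ^ (j + J)) :
    ‖∑' j, f j‖ ≤ 2 * T * a ^ J := by
  have h1 : HasSum (fun j : ℕ => T * a ^ J * a ^ j) (T * a ^ J * (1 - a)⁻¹) :=
    (hasSum_geometric_of_lt_one ha0 (by linarith)).mul_left _
  have h2 : ‖∑' j, f j‖ ≤ T * a ^ J * (1 - a)⁻¹ := by
    apply tsum_of_norm_bounded h1
    intro j
    refine (hf j).trans (le_of_eq ?_)
    rw [pow_add]; ring
  refine h2.trans ?_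
  have h3 : (1 - a)⁻¹ ≤ 2 := by
    rw [inv_le_comm₀ (by linarith) (by norm_num)]; linarith
  calc T * a ^ J * (1 - a)⁻¹ ≤ T * a ^ J * 2 := by gcongr
    _ = _ := by ring

lemma WW_of_mem (hC : 0 ≤ C) (hG : ∀ p ∈ S, ∀ q ∈ S, |G p - G q| ≤ C * ‖p - q‖ ^ 4)
    {p : ι → ℝ} (hp : p ∈ S) : WW S G p = G p := by
  obtain ⟨T, hT0, hT⟩ := exists_DD_bound hC hG
  obtain ⟨M, hM0, hM⟩ := exists_bound (ι := ι) Bmp_supp Bmp_contDiff
  have h1 : ∀ J : ℕ, |WW S G p - G p| ≤ (4 ^ Fintype.card ι * (256 * C * M) + 2 * T) * (1 / 16) ^ J := by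
    intro J
    have h2 := WW_local hC hG (J := J) hp (p := p) (by rw [sub_self, norm_zero]; positivity)
    rw [h2, show G p + Ser Bmp (tc S G C J p) ((2:ℝ) ^ J • p) + ∑' j : ℕ, DD S G (j + J) p - G p
      = Ser Bmp (tc S G C J p) ((2:ℝ) ^ J • p) + ∑' j : ℕ, DD S G (j + J) p by ring]
    have h3 := Ser_bound Bmp_supp Bmp_contDiff hM (tc_bound (S := S) (G := G) hC J p)
      ((2:ℝ) ^ J • p)
    have h4 : ‖∑' j : ℕ, DD S G (j + J) p‖ ≤ 2 * T * (1 / 16) ^ J :=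
      tail_bound hT0 (by norm_num) (by norm_num) (fun j => DD_abs hT (j + J) p)
    rw [Real.norm_eq_abs] at h4
    calc _ ≤ |Ser Bmp (tc S G C J p) ((2:ℝ) ^ J • p)| + |∑' j : ℕ, DD S G (j + J) p| := abs_add_le _ _
      _ ≤ 4 ^ Fintype.card ι * (256 * C * (1 / 16) ^ J * M) + 2 * T * (1 / 16) ^ J := add_le_add h3 h4
      _ = _ := by ring
  have h5 : Tendsto (fun J : ℕ => (4 ^ Fintype.card ι * (256 * C * M) + 2 * T) * (1 / 16 : ℝ) ^ J)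
      atTop (𝓝 0) := by
    rw [← mul_zero (4 ^ Fintype.card ι * (256 * C * M) + 2 * T)]
    exact (tendsto_pow_atTop_nhds_zero_of_lt_one (by norm_num) (by norm_num)).const_mul _
  have h6 : |WW S G p - G p| ≤ 0 := ge_of_tendsto' h5 h1
  have h7 := abs_nonpos_iff.1 h6
  linarith

lemma WW_fderiv_bound (hC : 0 ≤ C) (hG : ∀ p ∈ S, ∀ q ∈ S, |G p - G q| ≤ C * ‖p - q‖ ^ 4) :
    ∃ K : ℝ, 0 ≤ K ∧ ∀ (J : ℕ) (p : ι → ℝ), (∃ s ∈ S, ‖p - s‖ < (1 / 2) ^ J) →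
      ‖fderiv ℝ (WW S G) p‖ ≤ K * (1 / 8) ^ J := by
  obtain ⟨T, hT0, hT⟩ := exists_DD_bound hC hG
  obtain ⟨M, hM0, hM⟩ := exists_bound (ι := ι) Bmp_supp Bmp_contDiff
  refine ⟨4 ^ Fintype.card ι * (256 * C * M) + 2 * T, by positivity, ?_⟩
  rintro J p ⟨s, hs, hps⟩
  have h1 : WW S G =ᶠ[𝓝 p] fun q => G s + Ser Bmp (tc S G C J s) ((2:ℝ) ^ J • q)
      + ∑' j : ℕ, DD S G (j + J) q := by
    have h2 : Metric.ball s ((1 / 2) ^ J) ∈ 𝓝 p :=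
      Metric.isOpen_ball.mem_nhds (by rwa [Metric.mem_ball, dist_eq_norm])
    filter_upwards [h2] with q hq
    rw [Metric.mem_ball, dist_eq_norm] at hq
    exact WW_local hC hG hs hq.le
  rw [h1.fderiv_eq]
  clear h1
  have hd1 : DifferentiableAt ℝ (fun q => Ser Bmp (tc S G C J s) ((2:ℝ) ^ J • q)) p :=
    ((Ser_scale_contDiff Bmp_supp Bmp_contDiff (tc S G C J s) J).differentiable (by norm_num)) p
  have hsum : Summable (fun j : ℕ => T * (1 / 8 : ℝ) ^ (j + J)) := by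
    have := (summable_geometric_of_lt_one (r := (1/8 : ℝ)) (by norm_num) (by norm_num)).mul_left
      (T * (1 / 8) ^ J)
    refine this.congr (fun j => ?_)
    rw [pow_add]; ring
  have hdiff : ∀ (j : ℕ), Differentiable ℝ (DD S G (j + J)) := fun j =>
    (DD_contDiff (j + J)).differentiable (by norm_num)
  have hbd : ∀ (j : ℕ) (q : ι → ℝ), ‖fderiv ℝ (DD S G (j + J)) q‖ ≤ T * (1 / 8) ^ (j + J) :=
    fun j q => DD_fderiv hT (j + J) q
  have hs0 : Summable (fun j => DD S G (j + J) p) :=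
    (summable_nat_add_iff (f := fun j => DD S G j p) J).2 (DD_summable hC hG p)
  have hd2 : HasFDerivAt (fun q => ∑' j : ℕ, DD S G (j + J) q)
      (∑' j : ℕ, fderiv ℝ (DD S G (j + J)) p) p :=
    hasFDerivAt_tsum hsum (fun j q => (hdiff j q).hasFDerivAt) hbd hs0 p
  have h3 : ‖fderiv ℝ (fun q => Ser Bmp (tc S G C J s) ((2:ℝ) ^ J • q)) p‖
      ≤ 4 ^ Fintype.card ι * (256 * C * M) * (1 / 8) ^ J := by
    have := Ser_scale_iter_bound Bmp_supp Bmp_contDiff hM (tc_bound (S := S) (G := G) hC J s)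
      (k := 1) (by norm_num) J p
    rw [norm_iteratedFDeriv_one] at this
    refine this.trans (le_of_eq ?_)
    have : (2:ℝ) ^ J * (1 / 16) ^ J = (1 / 8) ^ J := by rw [← mul_pow]; norm_num
    rw [pow_one, ← this]; ring
  have h4 : ‖∑' j : ℕ, fderiv ℝ (DD S G (j + J)) p‖ ≤ 2 * T * (1 / 8) ^ J :=
    tail_bound hT0 (by norm_num) (by norm_num) (fun j => hbd j p)
  have hd3 : HasFDerivAt (fun q => G s + Ser Bmp (tc S G C J s) ((2:ℝ) ^ J • q)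
      + ∑' j : ℕ, DD S G (j + J) q)
      (fderiv ℝ (fun q => Ser Bmp (tc S G C J s) ((2:ℝ) ^ J • q)) p
        + ∑' j : ℕ, fderiv ℝ (DD S G (j + J)) p) p :=
    (hd1.hasFDerivAt.const_add (G s)).add hd2
  rw [hd3.fderiv]
  refine (norm_add_le _ _).trans ?_
  calc _ ≤ _ := add_le_add h3 h4
    _ = _ := by ring

lemma gg_bdd (hC : 0 ≤ C) (hG : ∀ p ∈ S, ∀ q ∈ S, |G p - G q| ≤ C * ‖p - q‖ ^ 4) {j : ℕ}
    {l : ι → ℤ} (h : Good S j l) : BddAbove (G '' (S ∩ Cub j l)) := by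
  obtain ⟨s, hs, hs'⟩ := h
  refine ⟨G s + 256 * C * (1 / 16) ^ j, ?_⟩
  rintro _ ⟨s', ⟨h1, h2⟩, rfl⟩
  have := (hG s' h1 s hs).trans (pow4_bound hC (norm_nonneg _) (Cub_close h2 hs'))
  linarith [(abs_le.1 this).2]

lemma gg_shift (hC : 0 ≤ C) (hG : ∀ p ∈ S, ∀ q ∈ S, |G p - G q| ≤ C * ‖p - q‖ ^ 4)
    {k : ι → ℤ} {κ : ℝ} (hS : ∀ p, p ∈ S ↔ p + zc k ∈ S) (hk : ∀ p, G (p + zc k) = G p + κ)
    (j : ℕ) (l : ι → ℤ) : gg S G j (l + 2 ^ j * k) = gg S G j l + κ := by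
  by_cases h : Good S j l
  · have h' := (Good_shift hS j l).2 h
    unfold gg
    rw [if_pos h, if_pos h']
    have h1 : G '' (S ∩ Cub j (l + 2 ^ j * k)) = (OrderIso.addRight κ) '' (G '' (S ∩ Cub j l)) := by
      ext x
      constructor
      · rintro ⟨s, ⟨hs1, hs2⟩, rfl⟩
        refine ⟨G (s - zc k), ⟨s - zc k, ⟨?_, ?_⟩, rfl⟩, ?_⟩
        · rw [hS]; simpa using hs1
        · rw [← Cub_shift j l k]; simpa using hs2
        · have := hk (s - zc k)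
          rw [sub_add_cancel] at this
          rw [this]; rfl
      · rintro ⟨_, ⟨s, ⟨hs1, hs2⟩, rfl⟩, rfl⟩
        exact ⟨s + zc k, ⟨(hS s).1 hs1, (Cub_shift j l k s).2 hs2⟩, hk s⟩
    rw [h1, ← OrderIso.map_csSup' _ (h.image G) (gg_bdd hC hG h)]
    rfl
  · have h' := fun hh => h ((Good_shift hS j l).1 hh)
    unfold gg
    rw [if_neg h, if_neg h', ← hk]
    congr 1
    ext i
    simp only [Pi.smul_apply, Pi.add_apply, zc_apply, smul_eq_mul, Pi.mul_apply, Pi.pow_apply,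
      Pi.ofNat_apply, Int.cast_mul, Int.cast_pow, Int.cast_ofNat, Int.cast_add]
    have h2 : (1/2:ℝ)^j * 2^j = 1 := by rw [← mul_pow]; norm_num
    rw [mul_add, ← mul_assoc, h2, one_mul]

lemma cc_shift (hC : 0 ≤ C) (hG : ∀ p ∈ S, ∀ q ∈ S, |G p - G q| ≤ C * ‖p - q‖ ^ 4)
    {k : ι → ℤ} {κ : ℝ} (hS : ∀ p, p ∈ S ↔ p + zc k ∈ S) (hk : ∀ p, G (p + zc k) = G p + κ)
    (j : ℕ) (l l' : ι → ℤ) :
    cc S G j (l + 2 ^ j * k) (l' + 2 ^ (j + 1) * k) = cc S G j l l' := by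
  unfold cc
  rw [gg_shift hC hG hS hk, gg_shift hC hG hS hk]
  have h1 := Good_shift hS j l
  have h2 := Good_shift hS (j + 1) l'
  split_ifs <;> first | (exfalso; tauto) | ring

lemma AA_shift (hC : 0 ≤ C) (hG : ∀ p ∈ S, ∀ q ∈ S, |G p - G q| ≤ C * ‖p - q‖ ^ 4)
    {k : ι → ℤ} {κ : ℝ} (hS : ∀ p, p ∈ S ↔ p + zc k ∈ S) (hk : ∀ p, G (p + zc k) = G p + κ)
    (j : ℕ) (p : ι → ℝ) : AA S G j (p + zc k) = AA S G j p + κ := by
  unfold AA
  rw [smul_add_zc, Ser_shift]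
  have : (fun l => gg S G j (l + 2 ^ j * k)) = fun l => gg S G j l + κ := by
    funext l; exact gg_shift hC hG hS hk j l
  rw [this, Ser_add Bmp_supp, Ser_const]

lemma DD_shift (hC : 0 ≤ C) (hG : ∀ p ∈ S, ∀ q ∈ S, |G p - G q| ≤ C * ‖p - q‖ ^ 4)
    {k : ι → ℤ} {κ : ℝ} (hS : ∀ p, p ∈ S ↔ p + zc k ∈ S) (hk : ∀ p, G (p + zc k) = G p + κ)
    (j : ℕ) (p : ι → ℝ) : DD S G j (p + zc k) = DD S G j p := by
  unfold DD
  apply Finset.sum_congr rfl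
  intro lam _
  rw [smul_add_zc, Ser_shift]
  congr 1
  funext l
  rw [← cc_shift hC hG hS hk j l (2 * l + lam)]
  congr 1
  ring

lemma WW_shift (hC : 0 ≤ C) (hG : ∀ p ∈ S, ∀ q ∈ S, |G p - G q| ≤ C * ‖p - q‖ ^ 4)
    {k : ι → ℤ} {κ : ℝ} (hS : ∀ p, p ∈ S ↔ p + zc k ∈ S) (hk : ∀ p, G (p + zc k) = G p + κ)
    (p : ι → ℝ) : WW S G (p + zc k) = WW S G p + κ := by
  unfold WW
  rw [AA_shift hC hG hS hk]
  have : (fun j => DD S G j (p + zc k)) = fun j => DD S G j p := by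
    funext j; exact DD_shift hC hG hS hk j p
  rw [this]; ring

end quant

/-- The cubed distance majorises the gradient of the extension. -/
lemma fderiv_le_VV {S : Set (ι → ℝ)} {F : Type*} [NormedAddCommGroup F] {W' : (ι → ℝ) → F}
    {K B : ℝ} (hK : 0 ≤ K) (hB : 0 ≤ B)
    (h1 : ∀ (J : ℕ) (p : ι → ℝ), (∃ s ∈ S, ‖p - s‖ < (1 / 2) ^ J) → ‖W' p‖ ≤ K * (1 / 8) ^ J)
    (h2 : ∀ p, ‖W' p‖ ≤ B) (p : ι → ℝ) : ‖W' p‖ ≤ (512 * K + 64 * B) * VV S p := by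
  by_cases hall : ∀ J : ℕ, ∃ s ∈ S, ‖p - s‖ < (1 / 2) ^ J
  · have h3 : Tendsto (fun J : ℕ => K * (1 / 8 : ℝ) ^ J) atTop (𝓝 0) := by
      rw [← mul_zero K]
      exact (tendsto_pow_atTop_nhds_zero_of_lt_one (by norm_num) (by norm_num)).const_mul _
    have h4 : ‖W' p‖ ≤ 0 := ge_of_tendsto' h3 (fun J => h1 J p (hall J))
    have := VV_nonneg S p
    exact h4.trans (by positivity)
  · push Not at hall
    classical
    have hex : ∃ J : ℕ, ∀ s ∈ S, (1 / 2 : ℝ) ^ J ≤ ‖p - s‖ := hall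
    have hJ := Nat.find_spec hex
    set J := Nat.find hex with hJdef
    have hV : (1 / 8 : ℝ) ^ (J + 2) ≤ VV S p := by
      apply VV_lower
      intro s hs
      refine lt_of_lt_of_le ?_ (hJ s hs)
      rw [pow_add]
      have : (0:ℝ) < (1 / 2) ^ J := by positivity
      nlinarith
    have hV0 := VV_nonneg S p
    have h5 : (1 / 8 : ℝ) ^ J ≤ 64 * VV S p := by
      rw [pow_add] at hV
      nlinarith
    rcases Nat.eq_zero_or_pos J with h0 | hpos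
    · rw [h0, pow_zero] at h5
      have := h2 p
      nlinarith [mul_nonneg hK hV0, mul_nonneg hB hV0]
    · have h6 := Nat.find_min hex (m := J - 1) (by omega)
      push Not at h6
      have h7 := h1 (J - 1) p h6
      have h8 : (1 / 8 : ℝ) ^ (J - 1) = 8 * (1 / 8) ^ J := by
        obtain ⟨m, hm⟩ : ∃ m, J = m + 1 := ⟨J - 1, by omega⟩
        rw [hm, Nat.add_sub_cancel, pow_succ]; ring
      rw [h8] at h7
      nlinarith [mul_nonneg hK hV0, mul_nonneg hB hV0]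

end Pool.Agent.Helper981
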