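import Pool.Agent.Helper981.Ext
import Pool.Agent.Helper981.Curve

set_option autoImplicit false
set_option linter.unusedSectionVars false

open Set Filter Topology

namespace Pool.Agent.Helper981

/-- the time profile inside a period -/
noncomputable def st (t : ℝ) : ℝ := Real.smoothTransition (3 * t - 1)

lemma st_contDiff {n : ℕ∞} : ContDiff ℝ n st := by
  unfold st
  exact Real.smoothTransition.contDiff.comp ((contDiff_const.mul contDiff_id).sub contDiff_const)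

lemma st_zero {t : ℝ} (h : t ≤ 1 / 3) : st t = 0 :=
  Real.smoothTransition.zero_of_nonpos (by linarith)

lemma st_one {t : ℝ} (h : 2 / 3 ≤ t) : st t = 1 :=
  Real.smoothTransition.one_of_one_le (by linarith)

lemma st_nonneg (t : ℝ) : 0 ≤ st t := Real.smoothTransition.nonneg _

lemma st_le_one (t : ℝ) : st t ≤ 1 := Real.smoothTransition.le_one _

/-- smooth staircase -/
noncomputable def al (t : ℝ) : ℝ := ⌊t⌋ + st (Int.fract t)

lemma window_cases {t : ℝ} {m : ℤ} (h : t ∈ Ioo ((m : ℝ) - 1 / 3) (m + 4 / 3)) :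
    (⌊t⌋ = m) ∨ (⌊t⌋ = m - 1 ∧ 2 / 3 < t - ⌊t⌋ ∧ t - m < 0) ∨ (⌊t⌋ = m + 1 ∧ t - ⌊t⌋ < 1 / 3 ∧ 1 ≤ t - m) := by
  obtain ⟨h1, h2⟩ := h
  have a := Int.floor_le t
  have b := Int.lt_floor_add_one t
  have c1 : m - 1 ≤ ⌊t⌋ := by
    rw [Int.le_floor]; push_cast; linarith
  have c2 : ⌊t⌋ ≤ m + 1 := by
    have : ⌊t⌋ < m + 2 := by rw [Int.floor_lt]; push_cast; linarith
    omega
  have : ⌊t⌋ = m - 1 ∨ ⌊t⌋ = m ∨ ⌊t⌋ = m + 1 := by omega
  rcases this with h | h | h
  · right; left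
    refine ⟨h, ?_, ?_⟩
    · rw [h]; push_cast; linarith
    · rw [h] at b; push_cast at b; linarith
  · left; exact h
  · right; right
    refine ⟨h, ?_, ?_⟩
    · rw [h]; push_cast; linarith
    · rw [h] at a; push_cast at a; linarith

lemma al_window {t : ℝ} {m : ℤ} (h : t ∈ Ioo ((m : ℝ) - 1 / 3) (m + 4 / 3)) :
    al t = m + st (t - m) := by
  unfold al
  rw [Int.fract]
  rcases window_cases h with h1 | ⟨h1, h2, h3⟩ | ⟨h1, h2, h3⟩
  · rw [h1]
  · rw [st_one h2.le, st_zero (by linarith : t - (m : ℝ) ≤ 1 / 3), h1]; push_cast; ring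
  · rw [st_zero h2.le, st_one (by linarith : 2 / 3 ≤ t - (m : ℝ)), h1]; push_cast; ring

lemma mem_window (t : ℝ) : t ∈ Ioo ((⌊t⌋ : ℝ) - 1 / 3) (⌊t⌋ + 4 / 3) := by
  have a := Int.floor_le t
  have b := Int.lt_floor_add_one t
  constructor <;> linarith

lemma window_nhds (t : ℝ) : Ioo ((⌊t⌋ : ℝ) - 1 / 3) (⌊t⌋ + 4 / 3) ∈ 𝓝 t :=
  Ioo_mem_nhds (mem_window t).1 (mem_window t).2

lemma al_eventually (t : ℝ) : al =ᶠ[𝓝 t] fun s => (⌊t⌋ : ℝ) + st (s - ⌊t⌋) := by
  filter_upwards [window_nhds t] with s hs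
  exact al_window hs

lemma al_contDiff {n : ℕ∞} : ContDiff ℝ n al := by
  rw [contDiff_iff_contDiffAt]
  intro t
  refine ContDiffAt.congr_of_eventuallyEq ?_ (al_eventually t)
  exact (contDiff_const.add (st_contDiff.comp (contDiff_id.sub contDiff_const))).contDiffAt

lemma al_add_int (t : ℝ) (m : ℤ) : al (t + m) = al t + m := by
  unfold al
  rw [Int.floor_add_intCast, Int.fract_add_intCast]
  push_cast; ring

/-- derivative of the staircase -/
noncomputable def al' (t : ℝ) : ℝ := deriv al t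

lemma al_hasDerivAt (t : ℝ) : HasDerivAt al (al' t) t :=
  ((al_contDiff (n := 1)).differentiable (by norm_num) t).hasDerivAt

lemma al'_contDiff {n : ℕ∞} : ContDiff ℝ n al' := by
  have h : ContDiff ℝ (n + 1) al := by exact_mod_cast al_contDiff (n := n + 1)
  exact (contDiff_succ_iff_deriv.1 h).2.2

lemma al'_periodic (t : ℝ) (m : ℤ) : al' (t + m) = al' t := by
  unfold al'
  have h : (fun s => al (s + m)) = fun s => al s + m := by
    funext s; exact al_add_int s m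
  have h1 : deriv (fun s => al (s + m)) t = deriv al (t + m) := deriv_comp_add_const al (m : ℝ) t
  rw [← h1, h, deriv_add_const]

lemma exists_CA : ∃ CA : ℝ, 0 ≤ CA ∧ ∀ t, |al' t| ≤ CA := by
  have hp : Function.Periodic al' 1 := by
    intro t
    have := al'_periodic t 1
    simpa using this
  have hb := hp.isBounded_of_continuous one_ne_zero (al'_contDiff (n := 0)).continuous
  obtain ⟨C, hC⟩ := hb.exists_norm_le
  refine ⟨|C|, abs_nonneg _, fun t => ?_⟩
  have := hC (al' t) (mem_range_self t)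
  exact this.trans (le_abs_self C)

lemma al'_zero {t : ℝ} (h : Int.fract t < 1 / 3 ∨ 2 / 3 < Int.fract t) : al' t = 0 := by
  unfold al'
  rw [(al_eventually t).deriv_eq]
  rw [Int.fract] at h
  rcases h with h | h
  · have : (fun s => (⌊t⌋ : ℝ) + st (s - ⌊t⌋)) =ᶠ[𝓝 t] fun _ => (⌊t⌋ : ℝ) := by
      have : Iio ((⌊t⌋ : ℝ) + 1 / 3) ∈ 𝓝 t := Iio_mem_nhds (by linarith)
      filter_upwards [this] with s hs
      rw [st_zero (by have := mem_Iio.1 hs; linarith)]; simp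
    rw [this.deriv_eq, deriv_const]
  · have : (fun s => (⌊t⌋ : ℝ) + st (s - ⌊t⌋)) =ᶠ[𝓝 t] fun _ => (⌊t⌋ : ℝ) + 1 := by
      have : Ioi ((⌊t⌋ : ℝ) + 2 / 3) ∈ 𝓝 t := Ioi_mem_nhds (by linarith)
      filter_upwards [this] with s hs
      rw [st_one (by have := mem_Ioi.1 hs; linarith)]
    rw [this.deriv_eq, deriv_const]

lemma al_lip {CA : ℝ} (hCA : ∀ t, |al' t| ≤ CA) (t t' : ℝ) : |al t - al t'| ≤ CA * |t - t'| := by
  have := Convex.norm_image_sub_le_of_norm_hasDerivWithin_le (f := al) (f' := al') (s := univ)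
    (C := CA) (x := t') (y := t) (fun x _ => (al_hasDerivAt x).hasDerivWithinAt)
    (fun x _ => hCA x) convex_univ (mem_univ _) (mem_univ _)
  simpa using this

/-- orbits in the fibre -/
noncomputable def Zc (c : Fin 10) (x t : ℝ) : ℝ :=
  Yc c (x + ⌊t⌋ * om) + st (Int.fract t) * Dc c (x + ⌊t⌋ * om)

lemma Zc_window (c : Fin 10) (x : ℝ) {t : ℝ} {m : ℤ}
    (h : t ∈ Ioo ((m : ℝ) - 1 / 3) (m + 4 / 3)) :
    Zc c x t = Yc c (x + m * om) + st (t - m) * Dc c (x + m * om) := by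
  unfold Zc
  rw [Int.fract]
  rcases window_cases h with h1 | ⟨h1, h2, h3⟩ | ⟨h1, h2, h3⟩
  · rw [h1]
  · rw [st_one h2.le, st_zero (by linarith : t - (m : ℝ) ≤ 1 / 3), h1]
    unfold Dc
    have : x + ((m - 1 : ℤ) : ℝ) * om + om = x + m * om := by push_cast; ring
    rw [this]; ring
  · rw [st_zero h2.le, st_one (by linarith : 2 / 3 ≤ t - (m : ℝ)), h1]
    unfold Dc
    have : x + ((m + 1 : ℤ) : ℝ) * om = x + m * om + om := by push_cast; ring
    rw [this]; ring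

lemma st_hasDerivAt (t : ℝ) : HasDerivAt (fun s => st (s - ⌊t⌋)) (al' t) t := by
  have h := (al_hasDerivAt t).congr_of_eventuallyEq (al_eventually t).symm
  have h2 := h.sub_const (⌊t⌋ : ℝ)
  simpa using h2

lemma Zc_hasDerivAt (c : Fin 10) (x t : ℝ) :
    HasDerivAt (Zc c x) (al' t * Dc c (x + ⌊t⌋ * om)) t := by
  have h1 : Zc c x =ᶠ[𝓝 t] fun s => Yc c (x + ⌊t⌋ * om) + st (s - ⌊t⌋) * Dc c (x + ⌊t⌋ * om) := by
    filter_upwards [window_nhds t] with s hs
    exact Zc_window c x hs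
  refine HasDerivAt.congr_of_eventuallyEq ?_ h1
  exact ((st_hasDerivAt t).mul_const _).const_add _

lemma Zc_abs (c : Fin 10) (x t : ℝ) : |Zc c x t| ≤ 1 / 8 := by
  have h1 : Zc c x t = (1 - st (Int.fract t)) * Yc c (x + ⌊t⌋ * om)
      + st (Int.fract t) * Yc c (x + ⌊t⌋ * om + om) := by
    unfold Zc Dc; ring
  have h2 := abs_le.1 (Yc_abs c (x + ⌊t⌋ * om))
  have h3 := abs_le.1 (Yc_abs c (x + ⌊t⌋ * om + om))
  have h4 := st_nonneg (Int.fract t)
  have h5 := st_le_one (Int.fract t)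
  rw [h1, abs_le]
  constructor <;> nlinarith

lemma Zc_lip {CA : ℝ} (hCA : ∀ t, |al' t| ≤ CA) (c : Fin 10) (x t t' : ℝ) :
    |Zc c x t - Zc c x t'| ≤ CA * |t - t'| := by
  have := Convex.norm_image_sub_le_of_norm_hasDerivWithin_le (f := Zc c x)
    (f' := fun s => al' s * Dc c (x + ⌊s⌋ * om)) (s := univ)
    (C := CA) (x := t') (y := t) (fun s _ => (Zc_hasDerivAt c x s).hasDerivWithinAt)
    (fun s _ => ?_) convex_univ (mem_univ _) (mem_univ _)
  · simpa using this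
  · rw [Real.norm_eq_abs, abs_mul]
    have h1 := hCA s
    have h2 := Dc_abs c (x + ⌊s⌋ * om)
    have h3 := abs_nonneg (al' s)
    have h4 := abs_nonneg (Dc c (x + ⌊s⌋ * om))
    nlinarith

/-- the phase function -/
noncomputable def GG (p : Fin 12 → ℝ) : ℝ := p 1 - al (p 0) * om

/-- the invariant set in the extended space -/
def SS : Set (Fin 12 → ℝ) := {p | ∀ c : Fin 10, ∃ k : ℤ, p c.succ.succ = Zc c (GG p) (p 0) + k}

/-- the part of the set away from integer times -/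
def SS1 : Set (Fin 12 → ℝ) := {p | p ∈ SS ∧ 1 / 4 ≤ Int.fract (p 0) ∧ Int.fract (p 0) ≤ 3 / 4}

/-- the increments as a function on the extended space -/
noncomputable def GD (c : Fin 10) (p : Fin 12 → ℝ) : ℝ := Dc c (GG p + ⌊p 0⌋ * om)

lemma GG_shift (k : Fin 12 → ℤ) (p : Fin 12 → ℝ) : GG (p + zc k) = GG p + (k 1 - k 0 * om) := by
  unfold GG
  simp only [Pi.add_apply, zc_apply]
  rw [al_add_int]; ring

lemma Yc_int (c : Fin 10) (x : ℝ) (k : ℤ) : Yc c (x + k) = Yc c x := by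
  have h : Function.Periodic (Yc c) 1 := fun x => Yc_periodic c x
  have := h.int_mul k x
  simpa using this

lemma Dc_int (c : Fin 10) (x : ℝ) (k : ℤ) : Dc c (x + k) = Dc c x := by
  have h : Function.Periodic (Dc c) 1 := fun x => Dc_periodic c x
  have := h.int_mul k x
  simpa using this

lemma arg_shift (k : Fin 12 → ℤ) (p : Fin 12 → ℝ) :
    GG (p + zc k) + (⌊(p + zc k) 0⌋ : ℝ) * om = GG p + ⌊p 0⌋ * om + (k 1 : ℤ) := by
  rw [GG_shift]
  simp only [Pi.add_apply, zc_apply]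
  rw [Int.floor_add_intCast]
  push_cast; ring

lemma fract_shift (k : Fin 12 → ℤ) (p : Fin 12 → ℝ) : Int.fract ((p + zc k) 0) = Int.fract (p 0) := by
  simp only [Pi.add_apply, zc_apply]
  exact Int.fract_add_intCast _ _

lemma SS_shift (k : Fin 12 → ℤ) (p : Fin 12 → ℝ) : p ∈ SS ↔ p + zc k ∈ SS := by
  unfold SS
  simp only [mem_ofPred_eq]
  apply forall_congr'
  intro c
  have h1 : Zc c (GG (p + zc k)) ((p + zc k) 0) = Zc c (GG p) (p 0) := by
    unfold Zc
    rw [arg_shift, fract_shift, Yc_int, Dc_int]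
  rw [h1]
  constructor
  · rintro ⟨m, hm⟩
    refine ⟨m + k c.succ.succ, ?_⟩
    simp only [Pi.add_apply, zc_apply, hm]
    push_cast; ring
  · rintro ⟨m, hm⟩
    refine ⟨m - k c.succ.succ, ?_⟩
    simp only [Pi.add_apply, zc_apply] at hm
    push_cast; linarith

lemma SS1_shift (k : Fin 12 → ℤ) (p : Fin 12 → ℝ) : p ∈ SS1 ↔ p + zc k ∈ SS1 := by
  unfold SS1
  simp only [mem_ofPred_eq]
  rw [← SS_shift, fract_shift]

lemma GD_shift (c : Fin 10) (k : Fin 12 → ℤ) (p : Fin 12 → ℝ) : GD c (p + zc k) = GD c p := by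
  unfold GD
  rw [arg_shift, Dc_int]

/-- main snowflake estimate -/
lemma GG_est : ∃ C : ℝ, 0 ≤ C ∧ ∀ p ∈ SS, ∀ q ∈ SS, |GG p - GG q| ≤ C * ‖p - q‖ ^ 4 := by
  obtain ⟨CA, hCA0, hCA⟩ := exists_CA
  set C5 : ℝ := 1 + CA with hC5
  set C6 : ℝ := 1 + CA + 8 * C5 with hC6
  set d0 : ℝ := 1 / (4 * C5) with hd0
  have hC5pos : 1 ≤ C5 := by linarith
  have hd0pos : 0 < d0 := by positivity
  have hCY := CY_pos
  refine ⟨CY * C6 ^ 4 + C5 / d0 ^ 3, by positivity, ?_⟩
  intro p hp q hq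
  set d := ‖p - q‖ with hd
  have hdn : 0 ≤ d := norm_nonneg _
  have hcoord : ∀ i, |p i - q i| ≤ d := by
    intro i
    have := norm_le_pi_norm (p - q) i
    simpa using this
  have hal := al_lip hCA (p 0) (q 0)
  have h0 := hcoord 0
  have h1 := hcoord 1
  have homp := om_pos
  have hom1 := om_lt_one
  have hδ : |GG p - GG q| ≤ C5 * d := by
    have e : GG p - GG q = (p 1 - q 1) - (al (p 0) - al (q 0)) * om := by unfold GG; ring
    have h2 : |(al (p 0) - al (q 0)) * om| ≤ CA * d := by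
      rw [abs_mul, abs_of_pos homp]
      calc |al (p 0) - al (q 0)| * om ≤ |al (p 0) - al (q 0)| * 1 := by gcongr
        _ ≤ CA * |p 0 - q 0| * 1 := by gcongr
        _ ≤ CA * d * 1 := by gcongr
        _ = CA * d := by ring
    rw [e]
    calc _ ≤ |p 1 - q 1| + |(al (p 0) - al (q 0)) * om| := abs_sub _ _
      _ ≤ d + CA * d := add_le_add h1 h2
      _ = C5 * d := by rw [hC5]; ring
  rcases le_or_gt d d0 with hcase | hcase
  · -- close points
    have hd4 : C5 * d ≤ 1 / 4 := by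
      calc C5 * d ≤ C5 * d0 := by gcongr
        _ = 1 / 4 := by rw [hd0]; field_simp
    have hd14 : d ≤ 1 / 4 := by nlinarith
    obtain ⟨c, hc⟩ := Yc_lower (d := GG p - GG q) (by linarith) (GG q + ⌊p 0⌋ * om)
    obtain ⟨k, hk⟩ := hp c
    obtain ⟨k', hk'⟩ := hq c
    have hcc := hcoord c.succ.succ
    rw [hk, hk'] at hcc
    have hkk : k = k' := by
      have a1 := abs_le.1 (Zc_abs c (GG p) (p 0))
      have a2 := abs_le.1 (Zc_abs c (GG q) (q 0))
      have a3 := abs_le.1 hcc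
      have b1 : ((k : ℝ)) - k' < 1 := by linarith
      have b2 : -1 < ((k : ℝ)) - k' := by linarith
      have b3 : k - k' < 1 := by exact_mod_cast b1
      have b4 : -1 < k - k' := by exact_mod_cast b2
      omega
    rw [hkk] at hcc
    have hzz : |Zc c (GG p) (p 0) - Zc c (GG q) (q 0)| ≤ d := by
      convert hcc using 2; ring
    have hzl := Zc_lip hCA c (GG q) (p 0) (q 0)
    have hDl := Dc_lip c (GG q + ⌊p 0⌋ * om) (GG p - GG q)
    have harg : GG q + ⌊p 0⌋ * om + (GG p - GG q) = GG p + ⌊p 0⌋ * om := by ring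
    rw [harg] at hDl hc
    have hst0 := st_nonneg (Int.fract (p 0))
    have hst1 := st_le_one (Int.fract (p 0))
    have hmain : |Yc c (GG p + ⌊p 0⌋ * om) - Yc c (GG q + ⌊p 0⌋ * om)| ≤ C6 * d := by
      have e : Yc c (GG p + ⌊p 0⌋ * om) - Yc c (GG q + ⌊p 0⌋ * om)
          = (Zc c (GG p) (p 0) - Zc c (GG q) (q 0)) - (Zc c (GG q) (p 0) - Zc c (GG q) (q 0))
            - st (Int.fract (p 0)) * (Dc c (GG p + ⌊p 0⌋ * om) - Dc c (GG q + ⌊p 0⌋ * om)) := by
        unfold Zc; ring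
      rw [e]
      have e2 : |st (Int.fract (p 0)) * (Dc c (GG p + ⌊p 0⌋ * om) - Dc c (GG q + ⌊p 0⌋ * om))|
          ≤ 8 * (C5 * d) := by
        rw [abs_mul, abs_of_nonneg hst0]
        calc _ ≤ 1 * (8 * |GG p - GG q|) := by gcongr
          _ ≤ 8 * (C5 * d) := by linarith
      calc _ ≤ |Zc c (GG p) (p 0) - Zc c (GG q) (q 0)| + |Zc c (GG q) (p 0) - Zc c (GG q) (q 0)|
            + |st (Int.fract (p 0)) * (Dc c (GG p + ⌊p 0⌋ * om) - Dc c (GG q + ⌊p 0⌋ * om))| :=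
            (abs_sub _ _).trans (add_le_add (abs_sub _ _) le_rfl)
        _ ≤ d + CA * d + 8 * (C5 * d) := by
            have : CA * |p 0 - q 0| ≤ CA * d := by gcongr
            linarith
        _ = C6 * d := by rw [hC6]; ring
    calc |GG p - GG q| ≤ CY * |Yc c (GG p + ⌊p 0⌋ * om) - Yc c (GG q + ⌊p 0⌋ * om)| ^ 4 := hc
      _ ≤ CY * (C6 * d) ^ 4 := by gcongr
      _ = CY * C6 ^ 4 * d ^ 4 := by ring
      _ ≤ (CY * C6 ^ 4 + C5 / d0 ^ 3) * d ^ 4 := by
        have : 0 ≤ C5 / d0 ^ 3 * d ^ 4 := by positivity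
        nlinarith
  · have h3 : 1 ≤ (d / d0) ^ 3 := one_le_pow₀ ((one_le_div hd0pos).2 hcase.le)
    calc |GG p - GG q| ≤ C5 * d := hδ
      _ = C5 * d * 1 := by ring
      _ ≤ C5 * d * (d / d0) ^ 3 := by gcongr
      _ = C5 / d0 ^ 3 * d ^ 4 := by rw [div_pow]; ring
      _ ≤ (CY * C6 ^ 4 + C5 / d0 ^ 3) * d ^ 4 := by
        have : 0 ≤ CY * C6 ^ 4 * d ^ 4 := by positivity
        nlinarith

end Pool.Agent.Helper981
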