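import Pool.Agent.Helper981.Main8
import Pool.Agent.Helper981.Defs2

set_option autoImplicit false

open Filter Topology

namespace Pool.Agent.Helper981

/-- closed subgroup where all coordinates but the first vanish -/
def KK : AddSubgroup (Torus 11) where
  carrier := {θ | ∀ i : Fin 10, θ i.succ = 0}
  add_mem' := by
    intro a b ha hb i
    rw [Pi.add_apply, ha i, hb i, add_zero]
  zero_mem' := fun i => rfl
  neg_mem' := by
    intro a ha i
    rw [Pi.neg_apply, ha i, neg_zero]

lemma KK_closed : IsClosed (KK : Set (Torus 11)) := by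
  have : (KK : Set (Torus 11)) = ⋂ i : Fin 10, {θ | θ i.succ = 0} := by
    ext θ
    simp [KK]
  rw [this]
  exact isClosed_iInter (fun i => isClosed_eq (continuous_apply _) continuous_const)

lemma toT_mem_KK {v : Fin 11 → ℝ} (hv : ∀ i : Fin 10, v i.succ = 0) : toT v ∈ KK := by
  intro i
  simp only [toT, hv i]
  rfl

/-- the embedding of the circle as the first coordinate -/
noncomputable def emb1 (θ : AddCircle (1 : ℝ)) : Torus 11 := Fin.cons θ (fun _ => 0)

lemma emb1_cont : Continuous emb1 := by
  refine continuous_pi (fun i => ?_)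
  refine Fin.cases ?_ (fun j => ?_) i
  · exact continuous_id
  · exact continuous_const

lemma dim_eq {H : AddSubgroup (Torus 11)} (h1 : H ≤ KK) (h2 : ∀ θ, emb1 θ ∈ H) :
    dimT H = 1 := by
  have e : lieAlg H = Submodule.span ℝ {(Pi.single 0 1 : Fin 11 → ℝ)} := by
    ext v
    rw [Submodule.mem_span_singleton]
    constructor
    · intro hv
      refine ⟨v 0, ?_⟩
      ext i
      refine Fin.cases ?_ (fun j => ?_) i
      · simp
      · have hz : v j.succ = 0 := by
          by_contra hne
          have h3 := h1 (hv (1 / (2 * v j.succ)))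
          have h4 : (((1 / (2 * v j.succ)) • v) j.succ : AddCircle (1 : ℝ)) = 0 := h3 j
          rw [Pi.smul_apply, smul_eq_mul] at h4
          have h5 : 1 / (2 * v j.succ) * v j.succ = 1 / 2 := by field_simp
          rw [h5, AddCircle.coe_eq_zero_iff] at h4
          obtain ⟨m, hm⟩ := h4
          rw [zsmul_eq_mul, mul_one] at hm
          have h6 : (m : ℝ) * 2 = 1 := by
            rw [hm]
            norm_num
          have h7 : m * 2 = 1 := by exact_mod_cast h6
          omega
        rw [hz]
        simp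
    · rintro ⟨c, rfl⟩ s
      have : toT (s • c • (Pi.single 0 1 : Fin 11 → ℝ)) = emb1 ((s * c : ℝ) : AddCircle (1 : ℝ)) := by
        ext i
        refine Fin.cases ?_ (fun j => ?_) i
        · simp [toT, emb1]
        · simp [toT, emb1]
      rw [this]
      exact h2 _
  unfold dimT
  rw [e]
  exact finrank_span_singleton (by
    intro h
    have := congrFun h 0
    simp at this)

lemma dense_om : DenseRange (fun m : ℤ => m • ((om : ℝ) : AddCircle (1 : ℝ))) := by
  rw [AddCircle.denseRange_zsmul_coe_iff]
  simpa using om_irrational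

lemma emb1_mem {h : Fin 11 → ℝ} (h0 : h 0 = om) (h1 : ∀ i : Fin 10, h i.succ = 0)
    (θ : AddCircle (1 : ℝ)) :
    emb1 θ ∈ (AddSubgroup.closure (Set.range fun m : ℤ => toT (m • h))).topologicalClosure := by
  have e1 : ∀ m : ℤ, emb1 (m • ((om : ℝ) : AddCircle (1 : ℝ))) = toT (m • h) := by
    intro m
    ext i
    refine Fin.cases ?_ (fun j => ?_) i
    · simp [toT, emb1, h0]
    · simp [toT, emb1, h1]
  have h2 : θ ∈ closure (Set.range (fun m : ℤ => m • ((om : ℝ) : AddCircle (1 : ℝ)))) :=
    dense_om θ
  have h3 := map_mem_closure emb1_cont h2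
    (t := (AddSubgroup.closure (Set.range fun m : ℤ => toT (m • h)) : Set (Torus 11))) (by
      rintro _ ⟨m, rfl⟩
      rw [e1]
      exact AddSubgroup.subset_closure ⟨m, rfl⟩)
  exact h3

lemma IZ_eq {h : Fin 11 → ℝ} (h0 : h 0 = om) (h1 : ∀ i : Fin 10, h i.succ = 0) : IZ h = 1 := by
  apply dim_eq
  · apply AddSubgroup.topologicalClosure_minimal _ _ KK_closed
    rw [AddSubgroup.closure_le]
    rintro _ ⟨m, rfl⟩
    apply toT_mem_KK
    intro i
    simp [h1]
  · exact emb1_mem h0 h1

lemma IR_eq {h : Fin 11 → ℝ} (h0 : h 0 = om) (h1 : ∀ i : Fin 10, h i.succ = 0) : IR h = 1 := by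
  apply dim_eq
  · apply AddSubgroup.topologicalClosure_minimal _ _ KK_closed
    rw [AddSubgroup.closure_le]
    rintro _ ⟨m, rfl⟩
    apply toT_mem_KK
    intro i
    simp [h1]
  · intro θ
    refine AddSubgroup.topologicalClosure_mono ?_ (emb1_mem h0 h1 θ)
    rw [AddSubgroup.closure_le]
    rintro _ ⟨m, rfl⟩
    refine AddSubgroup.subset_closure ⟨(m : ℝ), ?_⟩
    simp only
    congr 1
    ext i
    simp

end Pool.Agent.Helper981
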