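import Pool.Agent.Helper981.Data
import Pool.Agent.Helper981.Flow
import Pool.Agent.Helper981.Defs

set_option autoImplicit false

open Set Filter Topology Metric MeasureTheory
open scoped NNReal ContDiff

namespace Pool.Agent.Helper981

/-- representative in `[0,1)` of a point of the circle -/
noncomputable def rep (θ : AddCircle (1 : ℝ)) : ℝ := (AddCircle.equivIco 1 0 θ : ℝ)

lemma rep_coe (x : ℝ) : rep (x : AddCircle (1 : ℝ)) = Int.fract x := by
  have := AddCircle.coe_equivIco_mk_apply (1 : ℝ) x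
  rw [rep, this]
  simp

lemma rep_nonneg (θ : AddCircle (1 : ℝ)) : 0 ≤ rep θ := by
  have := (AddCircle.equivIco 1 0 θ).2
  exact this.1

lemma rep_lt_one (θ : AddCircle (1 : ℝ)) : rep θ < 1 := by
  have h : rep θ < 0 + 1 := (AddCircle.equivIco 1 0 θ).2.2
  linarith

lemma coe_rep (θ : AddCircle (1 : ℝ)) : (rep θ : AddCircle (1 : ℝ)) = θ :=
  (AddCircle.equivIco 1 0).symm_apply_apply θ

lemma measurable_rep : Measurable rep :=
  measurable_subtype_coe.comp (AddCircle.measurableEquivIco 1 0).measurable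

lemma rep_add_floor (x : ℝ) : rep (x : AddCircle (1 : ℝ)) + ⌊x⌋ = x := by
  rw [rep_coe]
  exact Int.fract_add_floor x

/-- representative of a point of the torus -/
noncomputable def repv {n : ℕ} (P : Torus n) : Fin n → ℝ := fun j => rep (P j)

lemma measurable_repv {n : ℕ} : Measurable (repv (n := n)) :=
  measurable_pi_lambda _ (fun j => measurable_rep.comp (measurable_pi_apply j))

lemma repv_coe {n : ℕ} (x : Fin n → ℝ) :
    repv (fun i => (x i : AddCircle (1 : ℝ))) + zc (fun i => ⌊x i⌋) = x := by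
  ext i
  exact rep_add_floor (x i)

lemma norm_repv_le {n : ℕ} (P : Torus n) : ‖repv P‖ ≤ 1 := by
  rw [pi_norm_le_iff_of_nonneg zero_le_one]
  intro i
  rw [Real.norm_eq_abs]
  unfold repv
  rw [abs_of_nonneg (rep_nonneg _)]
  exact (rep_lt_one _).le

lemma coe_add_zc {n : ℕ} (x : Fin n → ℝ) (k : Fin n → ℤ) :
    (fun i => ((x + zc k) i : AddCircle (1 : ℝ))) = fun i => (x i : AddCircle (1 : ℝ)) := by
  ext i
  simp only [Pi.add_apply, zc_apply]
  rw [AddCircle.coe_add]
  have : ((k i : ℝ) : AddCircle (1 : ℝ)) = 0 := by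
    rw [AddCircle.coe_eq_zero_iff]
    exact ⟨k i, by simp⟩
  rw [this, add_zero]

lemma coe_add_int (t : ℝ) (m : ℤ) : ((t + m : ℝ) : AddCircle (1 : ℝ)) = (t : AddCircle (1 : ℝ)) := by
  rw [AddCircle.coe_add]
  have : ((m : ℝ) : AddCircle (1 : ℝ)) = 0 := by
    rw [AddCircle.coe_eq_zero_iff]
    exact ⟨m, by simp⟩
  rw [this, add_zero]

lemma cov_shift {n : ℕ} (x v : Fin n → ℝ) (t : ℝ) (k : Fin n → ℤ) (m : ℤ) :
    cov (x + zc k) v (t + m) = cov x v t := by
  unfold cov
  rw [coe_add_zc, coe_add_int]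

/-- the point of the extended phase space over representatives -/
lemma cov_rep {n : ℕ} (P : Phase n) : cov (repv P.1) P.2.1 (rep P.2.2) = P := by
  unfold cov repv
  simp only [coe_rep]

lemma continuous_cov {n : ℕ} :
    Continuous (fun p : (Fin n → ℝ) × (Fin n → ℝ) × ℝ => cov p.1 p.2.1 p.2.2) := by
  unfold cov
  refine Continuous.prodMk ?_ (Continuous.prodMk ?_ ?_)
  · refine continuous_pi (fun i => ?_)
    exact (AddCircle.continuous_mk' 1).comp ((continuous_apply i).comp continuous_fst)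
  · exact continuous_fst.comp continuous_snd
  · exact (AddCircle.continuous_mk' 1).comp (continuous_snd.comp continuous_snd)

/-- functions on the covering that are periodic -/
def Per {n : ℕ} {F : Type*} (f : (Fin n → ℝ) × ℝ → F) : Prop :=
  ∀ (k : Fin n → ℤ) (m : ℤ) (z : Fin n → ℝ) (t : ℝ), f (z + zc k, t + m) = f (z, t)

lemma Per.at_rep {n : ℕ} {F : Type*} {f : (Fin n → ℝ) × ℝ → F} (hf : Per f) (x : Fin n → ℝ) (t : ℝ) :
    f (repv (fun i => (x i : AddCircle (1 : ℝ))), rep (t : AddCircle (1 : ℝ))) = f (x, t) := by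
  have := hf (fun i => ⌊x i⌋) ⌊t⌋ (repv (fun i => (x i : AddCircle (1 : ℝ))))
    (rep (t : AddCircle (1 : ℝ)))
  rw [repv_coe, rep_add_floor] at this
  exact this.symm

lemma Per.bounded {n : ℕ} {F : Type*} [NormedAddCommGroup F] {f : (Fin n → ℝ) × ℝ → F}
    (hf : Per f) (hc : Continuous f) : ∃ B : ℝ, 0 ≤ B ∧ ∀ p, ‖f p‖ ≤ B := by
  have hK : IsCompact ((closedBall (0 : Fin n → ℝ) 1) ×ˢ (Icc (0 : ℝ) 1)) :=
    (isCompact_closedBall _ _).prod isCompact_Icc
  obtain ⟨B, hB⟩ := (hK.image hc).isBounded.exists_norm_le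
  refine ⟨max B 0, le_max_right _ _, ?_⟩
  rintro ⟨x, t⟩
  rw [← hf.at_rep x t]
  refine (hB _ ⟨_, ⟨?_, ?_⟩, rfl⟩).trans (le_max_left _ _)
  · rw [mem_closedBall_zero_iff]
    exact norm_repv_le (fun i => (x i : AddCircle (1 : ℝ)))
  · exact ⟨rep_nonneg (t : AddCircle (1 : ℝ)), (rep_lt_one (t : AddCircle (1 : ℝ))).le⟩

lemma Per.fderiv {n : ℕ} {F : Type*} [NormedAddCommGroup F] [NormedSpace ℝ F]
    {f : (Fin n → ℝ) × ℝ → F} (hf : Per f) : Per (fderiv ℝ f) := by
  intro k m z t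
  have h1 : (fun p : (Fin n → ℝ) × ℝ => f (p + (zc k, (m : ℝ)))) = f := by
    funext p
    obtain ⟨z, t⟩ := p
    exact hf k m z t
  have h2 := fderiv_comp_add_right (𝕜 := ℝ) (f := f) (x := (z, t)) (zc k, (m : ℝ))
  rw [h1] at h2
  rw [h2]
  rfl

end Pool.Agent.Helper981
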