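import Pool.Agent.Helper981.Main1

set_option autoImplicit false

open Set Filter Topology Metric MeasureTheory
open scoped NNReal ContDiff

namespace Pool.Agent.Helper981

variable {n : ℕ}

/-- vectors as covectors -/
noncomputable def dl : (Fin n → ℝ) →L[ℝ] ((Fin n → ℝ) →L[ℝ] ℝ) :=
  ∑ i, (ContinuousLinearMap.proj (R := ℝ) (φ := fun _ : Fin n => ℝ) i).smulRight
    (ContinuousLinearMap.proj (R := ℝ) (φ := fun _ : Fin n => ℝ) i)

lemma dl_apply (p w : Fin n → ℝ) : dl p w = ∑ i, p i * w i := by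
  simp [dl]

/-- covectors as vectors -/
noncomputable def ev : ((Fin n → ℝ) →L[ℝ] ℝ) →L[ℝ] (Fin n → ℝ) :=
  ContinuousLinearMap.pi (fun j => ContinuousLinearMap.apply ℝ ℝ (Pi.single j 1))

lemma ev_apply (f : (Fin n → ℝ) →L[ℝ] ℝ) (j : Fin n) : ev f j = f (Pi.single j 1) := rfl

lemma ev_dl (p : Fin n → ℝ) : ev (dl p) = p := by
  ext j
  rw [ev_apply, dl_apply]
  simp [Pi.single_apply]

lemma dl_ev (f : (Fin n → ℝ) →L[ℝ] ℝ) : dl (ev f) = f := by
  ext w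
  rw [dl_apply]
  conv_rhs => rw [pi_eq_sum_univ' w]
  simp only [map_sum, map_smul, smul_eq_mul, ev_apply]
  refine Finset.sum_congr rfl (fun i _ => ?_)
  rw [mul_comm]

lemma half_sq_hasFDerivAt (u : Fin n → ℝ) :
    HasFDerivAt (fun u : Fin n → ℝ => (∑ i, (u i) ^ 2) / 2) (dl u) u := by
  have h1 : HasFDerivAt (fun u : Fin n → ℝ => ∑ i, (u i) ^ 2)
      (∑ i, ((2 : ℕ) • (u i) ^ (2 - 1)) • (ContinuousLinearMap.proj (R := ℝ) (φ := fun _ : Fin n => ℝ) i)) u := by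
    apply HasFDerivAt.fun_sum
    intro i _
    exact (ContinuousLinearMap.proj (R := ℝ) (φ := fun _ : Fin n => ℝ) i).hasFDerivAt.pow 2
  have h2 := h1.const_mul (1 / 2 : ℝ)
  have e1 : (fun u : Fin n → ℝ => (∑ i, (u i) ^ 2) / 2) =
      fun u : Fin n → ℝ => (1 / 2 : ℝ) * ∑ i, (u i) ^ 2 := by
    funext u
    ring
  rw [e1]
  refine h2.congr_fderiv ?_
  ext w
  simp only [dl_apply, smul_apply, sum_apply,
    ContinuousLinearMap.proj_apply, smul_eq_mul, nsmul_eq_mul]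
  rw [Finset.mul_sum]
  refine Finset.sum_congr rfl (fun i _ => ?_)
  simp only [Nat.cast_ofNat]
  norm_num
  ring

/-- The Lagrangian. -/
noncomputable def LD (D : MData n) (P : Phase n) : ℝ :=
  (∑ i, (P.2.1 i - D.X (repv P.1, rep P.2.2) i) ^ 2) / 2 + D.V (repv P.1, rep P.2.2)

variable (D : MData n)

lemma MData.perX : Per D.X := D.X_per

lemma MData.perV : Per D.V := D.V_per

lemma LD_cov (x v : Fin n → ℝ) (t : ℝ) :
    LD D (cov x v t) = (∑ i, (v i - D.X (x, t) i) ^ 2) / 2 + D.V (x, t) := by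
  unfold LD cov
  simp only
  rw [D.perX.at_rep x t, D.perV.at_rep x t]

lemma LD_nonneg (P : Phase n) : 0 ≤ LD D P := by
  unfold LD
  have := D.V_nonneg (repv P.1, rep P.2.2)
  have h2 : 0 ≤ ∑ i, (P.2.1 i - D.X (repv P.1, rep P.2.2) i) ^ 2 :=
    Finset.sum_nonneg (fun i _ => sq_nonneg _)
  linarith

lemma LD_v (x v : Fin n → ℝ) (t : ℝ) :
    HasFDerivAt (fun u => LD D (cov x u t)) (dl (v - D.X (x, t))) v := by
  simp only [LD_cov]
  have h1 := half_sq_hasFDerivAt (v - D.X (x, t))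
  have h2 : HasFDerivAt (fun u : Fin n → ℝ => u - D.X (x, t)) (ContinuousLinearMap.id ℝ (Fin n → ℝ)) v :=
    (hasFDerivAt_id v).sub_const _
  have h3 := (h1.comp v h2).add_const (D.V (x, t))
  simpa [Function.comp_def] using h3

/-- force term -/
noncomputable def RR (z p : Fin n → ℝ) (t : ℝ) : (Fin n → ℝ) →L[ℝ] ℝ :=
  -((dl p).comp ((fderiv ℝ D.X (z, t)).comp (ContinuousLinearMap.inl ℝ (Fin n → ℝ) ℝ))) +
    (fderiv ℝ D.V (z, t)).comp (ContinuousLinearMap.inl ℝ (Fin n → ℝ) ℝ)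

lemma LD_x (z v : Fin n → ℝ) (t : ℝ) :
    HasFDerivAt (fun y => LD D (cov y v t)) (RR D z (v - D.X (z, t)) t) z := by
  simp only [LD_cov]
  have h1 := half_sq_hasFDerivAt (v - D.X (z, t))
  have hin : HasFDerivAt (fun y : Fin n → ℝ => (y, t)) (ContinuousLinearMap.inl ℝ (Fin n → ℝ) ℝ) z :=
    hasFDerivAt_prodMk_left z t
  have hX : HasFDerivAt D.X (fderiv ℝ D.X (z, t)) (z, t) :=
    (D.X_contDiff.differentiable two_ne_zero (z, t)).hasFDerivAt
  have hV : HasFDerivAt D.V (fderiv ℝ D.V (z, t)) (z, t) :=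
    (D.V_contDiff.differentiable two_ne_zero (z, t)).hasFDerivAt
  have h2 : HasFDerivAt (fun y : Fin n → ℝ => v - D.X (y, t))
      (-((fderiv ℝ D.X (z, t)).comp (ContinuousLinearMap.inl ℝ (Fin n → ℝ) ℝ))) z :=
    (hX.comp z hin).const_sub v
  have h3 := (h1.comp z h2).add (hV.comp z hin)
  refine h3.congr_fderiv ?_
  unfold RR
  ext w
  simp

lemma LD_contDiff : ContDiff ℝ 2
    (fun p : (Fin n → ℝ) × (Fin n → ℝ) × ℝ => LD D (cov p.1 p.2.1 p.2.2)) := by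
  simp only [LD_cov]
  have h0 : ContDiff ℝ 2 (fun p : (Fin n → ℝ) × (Fin n → ℝ) × ℝ => (p.1, p.2.2)) :=
    contDiff_fst.prodMk (contDiff_snd.comp contDiff_snd)
  have hX := D.X_contDiff.comp h0
  have hV := D.V_contDiff.comp h0
  apply ContDiff.add
  · apply ContDiff.div_const
    apply ContDiff.sum
    intro i _
    apply ContDiff.pow
    apply ContDiff.sub
    · exact contDiff_pi.1 (contDiff_fst.comp contDiff_snd) i
    · exact contDiff_pi.1 hX i
  · exact hV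

lemma LD_hessian (x v : Fin n → ℝ) (t : ℝ) (w : Fin n → ℝ) (hw : w ≠ 0) :
    0 < fderiv ℝ (fun u => fderiv ℝ (fun u' => LD D (cov x u' t)) u) v w w := by
  have h1 : (fun u => fderiv ℝ (fun u' => LD D (cov x u' t)) u) = fun u => dl (u - D.X (x, t)) := by
    funext u
    exact (LD_v D x u t).fderiv
  rw [h1]
  have h2 : HasFDerivAt (fun u : Fin n → ℝ => dl (u - D.X (x, t))) dl v := by
    have := (dl (n := n)).hasFDerivAt.comp v ((hasFDerivAt_id v).sub_const (D.X (x, t)))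
    rw [ContinuousLinearMap.comp_id] at this
    exact this
  rw [h2.fderiv, dl_apply]
  obtain ⟨i, hi⟩ : ∃ i, w i ≠ 0 := by
    by_contra h
    push Not at h
    exact hw (funext h)
  apply Finset.sum_pos'
  · intro j _
    exact mul_self_nonneg _
  · exact ⟨i, Finset.mem_univ i, mul_self_pos.2 hi⟩

lemma sq_norm_le_sum (u : Fin n → ℝ) : ‖u‖ ^ 2 ≤ ∑ i, (u i) ^ 2 := by
  have h0 : 0 ≤ ∑ i, (u i) ^ 2 := Finset.sum_nonneg (fun i _ => sq_nonneg _)
  have h1 : ‖u‖ ≤ Real.sqrt (∑ i, (u i) ^ 2) := by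
    rw [pi_norm_le_iff_of_nonneg (Real.sqrt_nonneg _)]
    intro i
    rw [Real.norm_eq_abs, ← Real.sqrt_sq_eq_abs]
    apply Real.sqrt_le_sqrt
    exact Finset.single_le_sum (f := fun i => (u i) ^ 2) (fun i _ => sq_nonneg _) (Finset.mem_univ i)
  calc ‖u‖ ^ 2 ≤ (Real.sqrt (∑ i, (u i) ^ 2)) ^ 2 := by gcongr
    _ = _ := Real.sq_sqrt h0

lemma LD_superlinear (x : Fin n → ℝ) (t : ℝ) :
    Tendsto (fun v : Fin n → ℝ => LD D (cov x v t) / ‖v‖) (cocompact (Fin n → ℝ)) atTop := by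
  set a := D.X (x, t) with ha
  have h1 : Tendsto (fun v : Fin n → ℝ => ‖v‖) (cocompact (Fin n → ℝ)) atTop :=
    tendsto_norm_cocompact_atTop
  have h2 : Tendsto (fun r : ℝ => r / 2 - ‖a‖) atTop atTop :=
    (tendsto_id.atTop_div_const two_pos).atTop_add tendsto_const_nhds
  refine tendsto_atTop_mono' _ ?_ (h2.comp h1)
  filter_upwards [h1.eventually_gt_atTop 0] with v hv
  simp only [Function.comp_apply]
  rw [le_div_iff₀ hv, LD_cov, ← ha]
  have h3 := sq_norm_le_sum (v - a)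
  have h4 := D.V_nonneg (x, t)
  have h5 : ‖v‖ - ‖a‖ ≤ ‖v - a‖ := norm_sub_norm_le v a
  simp only [Pi.sub_apply] at h3
  have h6 : (‖v‖ / 2 - ‖a‖) * ‖v‖ ≤ ‖v - a‖ ^ 2 / 2 := by
    have h7 : 0 ≤ ‖v - a‖ := norm_nonneg _
    have h8 : 0 ≤ ‖a‖ := norm_nonneg _
    rcases le_total ‖v‖ ‖a‖ with h | h
    · have : (‖v‖ / 2 - ‖a‖) ≤ 0 := by linarith
      nlinarith
    · have : (‖v‖ - ‖a‖) ^ 2 ≤ ‖v - a‖ ^ 2 := by
        apply pow_le_pow_left₀ (by linarith) h5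
      nlinarith
  linarith

end Pool.Agent.Helper981
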