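import Pool.Agent.Helper981.Main2

set_option autoImplicit false

open Set Filter Topology Metric MeasureTheory
open scoped NNReal ContDiff

namespace Pool.Agent.Helper981

variable {n : ℕ}

/-- covering of the extended phase space: position, momentum, time -/
abbrev Cv (n : ℕ) : Type := (Fin n → ℝ) × (Fin n → ℝ) × ℝ

variable (D : MData n)

/-- the autonomous Hamiltonian vector field on the covering -/
noncomputable def FD (e : Cv n) : Cv n :=
  (D.X (e.1, e.2.2) + e.2.1, ev (RR D e.1 e.2.1 e.2.2), 1)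

lemma FD_contDiff : ContDiff ℝ 1 (FD D) := by
  unfold FD
  have h0 : ContDiff ℝ 1 (fun p : Cv n => (p.1, p.2.2)) :=
    contDiff_fst.prodMk (contDiff_snd.comp contDiff_snd)
  have hp : ContDiff ℝ 1 (fun p : Cv n => p.2.1) := contDiff_fst.comp contDiff_snd
  have hX := (D.X_contDiff.of_le one_le_two).comp h0
  have hX' := (D.X_contDiff.fderiv_right (m := 1) (by norm_num)).comp h0
  have hV' := (D.V_contDiff.fderiv_right (m := 1) (by norm_num)).comp h0
  refine (hX.add hp).prodMk (ContDiff.prodMk ?_ contDiff_const)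
  apply ev.contDiff.comp
  unfold RR
  apply ContDiff.add
  · apply ContDiff.neg
    apply ContDiff.clm_comp
    · exact dl.contDiff.comp hp
    · exact hX'.clm_comp contDiff_const
  · exact hV'.clm_comp contDiff_const

lemma FD_growth : ∃ A : ℝ, 0 < A ∧ ∀ e : Cv n, ‖FD D e‖ ≤ A * (1 + ‖e‖) := by
  obtain ⟨B1, hB1, h1⟩ := D.perX.bounded D.X_contDiff.continuous
  obtain ⟨B2, hB2, h2⟩ := D.perX.fderiv.bounded (D.X_contDiff.continuous_fderiv two_ne_zero)
  obtain ⟨B3, hB3, h3⟩ := D.perV.fderiv.bounded (D.V_contDiff.continuous_fderiv two_ne_zero)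
  obtain ⟨N1, hN1, g1⟩ : ∃ N : ℝ, 0 ≤ N ∧ ∀ f : (Fin n → ℝ) →L[ℝ] ℝ, ‖ev f‖ ≤ N * ‖f‖ :=
    ⟨_, norm_nonneg _, (ev (n := n)).le_opNorm⟩
  obtain ⟨N2, hN2, g2⟩ : ∃ N : ℝ, 0 ≤ N ∧ ∀ f : (Fin n → ℝ), ‖dl f‖ ≤ N * ‖f‖ :=
    ⟨_, norm_nonneg _, (dl (n := n)).le_opNorm⟩
  set N3 := ‖ContinuousLinearMap.inl ℝ (Fin n → ℝ) ℝ‖
  have hN3 : 0 ≤ N3 := norm_nonneg _
  refine ⟨B1 + 1 + N1 * (N2 * (B2 * N3)) + N1 * (B3 * N3) + 1, by positivity, ?_⟩
  rintro ⟨z, p, t⟩
  set e : Cv n := (z, p, t)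
  have he : 0 ≤ ‖e‖ := norm_nonneg _
  have hp : ‖p‖ ≤ ‖e‖ := (norm_fst_le (p, t)).trans (norm_snd_le e)
  have e1 : ‖D.X (z, t) + p‖ ≤ B1 + ‖e‖ :=
    (norm_add_le _ _).trans (add_le_add (h1 _) hp)
  have e2 : ‖RR D z p t‖ ≤ N2 * ‖e‖ * (B2 * N3) + B3 * N3 := by
    unfold RR
    refine (norm_add_le _ _).trans (add_le_add ?_ ?_)
    · rw [norm_neg]
      refine (ContinuousLinearMap.opNorm_comp_le _ _).trans ?_
      refine mul_le_mul ?_ ?_ (norm_nonneg _) (by positivity)
      · exact (g2 p).trans (mul_le_mul_of_nonneg_left hp hN2)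
      · refine (ContinuousLinearMap.opNorm_comp_le _ _).trans ?_
        exact mul_le_mul_of_nonneg_right (h2 _) hN3
    · refine (ContinuousLinearMap.opNorm_comp_le _ _).trans ?_
      exact mul_le_mul_of_nonneg_right (h3 _) hN3
  have e3 : ‖ev (RR D z p t)‖ ≤ N1 * (N2 * ‖e‖ * (B2 * N3) + B3 * N3) :=
    (g1 _).trans (mul_le_mul_of_nonneg_left e2 hN1)
  have e4 : ‖FD D e‖ = max ‖D.X (z, t) + p‖ (max ‖ev (RR D z p t)‖ ‖(1 : ℝ)‖) := rfl
  rw [e4, norm_one]
  have q1 : 0 ≤ N1 * (N2 * (B2 * N3)) := by positivity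
  have q2 : 0 ≤ N1 * (B3 * N3) := by positivity
  refine max_le ?_ (max_le ?_ ?_)
  · nlinarith
  · nlinarith
  · nlinarith

/-- extremals give trajectories of the Hamiltonian field -/
lemma extremal_traj {γ : ℝ → (Fin n → ℝ)} (h : IsExtremal (LD D) γ) (t : ℝ) :
    HasDerivAt (fun s => ((γ s, deriv γ s - D.X (γ s, s), s) : Cv n))
      (FD D (γ t, deriv γ t - D.X (γ t, t), t)) t := by
  have h1 : HasDerivAt γ (deriv γ t) t :=
    ((h.contDiff.differentiable one_ne_zero) t).hasDerivAt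
  have h2 := h.euler_lagrange t
  have e1 : (fun s => fderiv ℝ (fun u => LD D (cov (γ s) u s)) (deriv γ s)) =
      fun s => dl (deriv γ s - D.X (γ s, s)) := by
    funext s
    exact (LD_v D (γ s) (deriv γ s) s).fderiv
  rw [e1, (LD_x D (γ t) (deriv γ t) t).fderiv] at h2
  have h3 := (ev (n := n)).hasFDerivAt.comp_hasDerivAt t h2
  have e2 : ((ev (n := n)) ∘ fun s => dl (deriv γ s - D.X (γ s, s))) =
      fun s => deriv γ s - D.X (γ s, s) := by
    funext s
    exact ev_dl _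
  rw [e2] at h3
  have h4 := h1.prodMk (h3.prodMk (hasDerivAt_id t))
  refine h4.congr_deriv ?_
  unfold FD
  simp

/-- trajectories of the Hamiltonian field with the time normalised give extremals -/
lemma traj_extremal {z p : ℝ → (Fin n → ℝ)}
    (h : ∀ t, HasDerivAt (fun s => ((z s, p s, s) : Cv n)) (FD D (z t, p t, t)) t) :
    IsExtremal (LD D) z ∧ ∀ t, deriv z t = D.X (z t, t) + p t := by
  have hz : ∀ t, HasDerivAt z (D.X (z t, t) + p t) t := fun t => (h t).fst
  have hp : ∀ t, HasDerivAt p (ev (RR D (z t) (p t) t)) t := fun t => (h t).snd.fst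
  have hd : deriv z = fun t => D.X (z t, t) + p t := funext (fun t => (hz t).deriv)
  have hzc : Continuous z := continuous_iff_continuousAt.2 (fun t => (hz t).continuousAt)
  have hpc : Continuous p := continuous_iff_continuousAt.2 (fun t => (hp t).continuousAt)
  refine ⟨⟨?_, ?_⟩, fun t => congrFun hd t⟩
  · rw [contDiff_one_iff_deriv]
    refine ⟨fun t => (hz t).differentiableAt, ?_⟩
    rw [hd]
    exact (D.X_contDiff.continuous.comp (hzc.prodMk continuous_id)).add hpc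
  · intro t
    have e1 : (fun s => fderiv ℝ (fun u => LD D (cov (z s) u s)) (deriv z s)) =
        fun s => dl (p s) := by
      funext s
      rw [(LD_v D (z s) (deriv z s) s).fderiv, hd]
      simp
    rw [e1, (LD_x D (z t) (deriv z t) t).fderiv, hd]
    have h3 := (dl (n := n)).hasFDerivAt.comp_hasDerivAt t (hp t)
    rw [dl_ev] at h3
    have e2 : D.X (z t, t) + p t - D.X (z t, t) = p t := by simp
    simp only [e2]
    exact h3

end Pool.Agent.Helper981
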