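import Pool.Agent.Helper981.Main3

set_option autoImplicit false

open Set Filter Topology Metric MeasureTheory
open scoped NNReal ContDiff

namespace Pool.Agent.Helper981

variable {n : ℕ} (D : MData n)

/-- growth constant -/
noncomputable def GA : ℝ := (FD_growth D).choose

lemma GA_pos : 0 < GA D := (FD_growth D).choose_spec.1

lemma GA_growth (e : Cv n) : ‖FD D e‖ ≤ GA D * (1 + ‖e‖) := (FD_growth D).choose_spec.2 e

/-- the Hamiltonian flow on the covering -/
noncomputable def ph : ℝ → Cv n → Cv n :=
  (exists_flow (FD_contDiff D) (GA_pos D) (GA_growth D)).choose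

lemma ph_zero (e : Cv n) : ph D 0 e = e :=
  (exists_flow (FD_contDiff D) (GA_pos D) (GA_growth D)).choose_spec.1 e

lemma ph_deriv (e : Cv n) (t : ℝ) : HasDerivAt (fun s => ph D s e) (FD D (ph D t e)) t :=
  (exists_flow (FD_contDiff D) (GA_pos D) (GA_growth D)).choose_spec.2.1 e t

lemma ph_cont (t : ℝ) : Continuous (ph D t) :=
  (exists_flow (FD_contDiff D) (GA_pos D) (GA_growth D)).choose_spec.2.2.1 t

lemma ph_uniq (γ : ℝ → Cv n) (h : ∀ t, HasDerivAt γ (FD D (γ t)) t) (t s : ℝ) :
    γ (t + s) = ph D s (γ t) :=
  (exists_flow (FD_contDiff D) (GA_pos D) (GA_growth D)).choose_spec.2.2.2 γ h t s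

lemma ph_time (e : Cv n) (s : ℝ) : (ph D s e).2.2 = e.2.2 + s := by
  have h1 : ∀ t, HasDerivAt (fun s => (ph D s e).2.2 - s) 0 t := by
    intro t
    have h2 : HasDerivAt (fun s => (ph D s e).2.2) (1 : ℝ) t := (ph_deriv D e t).snd.snd
    have h3 := h2.sub (hasDerivAt_id t)
    rw [sub_self] at h3
    exact h3
  have h2 := is_const_of_deriv_eq_zero (f := fun s => (ph D s e).2.2 - s)
    (fun t => (h1 t).differentiableAt) (fun t => (h1 t).deriv) s 0
  simp only [ph_zero, sub_zero] at h2
  linarith

/-- deck transformations -/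
def deck (k : Fin n → ℤ) (m : ℤ) : Cv n := (zc k, 0, (m : ℝ))

lemma deck_fst (e : Cv n) (k : Fin n → ℤ) (m : ℤ) : (e + deck k m).1 = e.1 + zc k := rfl

lemma deck_snd (e : Cv n) (k : Fin n → ℤ) (m : ℤ) : (e + deck k m).2.1 = e.2.1 :=
  add_zero _

lemma deck_time (e : Cv n) (k : Fin n → ℤ) (m : ℤ) : (e + deck k m).2.2 = e.2.2 + m := rfl

lemma FD_shift (e : Cv n) (k : Fin n → ℤ) (m : ℤ) : FD D (e + deck k m) = FD D e := by
  unfold FD RR
  rw [deck_fst, deck_snd, deck_time, D.perX, D.perX.fderiv, D.perV.fderiv]

lemma ph_shift (s : ℝ) (e : Cv n) (k : Fin n → ℤ) (m : ℤ) :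
    ph D s (e + deck k m) = ph D s e + deck k m := by
  have h := ph_uniq D (fun s => ph D s e + deck k m) (fun t => by
    have := (ph_deriv D e t).add_const (deck k m)
    rw [FD_shift]
    exact this) 0 s
  simp only [zero_add, ph_zero] at h
  exact h.symm

/-- from momentum coordinates to the extended phase space -/
noncomputable def cvp (e : Cv n) : Phase n := cov e.1 (D.X (e.1, e.2.2) + e.2.1) e.2.2

lemma cvp_shift (e : Cv n) (k : Fin n → ℤ) (m : ℤ) : cvp D (e + deck k m) = cvp D e := by
  unfold cvp
  rw [deck_fst, deck_snd, deck_time, D.perX, cov_shift]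

/-- lift to momentum coordinates -/
noncomputable def lif (P : Phase n) : Cv n :=
  (repv P.1, P.2.1 - D.X (repv P.1, rep P.2.2), rep P.2.2)

lemma lif_cov (x v : Fin n → ℝ) (t : ℝ) :
    ((x, v - D.X (x, t), t) : Cv n) = lif D (cov x v t) + deck (fun i => ⌊x i⌋) ⌊t⌋ := by
  unfold lif
  refine Prod.ext ?_ (Prod.ext ?_ ?_)
  · rw [deck_fst]
    exact (repv_coe x).symm
  · rw [deck_snd]
    have := D.perX.at_rep x t
    simp only [cov]
    rw [this]
  · rw [deck_time]
    exact (rep_add_floor t).symm

/-- The Euler-Lagrange flow. -/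
noncomputable def PhiD (s : ℝ) (P : Phase n) : Phase n := cvp D (ph D s (lif D P))

lemma PhiD_cov (s : ℝ) (x v : Fin n → ℝ) (t : ℝ) :
    PhiD D s (cov x v t) = cvp D (ph D s (x, v - D.X (x, t), t)) := by
  rw [lif_cov, ph_shift, cvp_shift]
  rfl

theorem isELFlow_PhiD : IsELFlow (LD D) (PhiD D) := by
  intro γ hγ t s
  rw [PhiD_cov, ← ph_uniq D _ (extremal_traj D hγ) t s]
  unfold cvp
  simp

theorem isTonelli_LD : IsTonelli (LD D) where
  contDiff := LD_contDiff D
  hessian_pos := LD_hessian D
  superlinear := LD_superlinear D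
  complete := by
    intro x v t
    set e0 : Cv n := (x, v - D.X (x, t), t)
    have ht : ∀ s, (ph D (s - t) e0).2.2 = s := by
      intro s
      rw [ph_time]
      show t + (s - t) = s
      ring
    have hd : ∀ s, HasDerivAt (fun s => ph D (s - t) e0) (FD D (ph D (s - t) e0)) s := by
      intro s
      have h1 : HasDerivAt (fun s => s - t) 1 s := (hasDerivAt_id s).sub_const t
      have := (ph_deriv D e0 (s - t)).scomp s h1
      rw [one_smul] at this
      exact this
    have he : ∀ s, ((ph D (s - t) e0).1, (ph D (s - t) e0).2.1, s) = ph D (s - t) e0 := by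
      intro s
      refine Prod.ext rfl (Prod.ext rfl (ht s).symm)
    obtain ⟨h1, h2⟩ := traj_extremal D (z := fun s => (ph D (s - t) e0).1)
      (p := fun s => (ph D (s - t) e0).2.1) (fun s => by
        have e1 : (fun s => (((ph D (s - t) e0).1, (ph D (s - t) e0).2.1, s) : Cv n)) =
          fun s => ph D (s - t) e0 := funext he
        rw [e1, he s]
        exact hd s)
    refine ⟨_, h1, ?_, ?_⟩
    · simp only [sub_self, ph_zero]
      rfl
    · rw [h2]
      simp only [sub_self, ph_zero]
      show D.X (x, t) + (v - D.X (x, t)) = v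
      simp

lemma measurable_lif : Measurable (lif D) := by
  unfold lif
  have h1 : Measurable (fun P : Phase n => repv P.1) := measurable_repv.comp measurable_fst
  have h2 : Measurable (fun P : Phase n => rep P.2.2) :=
    measurable_rep.comp (measurable_snd.comp measurable_snd)
  exact h1.prodMk (((measurable_fst.comp measurable_snd).sub
    (D.X_contDiff.continuous.measurable.comp (h1.prodMk h2))).prodMk h2)

lemma measurable_cvp : Measurable (cvp D) := by
  have h : Continuous (cvp D) := by
    unfold cvp
    refine continuous_cov.comp (f := fun e : Cv n => ((e.1, D.X (e.1, e.2.2) + e.2.1, e.2.2) : Cv n)) ?_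
    have h0 : Continuous (fun p : Cv n => (p.1, p.2.2)) :=
      continuous_fst.prodMk (continuous_snd.comp continuous_snd)
    exact continuous_fst.prodMk (((D.X_contDiff.continuous.comp h0).add
      (continuous_fst.comp continuous_snd)).prodMk (continuous_snd.comp continuous_snd))
  exact h.measurable

lemma measurable_PhiD (s : ℝ) : Measurable (PhiD D s) :=
  (measurable_cvp D).comp ((ph_cont D s).measurable.comp (measurable_lif D))

lemma measurable_LD : Measurable (LD D) := by
  have h1 : Measurable (fun P : Phase n => repv P.1) := measurable_repv.comp measurable_fst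
  have h2 : Measurable (fun P : Phase n => rep P.2.2) :=
    measurable_rep.comp (measurable_snd.comp measurable_snd)
  have h3 : Measurable (fun P : Phase n => P.2.1 - D.X (repv P.1, rep P.2.2)) :=
    (measurable_fst.comp measurable_snd).sub
    (D.X_contDiff.continuous.measurable.comp (h1.prodMk h2))
  unfold LD
  apply Measurable.add
  · apply Measurable.div_const
    refine Finset.measurable_sum _ (fun i _ => ?_)
    apply Measurable.pow_const
    exact (measurable_pi_apply i).comp h3
  · exact D.V_contDiff.continuous.measurable.comp (h1.prodMk h2)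

end Pool.Agent.Helper981
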