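import Pool.Agent.Helper981.Main4

set_option autoImplicit false

open Set Filter Topology Metric MeasureTheory
open scoped NNReal ContDiff

namespace Pool.Agent.Helper981

variable {n : ℕ} (D : MData n)

lemma proj_cvp {f : (Fin n → ℝ) × ℝ → ℝ} (hp : Per f) (e : Cv n) :
    f (repv (cvp D e).1, rep (cvp D e).2.2) = f (e.1, e.2.2) :=
  hp.at_rep e.1 e.2.2

lemma norm_lif_le {B R : ℝ} (hB : ∀ p, ‖D.X p‖ ≤ B) (P : Phase n) (hP : ‖P.2.1‖ ≤ R)
    (hB0 : 0 ≤ B) (hR : 0 ≤ R) : ‖lif D P‖ ≤ 1 + R + B := by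
  have e4 : ‖lif D P‖ = max ‖repv P.1‖ (max ‖P.2.1 - D.X (repv P.1, rep P.2.2)‖ ‖rep P.2.2‖) := rfl
  rw [e4]
  refine max_le ?_ (max_le ?_ ?_)
  · have := norm_repv_le P.1
    linarith
  · have := norm_sub_le P.2.1 (D.X (repv P.1, rep P.2.2))
    have := hB (repv P.1, rep P.2.2)
    linarith
  · rw [Real.norm_eq_abs, abs_of_nonneg (rep_nonneg _)]
    have := rep_lt_one P.2.2
    linarith

/-- derivative of a function along the flow -/
lemma along_flow {f : (Fin n → ℝ) × ℝ → ℝ} (hf : ContDiff ℝ 1 f) (e : Cv n) (s : ℝ) :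
    HasDerivAt (fun s => f ((ph D s e).1, (ph D s e).2.2))
      (fderiv ℝ f ((ph D s e).1, (ph D s e).2.2) ((FD D (ph D s e)).1, 1)) s := by
  have h1 : HasDerivAt (fun s => (ph D s e).1) (FD D (ph D s e)).1 s := (ph_deriv D e s).fst
  have h2 : HasDerivAt (fun s => (ph D s e).2.2) (1 : ℝ) s := (ph_deriv D e s).snd.snd
  have h3 := h1.prodMk h2
  exact ((hf.differentiable one_ne_zero _).hasFDerivAt).comp_hasDerivAt s h3

lemma flow_lip {f : (Fin n → ℝ) × ℝ → ℝ} (hf : ContDiff ℝ 1 f) {Bf : ℝ} (hBf0 : 0 ≤ Bf)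
    (hBf : ∀ p, ‖fderiv ℝ f p‖ ≤ Bf) {δ : ℝ} (e : Cv n) (he : ‖e‖ ≤ δ) {s : ℝ}
    (hs : s ∈ Icc (0 : ℝ) 1) :
    ‖f ((ph D s e).1, (ph D s e).2.2) - f (e.1, e.2.2)‖ ≤
      Bf * (GA D * (1 + gronwallBound δ (GA D) (GA D) 1)) * s := by
  have h1 := norm_image_sub_le_of_norm_deriv_le_segment'
    (f := fun s => f ((ph D s e).1, (ph D s e).2.2)) (a := 0) (b := 1)
    (f' := fun s => fderiv ℝ f ((ph D s e).1, (ph D s e).2.2) ((FD D (ph D s e)).1, 1))
    (C := Bf * (GA D * (1 + gronwallBound δ (GA D) (GA D) 1)))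
    (fun x _ => (along_flow D hf e x).hasDerivWithinAt) (fun x hx => by
      refine (ContinuousLinearMap.le_opNorm _ _).trans ?_
      refine mul_le_mul (hBf _) ?_ (norm_nonneg _) hBf0
      have h2 : ‖(((FD D (ph D x e)).1, (1 : ℝ)) : (Fin n → ℝ) × ℝ)‖ ≤ ‖FD D (ph D x e)‖ := by
        have e4 : ‖FD D (ph D x e)‖ = max ‖(FD D (ph D x e)).1‖
          (max ‖(FD D (ph D x e)).2.1‖ ‖(1 : ℝ)‖) := rfl
        rw [e4]
        exact max_le_max le_rfl (le_max_right _ _)
      refine h2.trans ((GA_growth D _).trans ?_)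
      refine mul_le_mul_of_nonneg_left ?_ (GA_pos D).le
      have h3 := sol_bound (GA_pos D) (GA_growth D) (α := fun s => ph D s e)
        (fun t => ph_deriv D e t) (δ := δ) (T := 1) (by simp only [ph_zero]; exact he)
        (t := x) ⟨hx.1, hx.2.le⟩
      linarith) s hs
  simp only [ph_zero, sub_zero] at h1
  exact h1

theorem closed_form {μ : Measure (Phase n)} (hμ : IsInv (PhiD D) μ) {f : (Fin n → ℝ) × ℝ → ℝ}
    (hf : ContDiff ℝ 1 f) (hp : Per f) :
    ∫ P, fderiv ℝ f (repv P.1, rep P.2.2) (P.2.1, 1) ∂μ = 0 := by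
  have hprob := hμ.prob
  obtain ⟨R, hR⟩ := hμ.compact_support
  obtain ⟨B1, hB1, h1⟩ := D.perX.bounded D.X_contDiff.continuous
  obtain ⟨B2, hB2, h2⟩ := hp.bounded hf.continuous
  obtain ⟨B3, hB3, h3⟩ := hp.fderiv.bounded (hf.continuous_fderiv one_ne_zero)
  set g : Phase n → ℝ := fun P => f (repv P.1, rep P.2.2) with hg
  have hgm : Measurable g :=
    hf.continuous.measurable.comp ((measurable_repv.comp measurable_fst).prodMk
      (measurable_rep.comp (measurable_snd.comp measurable_snd)))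
  have hgi : Integrable g μ :=
    Integrable.of_bound hgm.aestronglyMeasurable B2 (Eventually.of_forall (fun P => h2 _))
  set σ : ℕ → ℝ := fun k => 1 / ((k : ℝ) + 1) with hσ
  have hσ0 : ∀ k, 0 < σ k := fun k => by positivity
  have hσ1 : ∀ k, σ k ≤ 1 := fun k => by
    rw [hσ]
    simp only
    rw [div_le_one (by positivity)]
    have : (0 : ℝ) ≤ k := Nat.cast_nonneg k
    linarith
  set G : ℕ → Phase n → ℝ := fun k P => (σ k)⁻¹ • (g (PhiD D (σ k) P) - g P) with hG
  have hGm : ∀ k, AEStronglyMeasurable (G k) μ := fun k =>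
    (((hgm.comp (measurable_PhiD D (σ k))).sub hgm).const_smul (σ k)⁻¹).aestronglyMeasurable
  have hG0 : ∀ k, ∫ P, G k P ∂μ = 0 := by
    intro k
    have hm := hμ.invariant (σ k)
    have e1 : ∫ P, g (PhiD D (σ k) P) ∂μ = ∫ P, g P ∂μ := by
      conv_rhs => rw [← hm.map_eq]
      rw [integral_map hm.measurable.aemeasurable hgm.aestronglyMeasurable]
    have e2 : Integrable (fun P => g (PhiD D (σ k) P)) μ := hm.integrable_comp_of_integrable hgi
    rw [hG]
    simp only
    rw [integral_smul, integral_sub e2 hgi, e1, sub_self, smul_zero]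
  have hlim : Tendsto (fun k => ∫ P, G k P ∂μ) atTop
      (𝓝 (∫ P, fderiv ℝ f (repv P.1, rep P.2.2) (P.2.1, 1) ∂μ)) := by
    set δ := 1 + max R 0 + B1
    set K := B3 * (GA D * (1 + gronwallBound δ (GA D) (GA D) 1))
    refine tendsto_integral_of_dominated_convergence (fun _ => K) hGm (integrable_const _) ?_ ?_
    · intro k
      filter_upwards [hR] with P hP
      have h4 := norm_lif_le D h1 P (hP.trans (le_max_left R 0)) hB1 (le_max_right _ _)
      have h5 := flow_lip D hf hB3 h3 (lif D P) h4 (s := σ k) ⟨(hσ0 k).le, hσ1 k⟩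
      have h6 : g (PhiD D (σ k) P) - g P = f ((ph D (σ k) (lif D P)).1, (ph D (σ k) (lif D P)).2.2)
          - f ((lif D P).1, (lif D P).2.2) := by
        rw [hg]
        simp only [PhiD]
        rw [proj_cvp D hp]
        rfl
      rw [hG]
      simp only
      rw [h6, norm_smul, norm_inv, Real.norm_eq_abs, abs_of_pos (hσ0 k)]
      rw [inv_mul_le_iff₀ (hσ0 k), mul_comm (σ k)]
      exact h5
    · refine Eventually.of_forall (fun P => ?_)
      have h4 := along_flow D hf (lif D P) 0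
      rw [hasDerivAt_iff_tendsto_slope_zero] at h4
      simp only [ph_zero, zero_add] at h4
      have h5 : (FD D (lif D P)).1 = P.2.1 := by
        show D.X (repv P.1, rep P.2.2) + (P.2.1 - D.X (repv P.1, rep P.2.2)) = P.2.1
        abel
      rw [h5] at h4
      have h6 : Tendsto σ atTop (𝓝[≠] 0) := by
        rw [tendsto_nhdsWithin_iff]
        refine ⟨tendsto_one_div_add_atTop_nhds_zero_nat, Eventually.of_forall (fun k => ?_)⟩
        exact (hσ0 k).ne'
      have h7 := h4.comp h6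
      refine h7.congr (fun k => ?_)
      simp only [Function.comp_apply]
      rw [hG]
      simp only
      congr 1
      rw [hg]
      simp only [PhiD]
      rw [proj_cvp D hp]
      rfl
  simp only [hG0] at hlim
  exact (tendsto_nhds_unique hlim tendsto_const_nhds)

end Pool.Agent.Helper981
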