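import Pool.Agent.Helper981.Main5

set_option autoImplicit false

open Set Filter Topology Metric MeasureTheory
open scoped NNReal ContDiff

namespace Pool.Agent.Helper981

variable {n : ℕ} (D : MData n)

lemma LD_ge (P : Phase n) :
    ‖P.2.1 - D.X (repv P.1, rep P.2.2)‖ ^ 2 / 2 + D.V (repv P.1, rep P.2.2) ≤ LD D P := by
  have := sq_norm_le_sum (P.2.1 - D.X (repv P.1, rep P.2.2))
  unfold LD
  simp only [Pi.sub_apply] at this
  linarith

lemma LD_integrable {μ : Measure (Phase n)} (hμ : IsInv (PhiD D) μ) : Integrable (LD D) μ := by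
  have hprob := hμ.prob
  obtain ⟨R, hR⟩ := hμ.compact_support
  obtain ⟨B1, hB1, h1⟩ := D.perX.bounded D.X_contDiff.continuous
  obtain ⟨B2, hB2, h2⟩ := D.perV.bounded D.V_contDiff.continuous
  refine Integrable.of_bound (measurable_LD D).aestronglyMeasurable
    ((∑ _i : Fin n, (R + B1) ^ 2) / 2 + B2) ?_
  filter_upwards [hR] with P hP
  rw [Real.norm_eq_abs, abs_of_nonneg (LD_nonneg D P)]
  unfold LD
  have e1 : D.V (repv P.1, rep P.2.2) ≤ B2 := (le_abs_self _).trans (h2 _)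
  have e2 : ∑ i, (P.2.1 i - D.X (repv P.1, rep P.2.2) i) ^ 2 ≤ ∑ _i : Fin n, (R + B1) ^ 2 := by
    refine Finset.sum_le_sum (fun i _ => ?_)
    rw [sq_le_sq]
    have e3 : |P.2.1 i| ≤ R := (norm_le_pi_norm P.2.1 i).trans hP
    have e4 : |D.X (repv P.1, rep P.2.2) i| ≤ B1 := (norm_le_pi_norm _ i).trans (h1 _)
    calc |P.2.1 i - D.X (repv P.1, rep P.2.2) i| ≤ |P.2.1 i| + |D.X (repv P.1, rep P.2.2) i| :=
          abs_sub _ _
      _ ≤ R + B1 := add_le_add e3 e4
      _ ≤ |R + B1| := le_abs_self _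
  linarith

/-- the periodic function whose differential compares the class with `h` -/
noncomputable def fw (i : Fin n) (p : (Fin n → ℝ) × ℝ) : ℝ := D.w i p - p.1 i + D.h i * p.2

lemma fw_contDiff (i : Fin n) : ContDiff ℝ 1 (fw D i) := by
  unfold fw
  exact ((D.w_contDiff i).sub (contDiff_pi.1 contDiff_fst i)).add (contDiff_const.mul contDiff_snd)

lemma fw_per (i : Fin n) : Per (fw D i) := by
  intro k m z t
  unfold fw
  rw [D.w_per]
  simp only [Pi.add_apply, zc_apply]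
  ring

lemma fw_fderiv (i : Fin n) (p : (Fin n → ℝ) × ℝ) (v : Fin n → ℝ) :
    fderiv ℝ (fw D i) p (v, 1) = fderiv ℝ (D.w i) p (v, 1) - v i + D.h i := by
  have h1 : HasFDerivAt (D.w i) (fderiv ℝ (D.w i) p) p :=
    ((D.w_contDiff i).differentiable one_ne_zero p).hasFDerivAt
  have h2 : HasFDerivAt (fun p : (Fin n → ℝ) × ℝ => p.1 i)
      ((ContinuousLinearMap.proj (R := ℝ) (φ := fun _ : Fin n => ℝ) i).comp
        (ContinuousLinearMap.fst ℝ (Fin n → ℝ) ℝ)) p :=
    ((ContinuousLinearMap.proj (R := ℝ) (φ := fun _ : Fin n => ℝ) i).comp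
        (ContinuousLinearMap.fst ℝ (Fin n → ℝ) ℝ)).hasFDerivAt
  have h3 : HasFDerivAt (fun p : (Fin n → ℝ) × ℝ => D.h i * p.2)
      (D.h i • (ContinuousLinearMap.snd ℝ (Fin n → ℝ) ℝ)) p :=
    (ContinuousLinearMap.snd ℝ (Fin n → ℝ) ℝ).hasFDerivAt.const_mul (D.h i)
  have h4 := ((h1.sub h2).add h3).fderiv
  have e : fw D i = fun p => D.w i p - p.1 i + D.h i * p.2 := rfl
  have h5 : fderiv ℝ (fw D i) p = fderiv ℝ (D.w i) p - (ContinuousLinearMap.proj (R := ℝ) (φ := fun _ : Fin n => ℝ) i).comp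
        (ContinuousLinearMap.fst ℝ (Fin n → ℝ) ℝ) + D.h i • (ContinuousLinearMap.snd ℝ (Fin n → ℝ) ℝ) := h4
  rw [h5]
  simp

/-- pointwise bound of the test forms by the Lagrangian -/
lemma w_le_LD : ∃ K : ℝ, 0 < K ∧ ∀ i (P : Phase n),
    |fderiv ℝ (D.w i) (repv P.1, rep P.2.2) (P.2.1, 1)| ≤ K * LD D P := by
  obtain ⟨B1, hB1, h1⟩ := D.perX.bounded D.X_contDiff.continuous
  obtain ⟨B2, hB2, h2⟩ := D.perV.bounded D.V_contDiff.continuous
  have hC := D.C_nonneg
  refine ⟨D.C * (B1 + B2 + 2) + 1, by positivity, ?_⟩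
  intro i P
  set p := (repv P.1, rep P.2.2)
  set y := ‖P.2.1 - D.X p‖
  have hL := LD_ge D P
  have hL0 := LD_nonneg D P
  have hV0 := D.V_nonneg p
  have hV : D.V p ≤ B2 := (le_abs_self _).trans (h2 _)
  have hX : ‖D.X p‖ ≤ B1 := h1 p
  have hy : 0 ≤ y := norm_nonneg _
  have hn : ‖((P.2.1, (1 : ℝ)) : (Fin n → ℝ) × ℝ)‖ ≤ y + B1 + 1 := by
    refine max_le ?_ ?_
    · have : ‖P.2.1‖ ≤ y + ‖D.X p‖ := by
        have := norm_add_le (P.2.1 - D.X p) (D.X p)
        rwa [sub_add_cancel] at this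
      show ‖P.2.1‖ ≤ y + B1 + 1
      linarith
    · show ‖(1 : ℝ)‖ ≤ _
      rw [norm_one]
      linarith
  have e1 : |fderiv ℝ (D.w i) p (P.2.1, 1)| ≤ D.C * D.V p * (y + B1 + 1) :=
    ((fderiv ℝ (D.w i) p).le_opNorm (P.2.1, 1)).trans
      (mul_le_mul (D.w_bound i p) hn (norm_nonneg _) (by positivity))
  refine e1.trans ?_
  have hL' : y ^ 2 / 2 + D.V p ≤ LD D P := hL
  have e2 : D.V p * y ≤ (B2 + 1) * LD D P := by
    have : D.V p * y ≤ (D.V p ^ 2 + y ^ 2) / 2 := by nlinarith [sq_nonneg (D.V p - y)]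
    have : D.V p ^ 2 ≤ B2 * D.V p := by nlinarith
    have : B2 * D.V p ≤ B2 * LD D P := by
      apply mul_le_mul_of_nonneg_left _ hB2
      nlinarith [sq_nonneg y]
    have : y ^ 2 / 2 ≤ LD D P := by linarith
    have : 0 ≤ B2 * LD D P := by positivity
    nlinarith
  have e3 : D.V p * (B1 + 1) ≤ (B1 + 1) * LD D P := by
    have : D.V p ≤ LD D P := by nlinarith [sq_nonneg y]
    nlinarith
  have e4 : D.V p * (y + B1 + 1) ≤ (B1 + B2 + 2) * LD D P := by nlinarith
  calc D.C * D.V p * (y + B1 + 1) = D.C * (D.V p * (y + B1 + 1)) := by ring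
    _ ≤ D.C * ((B1 + B2 + 2) * LD D P) := mul_le_mul_of_nonneg_left e4 hC
    _ ≤ (D.C * (B1 + B2 + 2) + 1) * LD D P := by nlinarith

/-- The homology class of an invariant measure is close to `h` when its action is small. -/
theorem hom_est : ∃ K : ℝ, 0 < K ∧ ∀ μ : Measure (Phase n), IsInv (PhiD D) μ →
    ‖homClass μ - D.h‖ ≤ K * ∫ P, LD D P ∂μ := by
  obtain ⟨K, hK, hw⟩ := w_le_LD D
  refine ⟨K, hK, ?_⟩
  intro μ hμ
  have hprob := hμ.prob
  have hLi := LD_integrable D hμ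
  have hL0 : 0 ≤ ∫ P, LD D P ∂μ := integral_nonneg (LD_nonneg D)
  rw [pi_norm_le_iff_of_nonneg (by positivity)]
  intro i
  obtain ⟨R, hR⟩ := hμ.compact_support
  have hvi : Integrable (fun P : Phase n => P.2.1 i) μ := by
    refine Integrable.of_bound ((measurable_pi_apply i).comp
      (measurable_fst.comp measurable_snd)).aestronglyMeasurable R ?_
    filter_upwards [hR] with P hP
    exact (norm_le_pi_norm P.2.1 i).trans hP
  have hpm : Measurable (fun P : Phase n => ((repv P.1, rep P.2.2) : (Fin n → ℝ) × ℝ)) :=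
    (measurable_repv.comp measurable_fst).prodMk
      (measurable_rep.comp (measurable_snd.comp measurable_snd))
  have hwm : Measurable (fun P : Phase n => fderiv ℝ (D.w i) (repv P.1, rep P.2.2) (P.2.1, 1)) := by
    have hc : Continuous (fun q : ((Fin n → ℝ) × ℝ) × ((Fin n → ℝ) × ℝ) =>
        fderiv ℝ (D.w i) q.1 q.2) :=
      (((D.w_contDiff i).continuous_fderiv one_ne_zero).comp continuous_fst).clm_apply continuous_snd
    exact hc.measurable.comp (hpm.prodMk ((measurable_fst.comp measurable_snd).prodMk measurable_const))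
  have hwi : Integrable (fun P : Phase n => fderiv ℝ (D.w i) (repv P.1, rep P.2.2) (P.2.1, 1)) μ := by
    refine Integrable.mono' (hLi.const_mul K) hwm.aestronglyMeasurable ?_
    exact Eventually.of_forall (fun P => hw i P)
  have h0 := closed_form D hμ (fw_contDiff D i) (fw_per D i)
  have e1 : ∫ P, fderiv ℝ (fw D i) (repv P.1, rep P.2.2) (P.2.1, 1) ∂μ =
      ∫ P, fderiv ℝ (D.w i) (repv P.1, rep P.2.2) (P.2.1, 1) ∂μ - ∫ P, P.2.1 i ∂μ + D.h i := by
    have e2 : (fun P : Phase n => fderiv ℝ (fw D i) (repv P.1, rep P.2.2) (P.2.1, 1)) =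
        fun P => (fderiv ℝ (D.w i) (repv P.1, rep P.2.2) (P.2.1, 1) - P.2.1 i) + D.h i :=
      funext (fun P => fw_fderiv D i _ _)
    have hsub : Integrable (fun P : Phase n =>
        fderiv ℝ (D.w i) (repv P.1, rep P.2.2) (P.2.1, 1) - P.2.1 i) μ := hwi.sub hvi
    rw [e2, integral_add hsub (integrable_const _), integral_sub hwi hvi]
    simp
  rw [e1] at h0
  have e3 : (homClass μ - D.h) i = ∫ P, fderiv ℝ (D.w i) (repv P.1, rep P.2.2) (P.2.1, 1) ∂μ := by
    simp only [Pi.sub_apply, homClass]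
    linarith
  rw [e3]
  calc ‖∫ P, fderiv ℝ (D.w i) (repv P.1, rep P.2.2) (P.2.1, 1) ∂μ‖
      ≤ ∫ P, K * LD D P ∂μ := norm_integral_le_of_norm_le (hLi.const_mul K)
        (Eventually.of_forall (fun P => hw i P))
    _ = K * ∫ P, LD D P ∂μ := integral_const_mul K _

end Pool.Agent.Helper981
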