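import Pool.Agent.Helper981.Main6

set_option autoImplicit false

open Set Filter Topology Metric MeasureTheory
open scoped NNReal ContDiff

namespace Pool.Agent.Helper981

variable {n : ℕ} (D : MData n)

/-- the point of the invariant set at phase `ξ` and time `t` -/
noncomputable def Jt (ξ t : ℝ) : Phase n := cov (D.γ ξ t) (D.X (D.γ ξ t, t)) t

lemma Jt_add_one (ξ t : ℝ) : Jt D (ξ + 1) t = Jt D ξ t := by
  unfold Jt
  rw [D.γ_per1]
  have h1 := D.perX D.k1 0 (D.γ ξ t) t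
  have h2 := cov_shift (D.γ ξ t) (D.X (D.γ ξ t, t)) t D.k1 0
  simp only [Int.cast_zero, add_zero] at h1 h2
  rw [h1, h2]

lemma Jt_time (ξ t : ℝ) : Jt D ξ (t + 1) = Jt D (ξ + D.a) t := by
  unfold Jt
  rw [D.γ_per2]
  have h1 := D.perX 0 1 (D.γ (ξ + D.a) t) t
  have h2 := cov_shift (D.γ (ξ + D.a) t) (D.X (D.γ (ξ + D.a) t, t)) t 0 1
  have e : zc (0 : Fin n → ℤ) = 0 := by
    ext i
    simp
  rw [e] at h1 h2
  simp only [Int.cast_one, add_zero] at h1 h2
  rw [h1, h2]

/-- doubly periodic parametrisation -/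
noncomputable def J2 (x t : ℝ) : Phase n := Jt D (x - D.a * t) t

lemma J2_per1 (t : ℝ) : Function.Periodic (fun x => J2 D x t) 1 := by
  intro x
  simp only [J2]
  rw [← Jt_add_one D (x - D.a * t) t]
  congr 1
  ring

lemma J2_per2 (x : ℝ) : Function.Periodic (fun t => J2 D x t) 1 := by
  intro t
  simp only [J2]
  rw [Jt_time]
  congr 1
  ring

/-- parametrisation of the invariant set by the 2-torus -/
noncomputable def JJ (q : AddCircle (1 : ℝ) × AddCircle (1 : ℝ)) : Phase n :=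
  J2 D (rep q.1) (rep q.2)

lemma JJ_coe (x t : ℝ) : JJ D ((x : AddCircle (1 : ℝ)), (t : AddCircle (1 : ℝ))) = J2 D x t := by
  unfold JJ
  simp only [rep_coe]
  have h1 : J2 D (Int.fract x) (Int.fract t) = J2 D x (Int.fract t) := by
    have := (J2_per1 D (Int.fract t)).sub_int_mul_eq ⌊x⌋ (x := x)
    simp only [mul_one] at this
    exact this
  have h2 : J2 D x (Int.fract t) = J2 D x t := by
    have := (J2_per2 D x).sub_int_mul_eq ⌊t⌋ (x := t)
    simp only [mul_one] at this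
    exact this
  rw [h1, h2]

lemma traj_gamma (ξ t : ℝ) :
    HasDerivAt (fun s => ((D.γ ξ s, 0, s) : Cv n)) (FD D (D.γ ξ t, 0, t)) t := by
  have h1 := (D.γ_deriv ξ t).prodMk ((hasDerivAt_const t (0 : Fin n → ℝ)).prodMk (hasDerivAt_id t))
  refine h1.congr_deriv ?_
  have hV : fderiv ℝ D.V (D.γ ξ t, t) = 0 := by
    apply IsLocalMin.fderiv_eq_zero
    refine Eventually.of_forall (fun p => ?_)
    simp only [D.γ_V ξ t]
    exact D.V_nonneg p
  unfold FD RR
  simp only [hV]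
  simp

lemma PhiD_Jt (s ξ t : ℝ) : PhiD D s (Jt D ξ t) = Jt D ξ (t + s) := by
  have h := ph_uniq D _ (traj_gamma D ξ) t s
  unfold Jt
  rw [PhiD_cov, sub_self, ← h]
  unfold cvp
  simp

lemma PhiD_JJ (s : ℝ) (q : AddCircle (1 : ℝ) × AddCircle (1 : ℝ)) :
    PhiD D s (JJ D q) = JJ D (q + (((D.a * s : ℝ) : AddCircle (1 : ℝ)), ((s : ℝ) : AddCircle (1 : ℝ)))) := by
  obtain ⟨θ, τ⟩ := q
  obtain ⟨x, rfl⟩ : ∃ x : ℝ, (x : AddCircle (1 : ℝ)) = θ := ⟨rep θ, coe_rep θ⟩
  obtain ⟨t, rfl⟩ : ∃ x : ℝ, (x : AddCircle (1 : ℝ)) = τ := ⟨rep τ, coe_rep τ⟩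
  rw [Prod.mk_add_mk, ← AddCircle.coe_add, ← AddCircle.coe_add, JJ_coe, JJ_coe]
  unfold J2
  rw [PhiD_Jt]
  congr 1
  ring

lemma measurable_JJ : Measurable (JJ D) := by
  have h1 : Continuous (fun q : ℝ × ℝ => J2 D q.1 q.2) := by
    unfold J2 Jt
    have hg : Continuous (fun q : ℝ × ℝ => D.γ (q.1 - D.a * q.2) q.2) :=
      D.γ_cont.comp ((continuous_fst.sub (continuous_const.mul continuous_snd)).prodMk continuous_snd)
    exact continuous_cov.comp (f := fun q : ℝ × ℝ => ((D.γ (q.1 - D.a * q.2) q.2,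
      D.X (D.γ (q.1 - D.a * q.2) q.2, q.2), q.2) : Cv n))
      (hg.prodMk ((D.X_contDiff.continuous.comp (hg.prodMk continuous_snd)).prodMk continuous_snd))
  unfold JJ
  exact h1.measurable.comp ((measurable_rep.comp measurable_fst).prodMk
    (measurable_rep.comp measurable_snd))

/-- the invariant measure of zero action -/
noncomputable def mu0 : Measure (Phase n) :=
  ((AddCircle.haarAddCircle (T := 1)).prod (AddCircle.haarAddCircle (T := 1))).map (JJ D)

lemma mu0_inv : IsInv (PhiD D) (mu0 D) := by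
  refine ⟨?_, ?_, ?_⟩
  · exact Measure.isProbabilityMeasure_map (measurable_JJ D).aemeasurable
  · obtain ⟨B1, hB1, h1⟩ := D.perX.bounded D.X_contDiff.continuous
    refine ⟨B1, ?_⟩
    unfold mu0
    refine (ae_map_iff (p := fun P : Phase n => ‖P.2.1‖ ≤ B1) (measurable_JJ D).aemeasurable
      (measurableSet_le (measurable_fst.comp measurable_snd).norm measurable_const)).2 ?_
    exact Eventually.of_forall (fun q => h1 _)
  · intro s
    refine ⟨measurable_PhiD D s, ?_⟩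
    unfold mu0
    rw [Measure.map_map (measurable_PhiD D s) (measurable_JJ D)]
    have e1 : PhiD D s ∘ JJ D = JJ D ∘ (fun q => q +
        (((D.a * s : ℝ) : AddCircle (1 : ℝ)), ((s : ℝ) : AddCircle (1 : ℝ)))) :=
      funext (fun q => PhiD_JJ D s q)
    have hτ := measurePreserving_add_right
      ((AddCircle.haarAddCircle (T := 1)).prod (AddCircle.haarAddCircle (T := 1)))
      (((D.a * s : ℝ) : AddCircle (1 : ℝ)), ((s : ℝ) : AddCircle (1 : ℝ)))
    rw [e1, ← Measure.map_map (measurable_JJ D) hτ.measurable, hτ.map_eq]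

lemma LD_JJ (q : AddCircle (1 : ℝ) × AddCircle (1 : ℝ)) : LD D (JJ D q) = 0 := by
  unfold JJ J2 Jt
  rw [LD_cov, D.γ_V]
  simp

lemma mu0_action : ∫ P, LD D P ∂(mu0 D) = 0 := by
  unfold mu0
  rw [integral_map (measurable_JJ D).aemeasurable (measurable_LD D).aestronglyMeasurable]
  simp only [LD_JJ, integral_zero]

lemma mu0_class : homClass (mu0 D) = D.h := by
  obtain ⟨K, hK, h⟩ := hom_est D
  have h1 := h (mu0 D) (mu0_inv D)
  rw [mu0_action, mul_zero] at h1
  have h2 : ‖homClass (mu0 D) - D.h‖ = 0 := le_antisymm h1 (norm_nonneg _)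
  rwa [norm_eq_zero, sub_eq_zero] at h2

theorem beta_h : beta (LD D) (PhiD D) D.h = 0 := by
  apply le_antisymm
  · unfold beta
    refine iInf_le_of_le (mu0 D) (iInf_le_of_le (mu0_inv D) (iInf_le_of_le (mu0_class D) ?_))
    rw [mu0_action]
    simp
  · unfold beta
    refine le_iInf (fun μ => le_iInf (fun hμ => le_iInf (fun _ => ?_)))
    exact_mod_cast integral_nonneg (LD_nonneg D)

theorem beta_lower : ∃ κ : ℝ, 0 < κ ∧ ∀ h' : Fin n → ℝ,
    ((κ * ‖h' - D.h‖ : ℝ) : EReal) ≤ beta (LD D) (PhiD D) h' := by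
  obtain ⟨K, hK, h⟩ := hom_est D
  refine ⟨K⁻¹, inv_pos.2 hK, ?_⟩
  intro h'
  unfold beta
  refine le_iInf (fun μ => le_iInf (fun hμ => le_iInf (fun hc => ?_)))
  have h1 := h μ hμ
  rw [hc] at h1
  rw [EReal.coe_le_coe_iff, inv_mul_le_iff₀ hK]
  exact h1

end Pool.Agent.Helper981
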