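import Pool.Agent.Helper981.Main7

set_option autoImplicit false

open Set Filter Topology Metric MeasureTheory
open scoped NNReal ContDiff

namespace Pool.Agent.Helper981

variable {n : ℕ}

lemma dirDeriv_ge {f : (Fin n → ℝ) → EReal} {x : Fin n → ℝ} (h0 : f x = 0) {κ : ℝ}
    (h : ∀ y, ((κ * ‖y - x‖ : ℝ) : EReal) ≤ f y) (v : Fin n → ℝ) :
    ((κ * ‖v‖ : ℝ) : EReal) ≤ dirDeriv f x v := by
  unfold dirDeriv
  refine le_liminf_of_le (by isBoundedDefault) ?_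
  filter_upwards [self_mem_nhdsWithin] with t ht
  have ht' : (0 : ℝ) < t := ht
  rw [h0, sub_zero]
  have h1 := h (x + t • v)
  rw [add_sub_cancel_left, norm_smul, Real.norm_eq_abs, abs_of_pos ht'] at h1
  rw [EReal.le_div_iff_mul_le (by exact_mod_cast ht') (EReal.coe_ne_top t)]
  refine le_trans (le_of_eq ?_) h1
  rw [← EReal.coe_mul]
  congr 1
  ring

lemma no_line {f : (Fin n → ℝ) → EReal} {x : Fin n → ℝ} (h0 : f x = 0) {κ : ℝ} (hκ : 0 < κ)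
    (h : ∀ y, ((κ * ‖y - x‖ : ℝ) : EReal) ≤ f y) {v : Fin n → ℝ} (hv : v ≠ 0) :
    dirDeriv f x v + dirDeriv f x (-v) ≠ 0 := by
  have h1 := dirDeriv_ge h0 h v
  have h2 := dirDeriv_ge h0 h (-v)
  have h3 : (0 : ℝ) < κ * ‖v‖ := mul_pos hκ (norm_pos_iff.2 hv)
  have h4 := add_le_add h1 h2
  rw [norm_neg, ← EReal.coe_add] at h4
  intro h5
  rw [h5] at h4
  have h6 : (κ * ‖v‖ + κ * ‖v‖ : ℝ) ≤ 0 := by exact_mod_cast h4
  linarith

/-- The main example. -/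
theorem main_example : ∃ (L : Phase 11 → ℝ) (Φ : ℝ → Phase 11 → Phase 11) (h : Fin 11 → ℝ),
    IsTonelli L ∧ IsELFlow L Φ ∧ h 0 = om ∧ (∀ i : Fin 10, h i.succ = 0) ∧
    beta L Φ h = 0 ∧ ∃ κ : ℝ, 0 < κ ∧ ∀ h' : Fin 11 → ℝ,
      ((κ * ‖h' - h‖ : ℝ) : EReal) ≤ beta L Φ h' := by
  obtain ⟨D, h0, h1⟩ := exists_MData
  exact ⟨LD D, PhiD D, D.h, isTonelli_LD D, isELFlow_PhiD D, h0, h1, beta_h D, beta_lower D⟩

end Pool.Agent.Helper981
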