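import Mathlib

set_option autoImplicit false
set_option linter.unusedSectionVars false

open Set Filter Topology

namespace Pool.Agent.Helper981

section bump

/-- one dimensional bump whose integer translates sum to one -/
noncomputable def bet (t : ℝ) : ℝ := Real.smoothTransition (t + 1) - Real.smoothTransition t

lemma bet_contDiff : ContDiff ℝ 2 bet := by
  unfold bet
  have h : ContDiff ℝ 2 Real.smoothTransition := Real.smoothTransition.contDiff (n := 2)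
  exact (h.comp (contDiff_id.add contDiff_const)).sub h

lemma bet_eq_zero {t : ℝ} (h : 1 ≤ |t|) : bet t = 0 := by
  unfold bet
  rcases le_abs.1 h with h | h
  · rw [Real.smoothTransition.one_of_one_le (by linarith), Real.smoothTransition.one_of_one_le h]
    simp
  · rw [Real.smoothTransition.zero_of_nonpos (by linarith),
      Real.smoothTransition.zero_of_nonpos (by linarith)]
    simp

lemma bet_nonneg (t : ℝ) : 0 ≤ bet t := by
  unfold bet
  rcases le_total t 0 with h | h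
  · rw [Real.smoothTransition.zero_of_nonpos h]
    simpa using Real.smoothTransition.nonneg (t + 1)
  · rw [Real.smoothTransition.one_of_one_le (by linarith : 1 ≤ t + 1)]
    linarith [Real.smoothTransition.le_one t]

lemma bet_sum (t : ℝ) : ∑ l ∈ Finset.Icc (⌊t⌋ - 1) (⌊t⌋ + 2), bet (t - (l : ℝ)) = 1 := by
  have hI : Finset.Icc (⌊t⌋ - 1) (⌊t⌋ + 2) = {⌊t⌋ - 1, ⌊t⌋, ⌊t⌋ + 1, ⌊t⌋ + 2} := by
    ext l
    simp only [Finset.mem_Icc, Finset.mem_insert, Finset.mem_singleton]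
    omega
  rw [hI]
  have h1 := Int.floor_le t
  have h2 := Int.lt_floor_add_one t
  rw [Finset.sum_insert (by simp only [Finset.mem_insert, Finset.mem_singleton]; omega),
    Finset.sum_insert (by simp), Finset.sum_insert (by simp), Finset.sum_singleton]
  push_cast
  rw [bet_eq_zero (t := t - (⌊t⌋ - 1)) (by rw [le_abs]; left; linarith),
    bet_eq_zero (t := t - (⌊t⌋ + 2)) (by rw [le_abs]; right; linarith)]
  unfold bet
  rw [show t - (⌊t⌋ + 1 : ℝ) + 1 = t - ⌊t⌋ by ring,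
    Real.smoothTransition.one_of_one_le (by linarith : 1 ≤ t - (⌊t⌋ : ℝ) + 1),
    Real.smoothTransition.zero_of_nonpos (by linarith : t - (⌊t⌋ + 1 : ℝ) ≤ 0)]
  ring

end bump

variable {ι : Type*} [Fintype ι] [DecidableEq ι]

/-- integer vectors as real vectors -/
def zc (l : ι → ℤ) : ι → ℝ := fun i => (l i : ℝ)

@[simp] lemma zc_apply (l : ι → ℤ) (i : ι) : zc l i = (l i : ℝ) := rfl

/-- product bump -/
noncomputable def Bmp (u : ι → ℝ) : ℝ := ∏ i, bet (u i)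

/-- lattice sums -/
noncomputable def Ser (f : (ι → ℝ) → ℝ) (c : (ι → ℤ) → ℝ) (u : ι → ℝ) : ℝ :=
  ∑' l : ι → ℤ, c l * f (u - zc l)

/-- the window of active lattice points -/
noncomputable def Win (u : ι → ℝ) : Finset (ι → ℤ) :=
  Fintype.piFinset (fun i => Finset.Icc (⌊u i⌋ - 1) (⌊u i⌋ + 2))

lemma card_Win (u : ι → ℝ) : (Win u).card = 4 ^ Fintype.card ι := by
  unfold Win
  rw [Fintype.card_piFinset]
  have : ∀ i : ι, (Finset.Icc (⌊u i⌋ - 1) (⌊u i⌋ + 2)).card = 4 := by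
    intro i
    rw [Int.card_Icc]
    have : ⌊u i⌋ + 2 + 1 - (⌊u i⌋ - 1) = 4 := by ring
    rw [this]; rfl
  simp [this]

/-- supported in the open unit cube -/
def SuppC (f : (ι → ℝ) → ℝ) : Prop := ∀ u, (∃ i, 1 ≤ |u i|) → f u = 0

lemma notMem_Win {u u' : ι → ℝ} (h : ∀ i, |u' i - u i| < 1 / 2) {l : ι → ℤ} (hl : l ∉ Win u) :
    ∃ i, 1 ≤ |(u' - zc l) i| := by
  simp only [Win, Fintype.mem_piFinset, Finset.mem_Icc, not_forall, not_and_or, not_le] at hl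
  obtain ⟨i, hi⟩ := hl
  refine ⟨i, ?_⟩
  have h1 := Int.floor_le (u i)
  have h2 := Int.lt_floor_add_one (u i)
  have h3 := abs_lt.1 (h i)
  simp only [Pi.sub_apply, zc_apply]
  rw [le_abs]
  rcases hi with hi | hi
  · left
    have : (l i : ℝ) + 2 ≤ ⌊u i⌋ := by exact_mod_cast (by omega : l i + 2 ≤ ⌊u i⌋)
    linarith
  · right
    have : (⌊u i⌋ : ℝ) + 3 ≤ l i := by exact_mod_cast (by omega : ⌊u i⌋ + 3 ≤ l i)
    linarith

lemma Ser_eq_sum {f : (ι → ℝ) → ℝ} (hf : SuppC f) (c : (ι → ℤ) → ℝ) {u u' : ι → ℝ}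
    (h : ∀ i, |u' i - u i| < 1 / 2) :
    Ser f c u' = ∑ l ∈ Win u, c l * f (u' - zc l) := by
  unfold Ser
  apply tsum_eq_sum
  intro l hl
  rw [hf _ (notMem_Win h hl), mul_zero]

lemma Ser_eq_sum' {f : (ι → ℝ) → ℝ} (hf : SuppC f) (c : (ι → ℤ) → ℝ) (u : ι → ℝ) :
    Ser f c u = ∑ l ∈ Win u, c l * f (u - zc l) :=
  Ser_eq_sum hf c (by intro i; simp)

lemma Ser_eventually {f : (ι → ℝ) → ℝ} (hf : SuppC f) (c : (ι → ℤ) → ℝ) (u : ι → ℝ) :
    Ser f c =ᶠ[𝓝 u] fun u' => ∑ l ∈ Win u, c l * f (u' - zc l) := by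
  have h1 : Metric.ball u (1 / 2) ∈ 𝓝 u := Metric.ball_mem_nhds u (by norm_num)
  filter_upwards [h1] with u' hu'
  apply Ser_eq_sum hf
  intro i
  rw [Metric.mem_ball, dist_eq_norm] at hu'
  exact lt_of_le_of_lt (norm_le_pi_norm (u' - u) i) hu'

lemma Ser_contDiff {f : (ι → ℝ) → ℝ} (hf : SuppC f) (c : (ι → ℤ) → ℝ) (h : ContDiff ℝ 2 f) :
    ContDiff ℝ 2 (Ser f c) := by
  rw [contDiff_iff_contDiffAt]
  intro u
  refine ContDiffAt.congr_of_eventuallyEq ?_ (Ser_eventually hf c u)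
  apply ContDiff.contDiffAt
  apply ContDiff.sum
  intro l _
  exact contDiff_const.mul (h.comp (contDiff_id.sub contDiff_const))

lemma Ser_iter_bound {f : (ι → ℝ) → ℝ} (hf : SuppC f) (h : ContDiff ℝ 2 f) {M K : ℝ}
    (hM : ∀ k : ℕ, k ≤ 2 → ∀ u, ‖iteratedFDeriv ℝ k f u‖ ≤ M)
    {c : (ι → ℤ) → ℝ} (hc : ∀ l, |c l| ≤ K) {k : ℕ} (hk : k ≤ 2) (u : ι → ℝ) :
    ‖iteratedFDeriv ℝ k (Ser f c) u‖ ≤ 4 ^ Fintype.card ι * (K * M) := by
  have hK : 0 ≤ K := (abs_nonneg _).trans (hc 0)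
  have hk2 : ((k : ℕ) : WithTop ℕ∞) ≤ 2 := by exact_mod_cast hk
  rw [((Ser_eventually hf c u).iteratedFDeriv ℝ k).eq_of_nhds]
  have h2 : ∀ l : ι → ℤ, ContDiff ℝ (k : ℕ) (fun u' : ι → ℝ => f (u' - zc l)) := by
    intro l
    exact (h.of_le hk2).comp (contDiff_id.sub contDiff_const)
  rw [iteratedFDeriv_sum (fun l _ => contDiff_const.mul (h2 l))]
  rw [Finset.sum_apply]
  refine (norm_sum_le _ _).trans ?_
  have h3 : ∀ l ∈ Win u, ‖iteratedFDeriv ℝ k (fun u' : ι → ℝ => c l * f (u' - zc l)) u‖ ≤ K * M := by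
    intro l _
    have : iteratedFDeriv ℝ k (fun u' : ι → ℝ => c l * f (u' - zc l)) u
        = c l • iteratedFDeriv ℝ k f (u - zc l) := by
      have := iteratedFDeriv_const_smul_apply' (a := c l) (x := u) (i := k)
        (f := fun u' : ι → ℝ => f (u' - zc l)) (h2 l).contDiffAt
      simp only [smul_eq_mul] at this
      rw [this, iteratedFDeriv_comp_sub]
    rw [this, norm_smul]
    exact mul_le_mul (hc l) (hM k hk _) (norm_nonneg _) hK
  refine (Finset.sum_le_sum h3).trans ?_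
  rw [Finset.sum_const, card_Win]
  simp

lemma Ser_bound {f : (ι → ℝ) → ℝ} (hf : SuppC f) (h : ContDiff ℝ 2 f) {M K : ℝ}
    (hM : ∀ k : ℕ, k ≤ 2 → ∀ u, ‖iteratedFDeriv ℝ k f u‖ ≤ M)
    {c : (ι → ℤ) → ℝ} (hc : ∀ l, |c l| ≤ K) (u : ι → ℝ) :
    |Ser f c u| ≤ 4 ^ Fintype.card ι * (K * M) := by
  have := Ser_iter_bound hf h hM hc (k := 0) (by norm_num) u
  rwa [norm_iteratedFDeriv_zero] at this

/-- scaled lattice sums -/
lemma Ser_scale_iter_bound {f : (ι → ℝ) → ℝ} (hf : SuppC f) (h : ContDiff ℝ 2 f) {M K : ℝ}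
    (hM : ∀ k : ℕ, k ≤ 2 → ∀ u, ‖iteratedFDeriv ℝ k f u‖ ≤ M)
    {c : (ι → ℤ) → ℝ} (hc : ∀ l, |c l| ≤ K) {k : ℕ} (hk : k ≤ 2) (j : ℕ) (p : ι → ℝ) :
    ‖iteratedFDeriv ℝ k (fun p => Ser f c ((2:ℝ) ^ j • p)) p‖
      ≤ ((2:ℝ) ^ j) ^ k * (4 ^ Fintype.card ι * (K * M)) := by
  have hk2 : ((k : ℕ) : WithTop ℕ∞) ≤ 2 := by exact_mod_cast hk
  rw [iteratedFDeriv_comp_const_smul ((2:ℝ) ^ j) ((Ser_contDiff hf c h).of_le hk2)]
  rw [norm_smul]
  apply mul_le_mul _ (Ser_iter_bound hf h hM hc hk _) (norm_nonneg _) (by positivity)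
  simp

lemma Ser_scale_contDiff {f : (ι → ℝ) → ℝ} (hf : SuppC f) (h : ContDiff ℝ 2 f)
    (c : (ι → ℤ) → ℝ) (j : ℕ) : ContDiff ℝ 2 (fun p => Ser f c ((2:ℝ) ^ j • p)) :=
  (Ser_contDiff hf c h).comp (contDiff_const_smul _)

lemma exists_bound {f : (ι → ℝ) → ℝ} (hf : SuppC f) (h : ContDiff ℝ 2 f) :
    ∃ M : ℝ, 0 ≤ M ∧ ∀ k : ℕ, k ≤ 2 → ∀ u, ‖iteratedFDeriv ℝ k f u‖ ≤ M := by
  have hc : HasCompactSupport f := by
    apply HasCompactSupport.intro (K := Metric.closedBall (0 : ι → ℝ) 1)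
      (isCompact_closedBall _ _)
    intro x hx
    apply hf
    rw [mem_closedBall_zero_iff, not_le] at hx
    by_contra hcon
    push Not at hcon
    have : ‖x‖ ≤ 1 := (pi_norm_le_iff_of_nonneg zero_le_one).2 (fun i => (hcon i).le)
    linarith
  have h1 : ∀ k : ℕ, k ≤ 2 → ∃ C, ∀ u, ‖iteratedFDeriv ℝ k f u‖ ≤ C := by
    intro k hk
    have hk2 : ((k : ℕ) : WithTop ℕ∞) ≤ 2 := by exact_mod_cast hk
    exact (h.continuous_iteratedFDeriv hk2).bounded_above_of_compact_support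
      (hc.iteratedFDeriv k)
  obtain ⟨C0, h0⟩ := h1 0 (by norm_num)
  obtain ⟨C1, h1'⟩ := h1 1 (by norm_num)
  obtain ⟨C2, h2⟩ := h1 2 le_rfl
  refine ⟨|C0| + |C1| + |C2|, by positivity, ?_⟩
  intro k hk u
  have a0 := le_abs_self C0
  have a1 := le_abs_self C1
  have a2 := le_abs_self C2
  have b0 := abs_nonneg C0
  have b1 := abs_nonneg C1
  have b2 := abs_nonneg C2
  interval_cases k
  · linarith [h0 u]
  · linarith [h1' u]
  · linarith [h2 u]

lemma Bmp_contDiff : ContDiff ℝ 2 (Bmp : (ι → ℝ) → ℝ) := by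
  unfold Bmp
  apply contDiff_prod
  intro i _
  exact bet_contDiff.comp (contDiff_apply ℝ ℝ i)

lemma Bmp_supp : SuppC (Bmp : (ι → ℝ) → ℝ) := by
  rintro u ⟨i, hi⟩
  exact Finset.prod_eq_zero (Finset.mem_univ i) (bet_eq_zero hi)

lemma Bmp_nonneg (u : ι → ℝ) : 0 ≤ Bmp u := Finset.prod_nonneg (fun _ _ => bet_nonneg _)

lemma Ser_one (u : ι → ℝ) : Ser Bmp (fun _ => 1) u = 1 := by
  rw [Ser_eq_sum' Bmp_supp]
  simp only [one_mul, Bmp, Pi.sub_apply, zc_apply]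
  unfold Win
  rw [← Finset.prod_univ_sum (fun i => Finset.Icc (⌊u i⌋ - 1) (⌊u i⌋ + 2))
    (fun i l => bet (u i - (l : ℝ)))]
  simp [bet_sum]


lemma Ser_shift (f : (ι → ℝ) → ℝ) (c : (ι → ℤ) → ℝ) (u : ι → ℝ) (m : ι → ℤ) :
    Ser f c (u + zc m) = Ser f (fun l => c (l + m)) u := by
  unfold Ser
  rw [← (Equiv.addRight m).tsum_eq (fun l => c l * f (u + zc m - zc l))]
  apply tsum_congr
  intro l
  simp only [Equiv.coe_addRight]
  congr 2
  ext i
  simp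

lemma Ser_add {f : (ι → ℝ) → ℝ} (hf : SuppC f) (c d : (ι → ℤ) → ℝ) (u : ι → ℝ) :
    Ser f (fun l => c l + d l) u = Ser f c u + Ser f d u := by
  rw [Ser_eq_sum' hf, Ser_eq_sum' hf, Ser_eq_sum' hf, ← Finset.sum_add_distrib]
  exact Finset.sum_congr rfl (fun l _ => by ring)

lemma Ser_const (a : ℝ) (u : ι → ℝ) : Ser Bmp (fun _ => a) u = a := by
  rw [Ser_eq_sum' Bmp_supp, ← Finset.mul_sum]
  have := Ser_one u
  rw [Ser_eq_sum' Bmp_supp] at this
  simp only [one_mul] at this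
  rw [this, mul_one]

lemma Ser_congr {f : (ι → ℝ) → ℝ} {c d : (ι → ℤ) → ℝ} {u : ι → ℝ}
    (h : ∀ l, f (u - zc l) ≠ 0 → c l = d l) : Ser f c u = Ser f d u := by
  unfold Ser
  apply tsum_congr
  intro l
  by_cases hl : f (u - zc l) = 0
  · rw [hl]; simp
  · rw [h l hl]

/-- the finite set of relative positions -/
noncomputable def Lam : Finset (ι → ℤ) := Fintype.piFinset (fun _ => Finset.Icc (-2) 2)

/-- two level products -/
noncomputable def Fl (lam : ι → ℤ) (u : ι → ℝ) : ℝ := Bmp u * Bmp ((2:ℝ) • u - zc lam)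

lemma Fl_supp (lam : ι → ℤ) : SuppC (Fl lam) := by
  intro u hu
  unfold Fl
  rw [Bmp_supp u hu, zero_mul]

lemma Fl_contDiff (lam : ι → ℤ) : ContDiff ℝ 2 (Fl lam) := by
  unfold Fl
  exact Bmp_contDiff.mul (Bmp_contDiff.comp ((contDiff_const_smul _).sub contDiff_const))

lemma abs_lt_of_Bmp_ne {u : ι → ℝ} (h : Bmp u ≠ 0) (i : ι) : |u i| < 1 := by
  by_contra hc
  exact h (Bmp_supp u ⟨i, not_lt.1 hc⟩)

lemma Ser_two (d : (ι → ℤ) → ℝ) (u : ι → ℝ) (l : ι → ℤ) (hl : Bmp (u - zc l) ≠ 0) :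
    ∑ lam ∈ Lam, d (2 * l + lam) * Bmp ((2:ℝ) • (u - zc l) - zc lam)
      = Ser Bmp d ((2:ℝ) • u) := by
  unfold Ser
  rw [← (Equiv.addLeft (2 * l)).tsum_eq (fun l' => d l' * Bmp ((2:ℝ) • u - zc l'))]
  rw [tsum_eq_sum (s := (Lam : Finset (ι → ℤ)))]
  · apply Finset.sum_congr rfl
    intro lam _
    simp only [Equiv.coe_addLeft]
    congr 2
    ext i
    simp
    ring
  · intro lam hlam
    simp only [Lam, Fintype.mem_piFinset, Finset.mem_Icc, not_forall, not_and_or, not_le] at hlam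
    obtain ⟨i, hi⟩ := hlam
    rw [Bmp_supp, mul_zero]
    refine ⟨i, ?_⟩
    have h1 := abs_lt.1 (abs_lt_of_Bmp_ne hl i)
    simp only [Pi.sub_apply, zc_apply] at h1
    simp only [Equiv.coe_addLeft, Pi.sub_apply, Pi.smul_apply, smul_eq_mul, zc_apply, Pi.add_apply,
      Pi.mul_apply, Pi.ofNat_apply, Int.cast_add, Int.cast_mul, Int.cast_ofNat]
    rw [le_abs]
    rcases hi with hi | hi
    · left
      have : (lam i : ℝ) ≤ -3 := by exact_mod_cast (by omega : lam i ≤ -3)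
      linarith
    · right
      have : (3:ℝ) ≤ lam i := by exact_mod_cast (by omega : 3 ≤ lam i)
      linarith

lemma telescope (c : (ι → ℤ) → (ι → ℤ) → ℝ) (g g' : (ι → ℤ) → ℝ) (u : ι → ℝ)
    (h : ∀ l, Bmp (u - zc l) ≠ 0 → ∀ l', Bmp ((2:ℝ) • u - zc l') ≠ 0 → c l l' = g' l' - g l) :
    ∑ lam ∈ Lam, Ser (Fl lam) (fun l => c l (2 * l + lam)) u
      = Ser Bmp g' ((2:ℝ) • u) - Ser Bmp g u := by
  have h1 : ∀ lam ∈ (Lam : Finset (ι → ℤ)), Ser (Fl lam) (fun l => c l (2 * l + lam)) u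
      = ∑ l ∈ Win u, c l (2 * l + lam) * (Bmp (u - zc l) * Bmp ((2:ℝ) • (u - zc l) - zc lam)) := by
    intro lam _
    rw [Ser_eq_sum' (Fl_supp lam)]
    rfl
  rw [Finset.sum_congr rfl h1, Finset.sum_comm]
  have h2 : ∀ l ∈ Win u, ∑ lam ∈ Lam, c l (2 * l + lam) *
      (Bmp (u - zc l) * Bmp ((2:ℝ) • (u - zc l) - zc lam))
      = (Ser Bmp g' ((2:ℝ) • u)) * Bmp (u - zc l) - g l * Bmp (u - zc l) := by
    intro l _
    by_cases hl : Bmp (u - zc l) = 0
    · simp [hl]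
    · have h3 : ∀ lam ∈ (Lam : Finset (ι → ℤ)), c l (2 * l + lam) *
          (Bmp (u - zc l) * Bmp ((2:ℝ) • (u - zc l) - zc lam))
          = Bmp (u - zc l) * ((fun l' => g' l' + (- g l)) (2 * l + lam)
            * Bmp ((2:ℝ) • (u - zc l) - zc lam)) := by
        intro lam _
        by_cases hb : Bmp ((2:ℝ) • (u - zc l) - zc lam) = 0
        · simp [hb]
        · have h4 : (2:ℝ) • (u - zc l) - zc lam = (2:ℝ) • u - zc (2 * l + lam) := by
            ext i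
            simp
            ring
          rw [h l hl (2 * l + lam) (by rwa [← h4])]
          ring
      rw [Finset.sum_congr rfl h3, ← Finset.mul_sum,
        Ser_two (fun l' => g' l' + (- g l)) u l hl, Ser_add Bmp_supp, Ser_const]
      ring
  rw [Finset.sum_congr rfl h2, Finset.sum_sub_distrib, ← Finset.mul_sum]
  have h5 := Ser_one u
  rw [Ser_eq_sum' Bmp_supp] at h5
  simp only [one_mul] at h5
  rw [h5, mul_one, ← Ser_eq_sum' Bmp_supp]

end Pool.Agent.Helper981
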